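import Pool.Agent.Lib.MP_c86c76_al.Top.Bas

/-!
Local sections of the evaluation map control isotopies that return the base point.
-/

set_option autoImplicit false

namespace Pool.Agent.MCG

open Set Topology Filter
open scoped unitInterval

/-- A continuous family along a path is an isotopy. -/
theorem bir_ifam {S T : Type} [TopologicalSpace S] [TopologicalSpace T] {s : T → S ≃ₜ S}
    {U : Set T} (hs : Fam s U) {p : I → T} (hp : Continuous p) (hU : ∀ u, p u ∈ U) :
    IFam fun u => s (p u) :=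
  ContinuousOn.comp_continuous (f := fun q : I × S => (p q.1, q.2)) hs
    ((hp.comp continuous_fst).prodMk continuous_snd) fun q => ⟨hU q.1, mem_univ _⟩

/-- A property that is constant along paths in small sets is constant. -/
theorem bir_const {T : Type} [TopologicalSpace T] [LocallyPathConnectedSpace T]
    [PreconnectedSpace T] (P : T → Prop)
    (h : ∀ x₀, ∃ U ∈ 𝓝 x₀, ∀ x, ∀ p : Path x₀ x, (∀ u, p u ∈ U) → (P x ↔ P x₀)) (x y : T) :
    P x ↔ P y := by
  have : IsLocallyConstant P := by
    rw [IsLocallyConstant.iff_eventually_eq]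
    intro x₀
    obtain ⟨U, hU, h'⟩ := h x₀
    filter_upwards [pathComponentIn_mem_nhds hU] with x hx
    obtain ⟨p, hp⟩ := hx
    exact propext (h' x p hp)
  rw [this.apply_eq_of_preconnectedSpace x y]

theorem birSt (hA : FamSt) : BirSt := by
  intro S _ _ _ _ _ c K sg hK hL hc
  obtain ⟨-, h2, h3, h4⟩ := hA S
  constructor
  · intro f hf hfc
    obtain ⟨H, hH, h0, h1⟩ := (h2 f).1 hf
    have : LocallyPathConnectedSpace I := (convex_Icc (0 : ℝ) 1).locallyPathConnectedSpace
    have hγ : Continuous fun t => H t c :=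
      Continuous.comp (f := fun t : I => (t, c)) hH (continuous_id.prodMk continuous_const)
    have key := bir_const (fun t : I => (sg (H t c))⁻¹ * H t ∈ K) (fun t₀ => by
      obtain ⟨U, hU, s, hs, hs'⟩ := hL (H t₀ c)
      refine ⟨_, hγ.continuousAt.preimage_mem_nhds hU, fun t p hp => ?_⟩
      have e := h4 c K hK (fun u => s (H (p u) c)) (fun u => H (p u))
        (bir_ifam hs (hγ.comp p.continuous) hp)
        (Continuous.comp (f := fun q : I × S => (p q.1, q.2)) hH
          ((p.continuous.comp continuous_fst).prodMk continuous_snd))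
        fun u => (hs' _ (hp u)).1
      simp only [p.source, p.target] at e
      have a0 := (hs' _ (show H t₀ c ∈ U from p.source ▸ hp 0)).2
      have a1 := (hs' _ (show H t c ∈ U from p.target ▸ hp 1)).2
      have b : ∀ x y z : S ≃ₜ S, x⁻¹ * y ∈ K → (x⁻¹ * z ∈ K ↔ y⁻¹ * z ∈ K) := by
        intro x y z hxy
        rw [show x⁻¹ * z = x⁻¹ * y * (y⁻¹ * z) by group, K.mul_mem_cancel_left hxy]
      rw [b _ _ _ a0, b _ _ _ a1, ← K.mul_mem_cancel_right (x := _) (y := (s (H t₀ c))⁻¹ * H t₀) e,
        mul_inv_cancel_left]) 1 0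
    rw [h0, h1, hfc, mul_one] at key
    exact (K.mul_mem_cancel_left (K.inv_mem hc)).1 (key.2 (K.inv_mem hc))
  · intro x
    have sub : ∀ {f : S ≃ₜ S}, IsoId f → f ∈ Subgroup.normalClosure {f : S ≃ₜ S | IsoId f} :=
      fun hf => Subgroup.subset_normalClosure hf
    refine (bir_const (fun x => ∃ f : S ≃ₜ S, IsoId f ∧ f c = x) (fun x₀ => ?_) x c).2
      ⟨1, h3 1 (one_mem _), rfl⟩
    obtain ⟨U, hU, s, hs, hs'⟩ := hL x₀
    refine ⟨U, hU, fun y p hp => ?_⟩
    have he : IsoId (s y * (s x₀)⁻¹) := by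
      refine (h2 _).2 ⟨fun u => s (p u) * (s x₀)⁻¹, ?_, by simp, by simp⟩
      exact Continuous.comp (f := fun q : I × S => (q.1, (s x₀)⁻¹ q.2))
        (bir_ifam hs p.continuous hp)
        (continuous_fst.prodMk (((s x₀)⁻¹).continuous.comp continuous_snd))
    have a0 := (hs' _ (show x₀ ∈ U from p.source ▸ hp 0)).1
    have a1 := (hs' _ (show y ∈ U from p.target ▸ hp 1)).1
    constructor
    · rintro ⟨f, hf, hfc⟩
      refine ⟨(s y * (s x₀)⁻¹)⁻¹ * f, h3 _ (mul_mem (inv_mem (sub he)) (sub hf)), ?_⟩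
      have : (s y).symm y = c := by rw [Homeomorph.symm_apply_eq, a1]
      rw [mul_inv_rev, inv_inv]
      change s x₀ ((s y).symm (f c)) = x₀
      rw [hfc, this, a0]
    · rintro ⟨f, hf, hfc⟩
      refine ⟨s y * (s x₀)⁻¹ * f, h3 _ (mul_mem (sub he) (sub hf)), ?_⟩
      have : (s x₀).symm x₀ = c := by rw [Homeomorph.symm_apply_eq, a0]
      change s y ((s x₀).symm (f c)) = y
      rw [hfc, this, a1]

end Pool.Agent.MCG
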