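import Pool.Agent.Lib.MP_c86c76_al.Top.Bas

/-!
The self-duality of the surface, which exchanges the centre and the vertex.
-/

set_option autoImplicit false

namespace Pool.Agent.MCG

open Set Topology

noncomputable section

variable {g : ℕ}

/-- The image of a point in the upper half of a sector. -/
def dualU (g : ℕ) (k : ℤ) (a b : ℝ) : Surf g := pr g (pt g ((2 * g + 1) * k) (1 - b) (1 - a))

/-- The image of a point in the lower half of a sector. -/
def dualL (g : ℕ) (k : ℤ) (a b : ℝ) : Surf g :=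
  pr g (pt g ((2 * g + 1) * k + 2 * g) (1 - b) (-(1 - a)))

/-- The image of a point of a sector. -/
def dualF (g : ℕ) (k : ℤ) (a b : ℝ) : Surf g := if 0 ≤ b then dualU g k a b else dualL g k a (-b)

theorem dual_mod {x y : ℤ} (c : ℤ) (h : y - x = 4 * g * c) : x ≡ y [ZMOD (4 * g : ℕ)] :=
  Int.modEq_iff_dvd.2 ⟨c, by push_cast; exact h⟩

theorem dualF_up (k : ℤ) (a : ℝ) {b : ℝ} (hb : 0 ≤ b) : dualF g k a b = dualU g k a b := if_pos hb

theorem dualF_low (hg : 0 < g) (k : ℤ) {a b : ℝ} (hb : 0 ≤ b) (h0 : 0 ≤ a) (h1 : a ≤ 1) :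
    dualF g k a (-b) = dualL g k a b := by
  rcases hb.eq_or_lt with rfl | hb
  · rw [neg_zero, dualF_up k a le_rfl, dualU, dualL, sub_zero]
    exact pr_side hg _ (abs_le.2 ⟨by linarith, by linarith⟩)
  · rw [dualF, if_neg (by linarith), neg_neg]

theorem dualF_congr (hg : 0 < g) {k j : ℤ} (h : k ≡ j [ZMOD (4 * g : ℕ)]) (a b : ℝ) :
    dualF g k a b = dualF g j a b := by
  unfold dualF dualU dualL
  rw [pt_congr hg (h.mul_left (2 * g + 1)), pt_congr hg ((h.mul_left (2 * g + 1)).add_right (2 * g))]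

theorem dualF_diag (hg : 0 < g) (k : ℤ) {a : ℝ} (h0 : 0 ≤ a) (h1 : a ≤ 1) :
    dualF g (k + 1) a (-a) = dualF g k a a := by
  rw [dualF_low hg _ h0 h0 h1, dualF_up _ _ h0, dualU, dualL, ← pt_diag hg]
  exact congrArg (pr g) (pt_congr hg (dual_mod (-1) (by ring)) _ _)

theorem dualF_of_eq (hg : 0 < g) (hF : FibSt g) {k j : ℤ} {a b a' b' : ℝ} (h : |b| ≤ a)
    (ha : a ≤ 1) (h' : |b'| ≤ a') (e : pt g k a b = pt g j a' b') :
    dualF g k a b = dualF g j a' b' := by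
  rcases ((abs_nonneg b).trans h).eq_or_lt with rfl | h0
  · have h1 : a' = 0 := by rw [← nm_pt hg h' (k := j), ← e, nm_pt hg h]
    subst h1
    rw [abs_nonpos_iff.1 h, abs_nonpos_iff.1 h', dualF_up _ _ le_rfl, dualF_up _ _ le_rfl, dualU,
      dualU, sub_zero, (hF.vtx hg (pt_mem hg _ (by simp) le_rfl)).2 ⟨_, rfl⟩,
      (hF.vtx hg (pt_mem hg _ (by simp) le_rfl)).2 ⟨_, rfl⟩]
  · obtain ⟨rfl, ⟨h1, rfl⟩ | ⟨h1, rfl, rfl⟩ | ⟨h1, rfl, rfl⟩⟩ := pt_eq_pt hg h h' h0 e
    · exact (dualF_congr hg h1 _ _).symm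
    · rw [dualF_congr hg h1, dualF_diag hg k h0.le ha]
    · rw [dualF_congr hg h1, ← dualF_diag hg (k - 1) h0.le ha, sub_add_cancel]

theorem dualF_side (hg : 0 < g) (m : ℤ) (c : ℝ) :
    dualF g m 1 c = dualF g (m + 2 * g) 1 (-c) := by
  rcases le_total 0 c with hc | hc
  · rw [dualF_up _ _ hc, dualF_low hg _ hc zero_le_one le_rfl, dualU, dualL, sub_self, neg_zero]
    exact congrArg (pr g) (pt_congr hg (dual_mod (g + 1) (by ring)) _ _)
  · have hc' : 0 ≤ -c := neg_nonneg.2 hc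
    rw [dualF_up _ _ hc', ← neg_neg c, dualF_low hg _ hc' zero_le_one le_rfl, dualU, dualL,
      sub_self, neg_zero, neg_neg]
    exact congrArg (pr g) (pt_congr hg (dual_mod g (by ring)) _ _)

theorem dualF_vtx (k : ℤ) {b : ℝ} (hb : |b| = 1) : dualF g k 1 b = cc g := by
  rcases (abs_eq zero_le_one).1 hb with rfl | rfl
  · rw [dualF_up _ _ zero_le_one, dualU, sub_self, pt_zero, cc]
  · rw [dualF, if_neg (by norm_num), dualL, neg_neg, sub_self, neg_zero, pt_zero, cc]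

theorem dualF_wd (hg : 0 < g) (hF : FibSt g) {k j : ℤ} {a b a' b' : ℝ} (h : |b| ≤ a)
    (ha : a ≤ 1) (h' : |b'| ≤ a') (ha' : a' ≤ 1)
    (e : pr g (pt g k a b) = pr g (pt g j a' b')) : dualF g k a b = dualF g j a' b' := by
  have m1 := pt_mem hg k h ha
  have m2 := pt_mem hg j h' ha'
  rcases (hF.1 _ m1 _ m2).1 e with e1 | ⟨m, e1⟩ | ⟨v1, v2⟩
  · exact dualF_of_eq hg hF h ha h' e1
  · obtain ⟨c, hc, e2⟩ := (glue_iff hg).1 ⟨m1, e1 ▸ m2⟩
    rw [e2, pt_sub hg] at e1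
    rw [dualF_of_eq hg hF h ha hc e2, dualF_of_eq hg hF h' ha' (by rwa [abs_neg]) e1, dualF_side hg]
  · obtain ⟨rfl, h1⟩ := (vtx_iff hg h).1 v1
    obtain ⟨rfl, h2⟩ := (vtx_iff hg h').1 v2
    rw [dualF_vtx k h1, dualF_vtx j h2]

theorem dual_exists (hg : 0 < g) (hF : FibSt g) : ∃ D : Surf g → Surf g,
    ∀ (k : ℤ) (a b : ℝ), 0 ≤ b → b ≤ a → a ≤ 1 →
      D (pr g (pt g k a b)) = dualU g k a b ∧ D (pr g (pt g k a (-b))) = dualL g k a b := by
  choose k a b h1 h2 h3 using pr_surj_pt hg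
  refine ⟨fun x => dualF g (k x) (a x) (b x), fun j a' b' h0 hb ha => ⟨?_, ?_⟩⟩
  · rw [← dualF_up j a' h0]
    exact dualF_wd hg hF (h1 _) (h2 _) (by rwa [abs_of_nonneg h0]) ha (h3 _)
  · rw [← dualF_low hg j h0 (h0.trans hb) ha]
    exact dualF_wd hg hF (h1 _) (h2 _) (by rwa [abs_neg, abs_of_nonneg h0]) ha (h3 _)

theorem dual_surj (hg : 0 < g) (x : Surf g) : ∃ (k : ℤ) (a b : ℝ), 0 ≤ b ∧ b ≤ a ∧ a ≤ 1 ∧
    (pr g (pt g k a b) = x ∨ pr g (pt g k a (-b)) = x) := by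
  obtain ⟨k, a, b, h, ha, e⟩ := pr_surj_pt hg x
  rcases le_total 0 b with hb | hb
  · exact ⟨k, a, b, hb, (le_abs_self b).trans h, ha, Or.inl e⟩
  · exact ⟨k, a, -b, neg_nonneg.2 hb, (neg_le_abs b).trans h, ha, Or.inr (by rwa [neg_neg])⟩

/-- The model triangle. -/
def dualTri : Set (ℝ × ℝ) := {p | 0 ≤ p.2 ∧ p.2 ≤ p.1 ∧ p.1 ≤ 1}

theorem isCompact_dualTri : IsCompact dualTri := by
  refine (isCompact_Icc (a := ((0 : ℝ), (0 : ℝ))) (b := (1, 1))).of_isClosed_subset ?_ ?_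
  · exact (isClosed_le continuous_const continuous_snd).inter
      ((isClosed_le continuous_snd continuous_fst).inter
        (isClosed_le continuous_fst continuous_const))
  · rintro p ⟨h1, h2, h3⟩
    exact ⟨⟨h1.trans h2, h1⟩, h3, h2.trans h3⟩

/-- Continuity can be tested on the triangles. -/
theorem dual_cont (hg : 0 < g) (hF : FibSt g) {D : Surf g → Surf g}
    (h1 : ∀ k : ℤ, Continuous fun p : dualTri => D (pr g (pt g k p.1.1 p.1.2)))
    (h2 : ∀ k : ℤ, Continuous fun p : dualTri => D (pr g (pt g k p.1.1 (-p.1.2)))) :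
    Continuous D := by
  have := hF.2
  have := isCompact_iff_compactSpace.1 isCompact_dualTri
  let q : (Fin (4 * g) × Bool) × dualTri → Surf g := fun x =>
    pr g (pt g (x.1.1 : ℕ) x.2.1.1 (if x.1.2 then x.2.1.2 else -x.2.1.2))
  have hq : Continuous q := by
    refine continuous_prod_of_discrete_left.2 ?_
    rintro ⟨k, _ | _⟩
    · exact (continuous_pr hg).comp ((continuous_pt g (k : ℕ)).comp
        (f := fun p : dualTri => (p.1.1, -p.1.2)) (by fun_prop))
    · exact (continuous_pr hg).comp ((continuous_pt g (k : ℕ)).comp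
        (f := fun p : dualTri => (p.1.1, p.1.2)) (by fun_prop))
  have hs : Function.Surjective q := by
    intro x
    obtain ⟨k, a, b, h0, hb, ha, e⟩ := dual_surj hg x
    obtain ⟨n, hn, e'⟩ := exists_nat_ze hg k
    rw [pt_congr hg ((ze_eq_iff hg).1 e'), pt_congr hg ((ze_eq_iff hg).1 e')] at e
    rcases e with e | e
    · exact ⟨((⟨n, hn⟩, true), ⟨(a, b), h0, hb, ha⟩), e⟩
    · exact ⟨((⟨n, hn⟩, false), ⟨(a, b), h0, hb, ha⟩), e⟩
  refine (hq.isClosedMap.isQuotientMap hq hs).continuous_iff.2 ?_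
  refine continuous_prod_of_discrete_left.2 ?_
  rintro ⟨k, _ | _⟩
  · exact h2 (k : ℕ)
  · exact h1 (k : ℕ)

theorem dualSt (hg : 0 < g) (hF : FibSt g) : DualSt g := by
  obtain ⟨D, hD⟩ := dual_exists hg hF
  have inv : ∀ x, D (D x) = x := by
    intro x
    obtain ⟨k, a, b, h0, hb, ha, rfl | rfl⟩ := dual_surj hg x
    · rw [(hD k a b h0 hb ha).1, dualU,
        (hD _ (1 - b) (1 - a) (by linarith) (by linarith) (by linarith)).1, dualU,
        sub_sub_cancel, sub_sub_cancel]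
      exact congrArg (pr g) (pt_congr hg (dual_mod (-((g + 1) * k)) (by ring)) _ _)
    · rw [(hD k a b h0 hb ha).2, dualL,
        (hD _ (1 - b) (1 - a) (by linarith) (by linarith) (by linarith)).2, dualL,
        sub_sub_cancel, sub_sub_cancel]
      exact congrArg (pr g) (pt_congr hg (dual_mod (-((g + 1) * (k + 1))) (by ring)) _ _)
  have hc : Continuous D := by
    refine dual_cont hg hF (fun k => ?_) fun k => ?_
    · have e : (fun p : dualTri => D (pr g (pt g k p.1.1 p.1.2))) =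
          fun p : dualTri => dualU g k p.1.1 p.1.2 :=
        funext fun p => (hD k _ _ p.2.1 p.2.2.1 p.2.2.2).1
      rw [e]
      exact (continuous_pr hg).comp ((continuous_pt g _).comp
        (f := fun p : dualTri => (1 - p.1.2, 1 - p.1.1)) (by fun_prop))
    · have e : (fun p : dualTri => D (pr g (pt g k p.1.1 (-p.1.2)))) =
          fun p : dualTri => dualL g k p.1.1 p.1.2 :=
        funext fun p => (hD k _ _ p.2.1 p.2.2.1 p.2.2.2).2
      rw [e]
      exact (continuous_pr hg).comp ((continuous_pt g _).comp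
        (f := fun p : dualTri => (1 - p.1.2, -(1 - p.1.1))) (by fun_prop))
  exact ⟨⟨⟨D, D, inv, inv⟩, hc, hc⟩, inv, hD⟩

end

end Pool.Agent.MCG
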