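import Pool.Agent.Lib.MP_c86c76_al.Top.EFib

/-!
The tree of polygons is a regular covering of the surface punctured at the vertex.
-/

set_option autoImplicit false

namespace Pool.Agent.MCG

open Set Topology

variable {g : ℕ}

theorem eCov_nhds (hg : 0 < g) {O₁ O₂ : Set ℂ} (h₁ : IsOpen O₁) (h₂ : IsOpen O₂)
    (hd : ∀ z ∈ O₁, z ∉ O₂) (s : FG g)
    (hs : ∀ z ∈ TS g, ∀ j : ℤ, z - 2 * ze g j ∈ Pol g →
      (z ∈ O₁ → z - 2 * ze g j ∈ O₂ ∧ ss g j = s) ∧ (z ∈ O₂ → z - 2 * ze g j ∈ O₁ ∧ ss g j = s⁻¹))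
    (γ : FG g) (z : TS g) (hz : (z : ℂ) ∈ O₁) :
    ∃ U ∈ 𝓝 (em γ z), ∀ δ : FG g, ((δ • ·) '' U ∩ U).Nonempty → δ = 1 := by
  let S : FG g → Set (FG g × TS g) := fun γ =>
    {a | a.1 = γ ∧ (a.2 : ℂ) ∈ O₁ ∨ a.1 = γ * s ∧ (a.2 : ℂ) ∈ O₂}
  have sat : ∀ γ, ∀ a ∈ S γ, ∀ b : FG g × TS g, em a.1 a.2 = em b.1 b.2 → b ∈ S γ := by
    intro γ a ha b e
    rcases (eFibSt hg _ _ _ _).1 e with ⟨e1, e2⟩ | ⟨j, e1, e2⟩
    · exact (Prod.ext e1 e2 : a = b) ▸ ha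
    · obtain ⟨k1, k2⟩ := hs _ a.2.2 j (e1 ▸ b.2.2.1)
      rcases ha with ⟨a1, a2⟩ | ⟨a1, a2⟩
      · exact Or.inr ⟨by rw [e2, a1, (k1 a2).2], e1 ▸ (k1 a2).1⟩
      · exact Or.inl ⟨by rw [e2, a1, (k2 a2).2, mul_inv_cancel_right], e1 ▸ (k2 a2).1⟩
  refine ⟨Quot.mk _ '' S γ, IsOpen.mem_nhds ?_ ⟨(γ, z), Or.inl ⟨rfl, hz⟩, rfl⟩, ?_⟩
  · have o : ∀ (c : FG g) (O : Set ℂ), IsOpen O →
        IsOpen {a : FG g × TS g | a.1 = c ∧ (a.2 : ℂ) ∈ O} :=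
      fun c O hO => ((isOpen_discrete {c}).preimage continuous_fst).inter
        (hO.preimage (continuous_subtype_val.comp continuous_snd))
    have o' : IsOpen (S γ) := (o _ _ h₁).union (o _ _ h₂)
    exact isQuotientMap_quot_mk.isOpen_preimage.1 ((Subset.antisymm (subset_preimage_image _ _)
      fun b ⟨a, ha, e⟩ => sat γ a ha b e) ▸ o')
  · rintro δ ⟨_, ⟨_, ⟨a, ha, rfl⟩, rfl⟩, b, hb, e⟩
    have := sat (δ * γ) (δ * a.1, a.2) (ha.imp (fun h => ⟨by rw [h.1], h.2⟩)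
      fun h => ⟨by rw [h.1, mul_assoc], h.2⟩) b e.symm
    rcases hb with ⟨b1, b2⟩ | ⟨b1, b2⟩ <;> rcases this with ⟨c1, c2⟩ | ⟨c1, c2⟩
    · exact mul_eq_right.1 (c1.symm.trans b1)
    · exact absurd c2 (hd _ b2)
    · exact absurd b2 (hd _ c2)
    · exact mul_eq_right.1 (mul_right_cancel (c1.symm.trans b1))

/-- The open sector of side `k`. -/
def eCovW (g : ℕ) (k : ℤ) : Set ℂ := {w | |(w / ze g k).im| < tt g * (w / ze g k).re}

theorem eCovW_open (g : ℕ) (k : ℤ) : IsOpen (eCovW g k) := isOpen_lt (by fun_prop) (by fun_prop)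

theorem eCovW_pt (hg : 0 < g) {k : ℤ} {a b : ℝ} : pt g k a b ∈ eCovW g k ↔ |b| < a := by
  have := tt_pos hg
  simp only [eCovW, mem_ofPred_eq, pt_div]
  simp [abs_of_pos this, mul_comm (tt g), this]

theorem eCovW_glue (hg : 0 < g) {z : ℂ} (hz : z ∈ TS g) {j k : ℤ} (h : z - 2 * ze g j ∈ Pol g)
    (hk : z ∈ eCovW g k) : z - 2 * ze g j ∈ eCovW g (k + 2 * g) ∧ ss g j = ss g k := by
  obtain ⟨β, hβ, e⟩ := eFib_side hg hz h
  have e' : z = pt g k (z / ze g k).re ((z / ze g k).im / tt g) := by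
    rw [pt, div_mul_cancel₀ _ (tt_pos hg).ne', Complex.re_add_im, mul_div_cancel₀ _ (ze_ne g k)]
  have hj := eFib_frame hg ((eCovW_pt hg).1 (e' ▸ hk)) hβ.le (e'.symm.trans e)
  refine ⟨?_, ss_congr hj⟩
  rw [e, pt_sub hg, pt_congr hg (hj.add_right _), eCovW_pt hg, abs_neg]
  exact hβ

theorem eCov_disjoint (hg : 0 < g) (γ : FG g) (z : TS g) :
    ∃ U ∈ 𝓝 (em γ z), ∀ δ : FG g, ((δ • ·) '' U ∩ U).Nonempty → δ = 1 := by
  rcases ((mem_Pol hg).1 z.2.1).lt_or_eq with h | h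
  · refine eCov_nhds hg (isOpen_lt (continuous_nm g) continuous_const) isOpen_empty
      (fun _ _ => notMem_empty _) 1 (fun w hw j hj => ⟨fun h' => ?_, fun h' => h'.elim⟩) γ z h
    obtain ⟨β, hβ, rfl⟩ := eFib_side hg hw hj
    exact absurd (nm_pt hg hβ.le) (ne_of_lt h')
  obtain ⟨k, a, b, hb, e⟩ := exists_pt hg z
  rw [e, nm_pt hg hb] at h
  subst h
  refine eCov_nhds hg (eCovW_open g k) (eCovW_open g (k + 2 * g)) (fun w h1 h2 => ?_) (ss g k)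
    (fun w hw j hj => ⟨eCovW_glue hg hw hj, fun h' => ?_⟩) γ z ?_
  · simp only [eCovW, mem_ofPred_eq, ze_add_two hg, div_neg, Complex.neg_re, mul_neg] at h1 h2
    linarith [(abs_nonneg _).trans_lt h1, (abs_nonneg _).trans_lt h2]
  · have := eCovW_glue hg hw hj h'
    rw [ss_add_two] at this
    simpa only [eCovW, ze_add_two hg, neg_neg] using this
  · rw [e, eCovW_pt hg]
    exact hb.lt_of_ne fun c => z.2.2 (e ▸ (vtx_iff hg hb).2 ⟨rfl, c⟩)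

theorem eCovSt (hg : 0 < g) (hF : FibSt g) : ECovSt g := by
  have ne : ∀ e, pe g e ≠ vv g := by
    rintro ⟨a⟩ h
    exact a.2.2.2 ((hF.vtx hg a.2.2.1).1 h)
  have := hF.2
  have c : Continuous (pe g) := continuous_quot_lift _
    ((continuous_pr hg).comp (continuous_subtype_val.comp continuous_snd))
  refine ⟨ne, ?_, ⟨fun δ => ?_⟩, ?_, ?_⟩
  · exact IsQuotientMap.of_comp (f := fun w : (fun z : Pol g => pr g z) ⁻¹' {vv g}ᶜ =>
      em 1 ⟨w.1, w.1.2, fun h => w.2 ((hF.vtx hg w.1.2).2 h)⟩)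
      (continuous_quot_mk.comp (by fun_prop)) (c.subtype_mk _)
      ((isQuotientMap_pr g).restrictPreimage_isOpen isOpen_compl_singleton)
  · exact continuous_quot_lift _ (continuous_quot_mk.comp
      ((continuous_of_discreteTopology.comp continuous_fst).prodMk continuous_snd))
  · rintro ⟨γ, z⟩ ⟨γ', z'⟩
    rw [Subtype.mk.injEq]
    refine ⟨fun h => ?_, fun ⟨δ, h⟩ => (congrArg (pe g) h).symm⟩
    rcases (hF.1 _ z.2.1 _ z'.2.1).1 h with e | ⟨k, e⟩ | e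
    · exact ⟨γ * γ'⁻¹, (eFibSt hg _ _ _ _).2 (Or.inl ⟨inv_mul_cancel_right _ _, Subtype.ext e.symm⟩)⟩
    · exact ⟨γ * ss g k * γ'⁻¹,
        ((eFibSt hg _ _ _ _).2 (Or.inr ⟨k, e, inv_mul_cancel_right _ _⟩)).symm⟩
    · exact absurd e.1 z.2.2
  · rintro ⟨γ, z⟩
    exact eCov_disjoint hg γ z

end Pool.Agent.MCG
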