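import Pool.Agent.Lib.MP_c86c76_al.Top.Bas

/-!
The tree of polygons is connected, and maps from it lift through coverings.
-/

set_option autoImplicit false

namespace Pool.Agent.MCG

open Set Topology

variable {g : ℕ}

theorem eLift_star (hg : 0 < g) : StarConvex ℝ (0 : ℂ) (TS g) := by
  intro z hz a b ha hb hab
  rw [smul_zero, zero_add]
  rcases ha.eq_or_lt with rfl | ha
  · have : b = 1 := by linarith
    rw [this, one_smul]; exact hz
  · refine mem_TS_of_lt hg ?_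
    rw [Complex.real_smul, nm_smul hg hb]
    have h1 := (mem_Pol hg).1 hz.1
    nlinarith

theorem eLift_contr (hg : 0 < g) : ContractibleSpace (TS g) :=
  (eLift_star hg).contractibleSpace ⟨0, zero_mem_TS hg⟩

theorem eLift_vtx_finite (hg : 0 < g) : {z | Vtx g z}.Finite := by
  refine ((Set.finite_lt_nat (4 * g)).image fun n : ℕ => pt g n 1 1).subset ?_
  rintro z ⟨k, rfl⟩
  obtain ⟨n, hn, e⟩ := exists_nat_ze hg k
  exact ⟨n, hn, by simp only [pt, e]⟩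

theorem eLift_locPath (hg : 0 < g) : LocallyPathConnectedSpace (TS g) := by
  have := (convex_Pol hg).locallyPathConnectedSpace
  have hs : TS g ⊆ Pol g := fun z hz => hz.1
  refine (IsOpenEmbedding.inclusion hs ?_).locallyPathConnectedSpace
  have e : (Subtype.val ⁻¹' TS g : Set (Pol g)) = Subtype.val ⁻¹' {z | Vtx g z}ᶜ := by
    ext z
    exact ⟨fun h => h.2, fun h => ⟨z.2, h⟩⟩
  rw [e]
  exact (eLift_vtx_finite hg).isClosed.isOpen_compl.preimage continuous_subtype_val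

theorem eLift_side_mem (hg : 0 < g) (k : ℤ) {s : ℝ} (hs : |s| < 1) : pt g k 1 s ∈ TS g :=
  ⟨pt_mem hg k hs.le le_rfl, fun h => hs.ne ((vtx_iff hg hs.le).1 h).2⟩

/-- The midpoint of side `k`. -/
noncomputable def eLift_mid (hg : 0 < g) (k : ℤ) : TS g :=
  ⟨pt g k 1 0, eLift_side_mem hg k (by simp)⟩

theorem eLift_mid_congr (hg : 0 < g) {k j : ℤ} (h : k ≡ j [ZMOD (4 * g : ℕ)]) :
    eLift_mid hg k = eLift_mid hg j := Subtype.ext (pt_congr hg h 1 0)

theorem eLift_mod {k j : ℤ} (n : ℤ) (h : j = k + 4 * g * n) : k ≡ j [ZMOD (4 * g : ℕ)] :=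
  Int.modEq_iff_dvd.2 ⟨n, by push_cast; linarith⟩

theorem eLift_ss_congr {k j : ℤ} (h : k ≡ j [ZMOD (4 * g : ℕ)]) : ss g k = ss g j :=
  xx_congr g ((h.mul_left _).add_right _)

theorem eLift_ss_two (k : ℤ) : ss g (k + 2 * g) = (ss g k)⁻¹ := by
  rw [ss, ss, ← xx_add_two]
  exact (xx_congr g (eLift_mod g (by ring))).symm

theorem eLift_ss_xx (j : ℤ) : ss g ((2 * g + 1) * j + 2 * g) = xx g j :=
  (xx_congr g (eLift_mod ((g + 1) * j + g + 1) (by ring))).symm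

theorem eLift_ind {Q : FG g → Prop} (h1 : Q 1) (h2 : ∀ γ k, Q γ → Q (γ * ss g k)) (γ : FG g) :
    Q γ := by
  have key : ∀ γ : FG g, ∀ δ, Q δ → Q (δ * γ) := by
    intro γ
    induction γ using FreeGroup.induction_on with
    | C1 => intro δ h; rwa [mul_one]
    | of i =>
      intro δ h
      rw [← xx_of, ← eLift_ss_xx]
      exact h2 _ _ h
    | inv_of i _ =>
      intro δ h
      rw [← xx_of, ← eLift_ss_xx, ← eLift_ss_two]
      exact h2 _ _ h
    | mul a b ha hb => intro δ h; rw [← mul_assoc]; exact hb _ (ha _ h)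
  simpa using key γ 1 h1

theorem eLift_continuous_em (γ : FG g) : Continuous (em γ : TS g → EE g) :=
  continuous_quot_mk.comp (continuous_const.prodMk continuous_id)

theorem eLift_em_side (hg : 0 < g) (γ : FG g) (k : ℤ) {s : ℝ} (h : pt g k 1 s ∈ TS g)
    (h' : pt g (k + 2 * g) 1 (-s) ∈ TS g) : em γ ⟨_, h⟩ = em (γ * ss g k) ⟨_, h'⟩ :=
  Quot.sound ⟨k, (pt_sub hg k s).symm, rfl⟩

theorem eLift_em_mid (hg : 0 < g) (γ : FG g) (k : ℤ) :
    em γ (eLift_mid hg k) = em (γ * ss g k) (eLift_mid hg (k + 2 * g)) :=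
  Quot.sound ⟨k, by
    have := pt_sub hg k 0
    rw [neg_zero] at this
    exact this.symm, rfl⟩

theorem eLift_preconn (hg : 0 < g) : PreconnectedSpace (EE g) := by
  have := eLift_contr hg
  have h0 : ∀ γ : FG g, IsPreconnected (range (em γ : TS g → EE g)) := fun γ =>
    isPreconnected_range (eLift_continuous_em γ)
  have h1 : ∀ γ : FG g, range (em γ : TS g → EE g) ⊆ connectedComponent (e0 hg) := by
    refine eLift_ind ((h0 1).subset_connectedComponent ⟨_, rfl⟩) fun γ k h => ?_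
    have h2 := h ⟨eLift_mid hg k, rfl⟩
    rw [connectedComponent_eq h2]
    exact (h0 _).subset_connectedComponent ⟨_, (eLift_em_mid hg γ k).symm⟩
  refine ⟨?_⟩
  have e : (univ : Set (EE g)) = connectedComponent (e0 hg) := by
    refine (eq_univ_of_forall ?_).symm
    rintro ⟨γ, z⟩
    exact h1 γ ⟨z, rfl⟩
  rw [e]
  exact isPreconnected_connectedComponent

section Lift

variable {Y X : Type} [TopologicalSpace Y] [TopologicalSpace X]

/-- Lifts of `f` over one tile. -/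
abbrev eLift_Om (p : Y → X) (f : C(EE g, X)) : Type :=
  {x : FG g × C(TS g, Y) // ∀ z, p (x.2 z) = f (em x.1 z)}

/-- Lifts over adjacent tiles that agree at the midpoint of the common wall. -/
def eLift_Rel (hg : 0 < g) {p : Y → X} {f : C(EE g, X)} (k : ℤ) (a b : eLift_Om p f) : Prop :=
  b.1.1 = a.1.1 * ss g k ∧ b.1.2 (eLift_mid hg (k + 2 * g)) = a.1.2 (eLift_mid hg k)

theorem eLift_exU (hg : 0 < g) {p : Y → X} (hp : IsCoveringMap p) (f : C(EE g, X)) (γ : FG g)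
    (z : TS g) (y : Y) (hy : p y = f (em γ z)) :
    ∃! a : eLift_Om p f, a.1.1 = γ ∧ a.1.2 z = y := by
  have := eLift_contr hg
  have := eLift_locPath hg
  obtain ⟨L, ⟨h1, h2⟩, h3⟩ := hp.existsUnique_continuousMap_lifts
    (f.comp ⟨em γ, eLift_continuous_em γ⟩) z y hy
  refine ⟨⟨(γ, L), fun w => congrFun h2 w⟩, ⟨rfl, h1⟩, ?_⟩
  rintro ⟨⟨δ, L'⟩, h4⟩ ⟨rfl, h5⟩
  exact Subtype.ext (Prod.ext rfl (h3 L' ⟨h5, funext h4⟩))

theorem eLift_rel_exU (hg : 0 < g) {p : Y → X} (hp : IsCoveringMap p) {f : C(EE g, X)} (k : ℤ)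
    (a : eLift_Om p f) : ∃! b, eLift_Rel hg k a b :=
  eLift_exU hg hp f _ _ _ (by rw [a.2, eLift_em_mid])

theorem eLift_rel_congr (hg : 0 < g) {p : Y → X} {f : C(EE g, X)} {k j : ℤ}
    (h : k ≡ j [ZMOD (4 * g : ℕ)]) {a b : eLift_Om p f} (hr : eLift_Rel hg k a b) :
    eLift_Rel hg j a b := by
  unfold eLift_Rel at *
  rwa [← eLift_ss_congr h, ← eLift_mid_congr hg h, ← eLift_mid_congr hg (h.add_right _)]

theorem eLift_rel_symm (hg : 0 < g) {p : Y → X} {f : C(EE g, X)} {k : ℤ} {a b : eLift_Om p f}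
    (hr : eLift_Rel hg k a b) : eLift_Rel hg (k + 2 * g) b a := by
  refine ⟨by rw [hr.1, eLift_ss_two, mul_inv_cancel_right], ?_⟩
  rw [hr.2, eLift_mid_congr hg (eLift_mod (k := k) (j := k + 2 * g + 2 * g) 1 (by ring))]

theorem eLift_perm (hg : 0 < g) {p : Y → X} (hp : IsCoveringMap p) (f : C(EE g, X)) :
    ∃ P : ℤ → Equiv.Perm (eLift_Om p f), (∀ k a, eLift_Rel hg k a (P k a)) ∧
      (∀ k j : ℤ, k ≡ j [ZMOD (4 * g : ℕ)] → P k = P j) ∧ ∀ k, P (k + 2 * g) = (P k)⁻¹ := by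
  choose T h1 h2 using fun (k : ℤ) (a : eLift_Om p f) => eLift_rel_exU hg hp k a
  refine ⟨fun k => ⟨T k, T (k + 2 * g), fun a => (h2 _ _ _ (eLift_rel_symm hg (h1 k a))).symm,
    fun a => (h2 _ _ _ (eLift_rel_congr hg
      (eLift_mod (k := k) (j := k + 2 * g + 2 * g) 1 (by ring)).symm
      (eLift_rel_symm hg (h1 _ a)))).symm⟩, h1, fun k j h => ?_, fun k => ?_⟩
  · exact Equiv.ext fun a => h2 _ _ _ (eLift_rel_congr hg h (h1 k a))
  · exact Equiv.ext fun a => rfl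

theorem eLift_om (hg : 0 < g) {p : Y → X} (hp : IsCoveringMap p) (f : C(EE g, X))
    (a₀ : eLift_Om p f) (h₀ : a₀.1.1 = 1) : ∃ om : FG g → eLift_Om p f, om 1 = a₀ ∧
      (∀ γ, (om γ).1.1 = γ) ∧ ∀ γ k, eLift_Rel hg k (om γ) (om (γ * ss g k)) := by
  obtain ⟨P, h1, h2, h3⟩ := eLift_perm hg hp f
  let θ : FG g →* Equiv.Perm (eLift_Om p f) :=
    FreeGroup.lift fun i : Fin (2 * g) => P ((2 * g + 1) * ((i : ℕ) : ℤ))
  have h4 : ∀ j, θ (xx g j) = P ((2 * g + 1) * j) :=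
    map_xx θ (fun j => P ((2 * g + 1) * j))
      (fun j => by
        rw [← h3]
        exact (h2 _ _ (eLift_mod g (by ring))).symm)
      (fun i => by simp [θ]) hg
  have h5 : ∀ k, θ (ss g k) = (P k)⁻¹ := fun k => by
    rw [ss, h4, ← h3]
    exact (h2 _ _ (eLift_mod ((g + 1) * k + g) (by ring))).symm
  have h6 : ∀ γ k, θ (γ * ss g k)⁻¹ a₀ = P k (θ γ⁻¹ a₀) := fun γ k => by
    rw [mul_inv_rev, map_mul, map_inv θ (ss g k), h5, inv_inv, Equiv.Perm.mul_apply]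
  have h7 : θ 1⁻¹ a₀ = a₀ := by simp
  have h8 : ∀ γ k, eLift_Rel hg k (θ γ⁻¹ a₀) (θ (γ * ss g k)⁻¹ a₀) := fun γ k => by
    rw [h6]
    exact h1 k _
  refine ⟨fun γ => θ γ⁻¹ a₀, h7, ?_, h8⟩
  exact eLift_ind (Q := fun γ => (θ γ⁻¹ a₀).1.1 = γ) ((congrArg (fun a => a.1.1) h7).trans h₀)
    fun γ k h => (h8 γ k).1.trans (congrArg (fun δ => δ * ss g k) h)

theorem eLift_agree (hg : 0 < g) {p : Y → X} (hp : IsCoveringMap p) {f : C(EE g, X)} {k : ℤ}
    {a b : eLift_Om p f} (hr : eLift_Rel hg k a b) {z w : TS g}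
    (h : (w : ℂ) = z - 2 * ze g k) : a.1.2 z = b.1.2 w := by
  obtain ⟨s, hs, e⟩ := (glue_iff (k := k) hg).1 ⟨z.2.1, h ▸ w.2.1⟩
  have hs' : |s| < 1 := hs.lt_of_ne fun h1 => z.2.2 (e ▸ (vtx_iff hg hs).2 ⟨rfl, h1⟩)
  have m1 : ∀ t : Ioo (-1 : ℝ) 1, pt g k 1 t ∈ TS g := fun t =>
    eLift_side_mem hg k (abs_lt.2 t.2)
  have m2 : ∀ t : Ioo (-1 : ℝ) 1, pt g (k + 2 * g) 1 (-t) ∈ TS g := fun t =>
    eLift_side_mem hg _ (by rw [abs_neg]; exact abs_lt.2 t.2)
  have : PreconnectedSpace (Ioo (-1 : ℝ) 1) := Subtype.preconnectedSpace isPreconnected_Ioo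
  have c1 : Continuous fun t : Ioo (-1 : ℝ) 1 => (⟨_, m1 t⟩ : TS g) :=
    ((continuous_pt g k).comp (continuous_const.prodMk continuous_subtype_val)).subtype_mk _
  have c2 : Continuous fun t : Ioo (-1 : ℝ) 1 => (⟨_, m2 t⟩ : TS g) :=
    ((continuous_pt g (k + 2 * g)).comp
      (continuous_const.prodMk continuous_subtype_val.neg)).subtype_mk _
  have key := hp.eq_of_comp_eq (a.1.2.continuous.comp c1) (b.1.2.continuous.comp c2)
    (funext fun t => by
      simp only [Function.comp]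
      rw [a.2, b.2, hr.1, ← eLift_em_side hg])
    ⟨0, by norm_num, by norm_num⟩ (by
      have e2 : (⟨_, m2 ⟨0, by norm_num, by norm_num⟩⟩ : TS g) = eLift_mid hg (k + 2 * g) :=
        Subtype.ext (by simp [eLift_mid])
      simp only [Function.comp]
      rw [e2, hr.2]
      rfl)
  have k2 := congrFun key ⟨s, abs_lt.1 hs'⟩
  have e1 : z = ⟨_, m1 ⟨s, abs_lt.1 hs'⟩⟩ := Subtype.ext e
  have e2 : w = ⟨_, m2 ⟨s, abs_lt.1 hs'⟩⟩ := Subtype.ext (by rw [h, e, pt_sub hg])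
  rw [e1, e2]
  exact k2

end Lift

theorem eLift_hasLifts (hg : 0 < g) : HasLifts (e0 hg) := by
  intro Y X _ _ p hp f y hy
  obtain ⟨a₀, ⟨h0, h1⟩, -⟩ := eLift_exU hg hp f 1 ⟨0, zero_mem_TS hg⟩ y hy
  obtain ⟨om, h2, h3, h4⟩ := eLift_om hg hp f a₀ h0
  refine ⟨⟨Quot.lift (fun a : FG g × TS g => (om a.1).1.2 a.2) ?_, ?_⟩, ?_, ?_⟩
  · rintro a b ⟨k, e1, e2⟩
    rw [e2]
    exact eLift_agree hg hp (h4 a.1 k) e1
  · exact continuous_quot_lift _
      (continuous_prod_of_discrete_left.2 fun γ => (om γ).1.2.continuous)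
  · change (om 1).1.2 _ = y
    rw [h2, h1]
  · funext e
    obtain ⟨γ, z⟩ := e
    change p ((om γ).1.2 z) = f (em γ z)
    rw [(om γ).2, h3]

theorem eLiftSt : ELiftSt g := fun hg => ⟨eLift_hasLifts hg, eLift_preconn hg⟩

end Pool.Agent.MCG
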