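import Pool.Agent.Lib.MP_c86c76_al.Top.Bas

/-!
Isotopies of a compact Hausdorff space.
-/

set_option autoImplicit false

namespace Pool.Agent.MCG

open Set Topology
open scoped unitInterval

section

variable {S : Type} [TopologicalSpace S]

theorem fam_const (f : S ≃ₜ S) : IFam fun _ => f := f.continuous.comp continuous_snd

theorem fam_mul {H H' : I → S ≃ₜ S} (h : IFam H) (h' : IFam H') : IFam fun t => H t * H' t :=
  h.comp (continuous_fst.prodMk h')

theorem fam_inv [CompactSpace S] [T2Space S] {H : I → S ≃ₜ S} (h : IFam H) :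
    IFam fun t => (H t)⁻¹ := by
  let e : I × S ≃ I × S :=
    { toFun := fun p => (p.1, H p.1 p.2)
      invFun := fun p => (p.1, (H p.1).symm p.2)
      left_inv := fun p => by simp
      right_inv := fun p => by simp }
  have he : Continuous e := continuous_fst.prodMk h
  exact continuous_snd.comp (Continuous.homeoOfEquivCompactToT2 he).symm.continuous

theorem fam_isoId (f : S ≃ₜ S) :
    IsoId f ↔ ∃ H : I → S ≃ₜ S, IFam H ∧ H 0 = 1 ∧ H 1 = f := by
  constructor
  · rintro ⟨H, h, h0, h1⟩
    exact ⟨fun t => (h t).homeomorph, H.continuous, Homeomorph.ext h0, Homeomorph.ext h1⟩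
  · rintro ⟨H, h, h0, h1⟩
    exact ⟨⟨fun p => H p.1 p.2, h⟩, fun t => (H t).isHomeomorph,
      fun x => DFunLike.congr_fun h0 x, fun x => DFunLike.congr_fun h1 x⟩

/-- The homeomorphisms that are isotopic to the identity. -/
def famSub (S : Type) [TopologicalSpace S] [CompactSpace S] [T2Space S] : Subgroup (S ≃ₜ S) where
  carrier := {f | IsoId f}
  one_mem' := (fam_isoId 1).2 ⟨fun _ => 1, fam_const 1, rfl, rfl⟩
  mul_mem' := fun {f f'} h h' => by
    obtain ⟨H, h, h0, h1⟩ := (fam_isoId f).1 h
    obtain ⟨H', h', h0', h1'⟩ := (fam_isoId f').1 h'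
    exact (fam_isoId _).2 ⟨fun t => H t * H' t, fam_mul h h', by simp only [h0, h0', mul_one],
      by simp only [h1, h1']⟩
  inv_mem' := fun {f} h => by
    obtain ⟨H, h, h0, h1⟩ := (fam_isoId f).1 h
    exact (fam_isoId _).2 ⟨fun t => (H t)⁻¹, fam_inv h, by simp only [h0, inv_one],
      by simp only [h1]⟩

theorem famSub_normal [CompactSpace S] [T2Space S] : (famSub S).Normal where
  conj_mem f h u := by
    obtain ⟨H, h, h0, h1⟩ := (fam_isoId f).1 h
    exact (fam_isoId _).2 ⟨fun t => u * H t * u⁻¹,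
      fam_mul (fam_mul (fam_const u) h) (fam_const u⁻¹),
      by simp only [h0, mul_one, mul_inv_cancel], by simp only [h1]⟩

end

theorem famSt : FamSt := by
  intro S _ _ _
  refine ⟨fun H h => fam_inv h, fam_isoId, fun f hf => ?_, fun c K hK H H' h h' e => ?_⟩
  · have := famSub_normal (S := S)
    exact Subgroup.normalClosure_le_normal (N := famSub S) subset_rfl hf
  · refine hK (fun t => (H t)⁻¹ * H' t) (fam_mul (fam_inv h) h') fun t => ?_
    rw [Homeomorph.mul_apply, ← e, Homeomorph.inv_apply, Homeomorph.symm_apply_apply]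

end Pool.Agent.MCG
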