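import Pool.Agent.Lib.MP_c86c76_al.Top.Bas

/-!
The fibres of the projection to the surface; the surface is Hausdorff.
-/

set_option autoImplicit false

namespace Pool.Agent.MCG

open Set Topology

noncomputable section

variable {g : ℕ}

/-- The first coordinate in the frame of side `k`. -/
def fibA (g : ℕ) (k : ℤ) (z : ℂ) : ℝ := (z / ze g k).re

/-- The second coordinate in the frame of side `k`. -/
def fibB (g : ℕ) (k : ℤ) (z : ℂ) : ℝ := (z / ze g k).im / tt g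

theorem fibA_pt (g : ℕ) (k : ℤ) (a b : ℝ) : fibA g k (pt g k a b) = a := by
  rw [fibA, pt_div]; simp

theorem fibB_pt (hg : 0 < g) (k : ℤ) (a b : ℝ) : fibB g k (pt g k a b) = b := by
  have := (tt_pos hg).ne'
  rw [fibB, pt_div]; simp [this]

theorem fib_pt (hg : 0 < g) (k : ℤ) (z : ℂ) : pt g k (fibA g k z) (fibB g k z) = z := by
  rw [pt, fibA, fibB, div_mul_cancel₀ _ (tt_pos hg).ne', Complex.re_add_im,
    mul_div_cancel₀ _ (ze_ne g k)]

/-- A bump supported in the double sector of side `k`. -/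
def fibF (g : ℕ) (k : ℤ) (z : ℂ) : ℝ := max 0 (|fibA g k z| - |fibB g k z|)

/-- A continuous invariant that separates the points of the surface. -/
def fibPhi (g : ℕ) (z : ℂ) : ℝ × ℂ × (ℤ → ℝ × ℝ) :=
  (1 - nm g z, (1 - nm g z : ℝ) * z, fun k => (fibF g k z, fibF g k z * fibB g k z))

theorem fib_cont (g : ℕ) : Continuous (fibPhi g) := by
  have := continuous_nm g
  unfold fibPhi fibF fibA fibB
  fun_prop

theorem fibF_pt (hg : 0 < g) (k : ℤ) (a b : ℝ) :
    fibF g k (pt g k a b) = max 0 (|a| - |b|) := by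
  rw [fibF, fibA_pt, fibB_pt hg]

theorem fib_neg (hg : 0 < g) (k : ℤ) (b : ℝ) : pt g k (-1) b = pt g (k + 2 * g) 1 (-b) := by
  rw [pt_add_two hg, neg_neg]

theorem fib_pos (hg : 0 < g) {k : ℤ} {z : ℂ} (hz : nm g z = 1) (h : 0 < fibF g k z) :
    |fibB g k z| < 1 ∧ (z = pt g k 1 (fibB g k z) ∨ z = pt g k (-1) (fibB g k z)) := by
  have h1 : |fibB g k z| < |fibA g k z| := by
    rcases lt_max_iff.1 h with h | h
    · exact absurd h (lt_irrefl _)
    · linarith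
  have e := fib_pt hg k z
  rcases le_total 0 (fibA g k z) with h0 | h0
  · rw [abs_of_nonneg h0] at h1
    have h2 : fibA g k z = 1 := by rw [← hz, ← nm_pt hg (k := k) h1.le, e]
    exact ⟨h2 ▸ h1, Or.inl (by rw [← h2, e])⟩
  · rw [abs_of_nonpos h0] at h1
    have h2 : -fibA g k z = 1 := by
      rw [← hz, ← nm_pt hg (k := k + 2 * g) (a := -fibA g k z) (b := -fibB g k z)
        (by rw [abs_neg]; exact h1.le), pt_add_two hg, neg_neg, neg_neg, e]
    exact ⟨h2 ▸ h1, Or.inr (by rw [← h2, neg_neg, e])⟩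

theorem fib_eq (hg : 0 < g) {k j : ℤ} {b b' : ℝ} (hb : |b| ≤ 1) (hb' : |b'| < 1)
    (e : pt g k 1 b = pt g j 1 b') : pt g k (-1) b = pt g j (-1) b' := by
  rcases (pt_eq_pt hg hb hb'.le one_pos e).2 with ⟨h1, rfl⟩ | ⟨-, -, rfl⟩ | ⟨-, -, rfl⟩
  · exact (pt_congr hg h1 _ _).symm
  · simp at hb'
  · simp at hb'

theorem fib_inv1 (hg : 0 < g) {k j : ℤ} {b : ℝ} (hb : |b| ≤ 1) (h : 0 < fibF g j (pt g k 1 b)) :
    (fibPhi g (pt g k 1 b)).2.2 j = (fibPhi g (pt g k (-1) b)).2.2 j := by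
  obtain ⟨h1, h2⟩ := fib_pos hg (nm_pt hg hb) h
  generalize fibB g j (pt g k 1 b) = b' at h1 h2
  rcases h2 with h2 | h2
  · rw [fib_eq hg hb h1 h2, h2]
    simp only [fibPhi, fibF_pt hg, fibB_pt hg, abs_neg]
  · have h3 := fib_eq hg hb (b' := -b') (by rwa [abs_neg]) (h2.trans (fib_neg hg j b'))
    rw [pt_add_two hg, neg_neg, neg_neg] at h3
    rw [h3, h2]
    simp only [fibPhi, fibF_pt hg, fibB_pt hg, abs_neg]

theorem fib_inv (hg : 0 < g) (z : ℂ) (k : ℤ) (hz : z ∈ Pol g) (hw : z - 2 * ze g k ∈ Pol g) :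
    fibPhi g z = fibPhi g (z - 2 * ze g k) := by
  obtain ⟨b, hb, rfl⟩ := (glue_iff hg).1 ⟨hz, hw⟩
  have hb' : |-b| ≤ 1 := by rwa [abs_neg]
  rw [pt_sub hg]
  refine Prod.ext ?_ (Prod.ext ?_ (funext fun j => ?_))
  · simp only [fibPhi, nm_pt hg hb, nm_pt hg hb']
  · simp [fibPhi, nm_pt hg hb, nm_pt hg hb']
  · by_cases h1 : 0 < fibF g j (pt g k 1 b)
    · rw [fib_inv1 hg hb h1, fib_neg hg]
    by_cases h2 : 0 < fibF g j (pt g (k + 2 * g) 1 (-b))
    · rw [fib_inv1 hg hb' h2, pt_add_two hg, neg_neg, neg_neg]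
    have h3 : fibF g j (pt g k 1 b) = 0 := le_antisymm (not_lt.1 h1) (le_max_left _ _)
    have h4 : fibF g j (pt g (k + 2 * g) 1 (-b)) = 0 :=
      le_antisymm (not_lt.1 h2) (le_max_left _ _)
    simp only [fibPhi, h3, h4, zero_mul]

theorem fib_nv (hg : 0 < g) {z : ℂ} (hz : nm g z = 1) (h : ¬ Vtx g z) :
    ∃ k, 0 < fibF g k z := by
  obtain ⟨k, a, b, hb, rfl⟩ := exists_pt hg z
  rw [nm_pt hg hb] at hz
  subst hz
  refine ⟨k, ?_⟩
  rw [fibF_pt hg, abs_one]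
  exact lt_max_of_lt_right (sub_pos.2 (hb.lt_of_ne fun e => h ((vtx_iff hg hb).2 ⟨rfl, e⟩)))

theorem fib_sep (hg : 0 < g) {z w : ℂ} (e : fibPhi g z = fibPhi g w) :
    z = w ∨ (∃ k : ℤ, w = z - 2 * ze g k) ∨ (Vtx g z ∧ Vtx g w) := by
  have e1 : 1 - nm g z = 1 - nm g w := congrArg (·.1) e
  have e2 : ((1 - nm g z : ℝ) : ℂ) * z = (1 - nm g w : ℝ) * w := congrArg (·.2.1) e
  have e3 : ∀ k, fibF g k z = fibF g k w := fun k => congrArg (fun p => (p.2.2 k).1) e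
  have e4 : ∀ k, fibF g k z * fibB g k z = fibF g k w * fibB g k w :=
    fun k => congrArg (fun p => (p.2.2 k).2) e
  by_cases hz : nm g z = 1
  swap
  · rw [← e1] at e2
    exact Or.inl (mul_left_cancel₀ (by exact_mod_cast sub_ne_zero.2 (Ne.symm hz)) e2)
  have hw : nm g w = 1 := by linarith
  by_cases hv : Vtx g z ∧ Vtx g w
  · exact Or.inr (Or.inr hv)
  obtain ⟨k, hk⟩ : ∃ k, 0 < fibF g k z := by
    rcases not_and_or.1 hv with h | h
    · exact fib_nv hg hz h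
    · simpa only [e3] using fib_nv hg hw h
  have e5 : fibB g k w = fibB g k z := by
    have := e4 k
    rw [← e3] at this
    exact (mul_left_cancel₀ hk.ne' this).symm
  have h1 := (fib_pos hg hz hk).2
  have h2 := (fib_pos hg hw (e3 k ▸ hk)).2
  rw [e5] at h2
  generalize fibB g k z = b at h1 h2
  rcases h1 with rfl | rfl <;> rcases h2 with rfl | rfl
  · exact Or.inl rfl
  · exact Or.inr (Or.inl ⟨k, by rw [pt_sub hg, fib_neg hg]⟩)
  · exact Or.inr (Or.inl ⟨k + 2 * g, by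
      rw [fib_neg hg, pt_sub hg, pt_add_two hg, pt_add_two hg]; simp only [neg_neg]⟩)
  · exact Or.inl rfl

theorem fib_vtx (hg : 0 < g) (k : ℤ) : pr g (pt g k 1 1) = vv g := by
  have h1 : Function.Periodic (fun k : ℤ => pr g (pt g k 1 1)) (2 * g - 1) := fun k => by
    simp only
    rw [pr_side hg k (b := 1) (by simp), ← pt_diag hg]
    congr 2; ring
  have h2 : Function.Periodic (fun k : ℤ => pr g (pt g k 1 1)) 1 := fun k => by
    have := h1.int_mul (2 * g - 1) k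
    simp only at this ⊢
    rw [← this]
    congr 1
    refine pt_congr hg (Int.modEq_iff_dvd.2 ⟨g - 1, ?_⟩) _ _
    push_cast; ring
  have := h2.int_mul k 0
  simpa [vv] using this

theorem fib_of (hg : 0 < g) {z w : ℂ} (hz : z ∈ Pol g) (hw : w ∈ Pol g)
    (h : z = w ∨ (∃ k : ℤ, w = z - 2 * ze g k) ∨ (Vtx g z ∧ Vtx g w)) : pr g z = pr g w := by
  rcases h with rfl | ⟨k, rfl⟩ | ⟨⟨k, rfl⟩, ⟨j, rfl⟩⟩
  · rfl
  · exact pr_glue hz hw
  · rw [fib_vtx hg, fib_vtx hg]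

theorem fibSt (hg : 0 < g) : FibSt g := by
  refine ⟨fun z hz w hw => ⟨fun e => fib_sep hg ?_, fib_of hg hz hw⟩, ?_⟩
  · rw [← desc_pr _ (fib_inv hg) hz, e, desc_pr _ (fib_inv hg) hw]
  · refine T2Space.of_injective_continuous (f := desc (fibPhi g) (fib_inv hg)) (fun x y e => ?_)
      (continuous_of_pr ((fib_cont g).continuousOn.congr fun z hz => desc_pr _ _ hz))
    obtain ⟨z, hz, rfl⟩ := pr_surj x
    obtain ⟨w, hw, rfl⟩ := pr_surj y
    rw [desc_pr _ _ hz, desc_pr _ _ hw] at e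
    exact fib_of hg hz hw (fib_sep hg e)

end

end Pool.Agent.MCG
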