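import Pool.Agent.Lib.MP_c86c76_al.Top.St

/-!
The boundary word is not conjugate to a proper power of itself: the Heisenberg quotient.
-/

set_option autoImplicit false

namespace Pool.Agent.MCG

variable {g : ℕ}

/-- The integral Heisenberg group. -/
@[ext] structure HeisG where
  a : ℤ
  b : ℤ
  c : ℤ

instance heisMul : Mul HeisG := ⟨fun x y => ⟨x.a + y.a, x.b + y.b, x.c + y.c + x.a * y.b⟩⟩

instance heisOne : One HeisG := ⟨⟨0, 0, 0⟩⟩

instance heisInv : Inv HeisG := ⟨fun x => ⟨-x.a, -x.b, x.a * x.b - x.c⟩⟩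

theorem heis_mul (x y : HeisG) : x * y = ⟨x.a + y.a, x.b + y.b, x.c + y.c + x.a * y.b⟩ := rfl

theorem heis_one : (1 : HeisG) = ⟨0, 0, 0⟩ := rfl

theorem heis_inv (x : HeisG) : x⁻¹ = ⟨-x.a, -x.b, x.a * x.b - x.c⟩ := rfl

instance heisGroup : Group HeisG :=
  Group.ofLeftAxioms (fun x y z => by simp only [heis_mul]; ext <;> ring)
    (fun x => by simp [heis_mul, heis_one]) fun x => by simp [heis_mul, heis_one, heis_inv]

/-- The centre. -/
def heisZ : Multiplicative ℤ →* HeisG :=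
  MonoidHom.mk' (fun k => ⟨0, 0, k.toAdd⟩) fun k l => by simp [heis_mul]

/-- The map of the free group to the Heisenberg group. -/
def heisEta (g : ℕ) : FG g →* HeisG :=
  FreeGroup.lift fun i => if (i : ℕ) = 0 then ⟨1, 0, 0⟩ else if (i : ℕ) = 1 then ⟨0, 1, 0⟩ else 1

theorem heis_xx {i : ℕ} (hi : i < 2 * g) : heisEta g (xx g i) =
    if i = 0 then ⟨1, 0, 0⟩ else if i = 1 then ⟨0, 1, 0⟩ else 1 := by
  rw [xx_of g ⟨i, hi⟩, heisEta, FreeGroup.lift_apply_of]

theorem heis_xw (n : ℕ) (hn : n + 2 ≤ 2 * g) :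
    heisEta g (xw g 0 (n + 2)) = ⟨1, 1, 1⟩ ∧ heisEta g (xw g (2 * g) (n + 2)) = ⟨-1, -1, 1⟩ := by
  induction n with
  | zero =>
    simp only [xw_succ, xw_zero, map_mul, one_mul, zero_add, add_comm (2 * g : ℤ), xx_add_two,
      map_inv, heis_xx (show 0 < 2 * g by omega), heis_xx (show 1 < 2 * g by omega)]
    exact ⟨rfl, rfl⟩
  | succ n ih =>
    rw [add_right_comm, xw_succ, xw_succ _ _ (n + 2), map_mul, map_mul, (ih (by omega)).1,
      (ih (by omega)).2, zero_add, add_comm (2 * g : ℤ), xx_add_two, map_inv, heis_xx (by omega),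
      if_neg (by omega), if_neg (by omega)]
    exact ⟨rfl, rfl⟩

theorem heis_rr (hg : 0 < g) : heisEta g (rr g) = heisZ (Multiplicative.ofAdd 1) := by
  obtain ⟨n, hn⟩ : ∃ n, 2 * g = n + 2 := ⟨2 * g - 2, by omega⟩
  have h := heis_xw (g := g) n hn.ge
  rw [rr, show 4 * g = n + 2 + (n + 2) by omega, xw_add, map_mul, h.1, zero_add,
    show ((n + 2 : ℕ) : ℤ) = 2 * g by omega, h.2]
  rfl

theorem heis_zpow {G : Type} [Group G] {a b : G} (h : IsConj a b) (m : ℤ) :
    IsConj (a ^ m) (b ^ m) := by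
  obtain ⟨c, rfl⟩ := isConj_iff.1 h
  exact isConj_iff.2 ⟨c, conj_zpow.symm⟩

theorem heisSt (hg : 0 < g) : HeisSt g := by
  intro φ n m h1 h2
  have h3 := (φ : FG g →* FG g).map_isConj h2
  rw [map_zpow, MonoidHom.coe_coe, MulAut.apply_inv_self] at h3
  obtain ⟨c, hc⟩ := isConj_iff.1 ((heisEta g).map_isConj (h3.trans (heis_zpow h1 m)))
  rw [← zpow_mul, map_zpow, heis_rr hg, ← map_zpow] at hc
  have h4 := congrArg HeisG.c hc
  simp only [heisZ, MonoidHom.mk'_apply, heis_mul, heis_inv, toAdd_zpow, toAdd_ofAdd,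
    smul_eq_mul] at h4
  exact Int.eq_one_or_neg_one_of_mul_eq_one (v := m) (by linarith)

end Pool.Agent.MCG
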