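import Pool.Agent.Lib.MP_c86c76_al.Top.St

/-!
Automorphisms of the covering group induced by homeomorphisms that fix the puncture.
-/

set_option autoImplicit false

namespace Pool.Agent.MCG

open Set Topology
open scoped unitInterval

variable {G E S : Type} [Group G] [MulAction G E] [TopologicalSpace E] [TopologicalSpace S]
  {q : E → S} {c : S}

namespace Cov

theorem continuous (h : Cov G q c) : Continuous q :=
  continuous_subtype_val.comp h.cov.continuous

theorem smul (h : Cov G q c) (γ : G) (e : E) : q (γ • e) = q e :=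
  congrArg Subtype.val (h.cov.map_smul γ (e := e))

theorem continuous_smul (h : Cov G q c) (γ : G) : Continuous fun e : E => γ • e :=
  h.cov.toContinuousConstSMul.continuous_const_smul γ

theorem exists_smul (h : Cov G q c) {e e' : E} (he : q e = q e') : ∃ γ : G, γ • e' = e :=
  h.cov.apply_eq_iff_mem_orbit.1 (Subtype.ext he)

theorem cancel (h : Cov G q c) {γ γ' : G} {e : E} (he : γ • e = γ' • e) : γ = γ' :=
  h.cov.isCancelSMul.right_cancel _ _ e he

theorem surj (h : Cov G q c) {x : S} (hx : x ≠ c) : ∃ e, q e = x := by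
  obtain ⟨e, he⟩ := h.cov.surjective ⟨x, hx⟩
  exact ⟨e, congrArg Subtype.val he⟩

/-- Uniqueness of lifts. -/
theorem eq_of_eq (h : Cov G q c) {A : Type*} [TopologicalSpace A] [PreconnectedSpace A]
    {a b : A → E} (ha : Continuous a) (hb : Continuous b) (e : ∀ x, q (a x) = q (b x)) (x : A)
    (hx : a x = b x) : a = b :=
  h.cov.isCoveringMap.eq_of_comp_eq ha hb (funext fun x => Subtype.ext (e x)) x hx

theorem eqOn_of_eq (h : Cov G q c) {A : Type*} [TopologicalSpace A] {s : Set A}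
    (hs : IsPreconnected s) {a b : A → E} (ha : ContinuousOn a s) (hb : ContinuousOn b s)
    (e : ∀ x ∈ s, q (a x) = q (b x)) {x : A} (hx : x ∈ s) (hx' : a x = b x) : EqOn a b s :=
  h.cov.isCoveringMap.eqOn_of_comp_eqOn hs ha hb (fun x hx => Subtype.ext (e x hx)) hx hx'

/-- Lifts of maps from a simply connected space. -/
theorem exists_lift (h : Cov G q c) {A : Type*} [TopologicalSpace A] [SimplyConnectedSpace A]
    [LocallyPathConnectedSpace A] {f : A → S} (hf : Continuous f) (hc : ∀ a, f a ≠ c) (a : A)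
    (e : E) (he : q e = f a) : ∃ F : A → E, Continuous F ∧ F a = e ∧ ∀ x, q (F x) = f x := by
  obtain ⟨F, ⟨h1, h2⟩, -⟩ := h.cov.isCoveringMap.existsUnique_continuousMap_lifts
    ⟨fun x => ⟨f x, hc x⟩, hf.subtype_mk _⟩ a e (Subtype.ext he)
  exact ⟨F, F.continuous, h1, fun x => congrArg Subtype.val (congrFun h2 x)⟩

/-- Transport along a homeomorphism of the base. -/
theorem comp (h : Cov G q c) {S' : Type} [TopologicalSpace S'] (D : S ≃ₜ S') :
    Cov G (D ∘ q) (D c) :=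
  ⟨fun e he => h.ne e (D.injective he),
    h.cov.homeomorph_comp (D.subtype (p := fun x => x ≠ c) (q := fun x => x ≠ D c)
      fun _ => D.injective.ne_iff.symm)⟩

variable [PreconnectedSpace E]

theorem exists_hom (h : Cov G q c) {e₀ : E} (hl : HasLifts e₀) (f : S ≃ₜ S) (hf : f c = c)
    (y : E) (hy : q y = f (q e₀)) : ∃ (F : C(E, E)) (φ : G →* G), F e₀ = y ∧
      (∀ e, q (F e) = f (q e)) ∧ ∀ (γ : G) (e : E), F (γ • e) = φ γ • F e := by
  have hne : ∀ e, f (q e) ≠ c := fun e he => h.ne e (f.injective (he.trans hf.symm))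
  obtain ⟨F, h1, h2⟩ := hl E {x // x ≠ c} _ h.cov.isCoveringMap
    ⟨fun e => ⟨f (q e), hne e⟩, (f.continuous.comp h.continuous).subtype_mk _⟩ y (Subtype.ext hy)
  have h3 : ∀ e, q (F e) = f (q e) := fun e => congrArg Subtype.val (congrFun h2 e)
  have h4 : ∀ γ : G, ∃ δ : G, ∀ e, F (γ • e) = δ • F e := fun γ => by
    obtain ⟨δ, hδ⟩ := h.exists_smul (e := F (γ • e₀)) (e' := F e₀) (by rw [h3, h3, h.smul])
    exact ⟨δ, congrFun (h.eq_of_eq (F.continuous.comp (h.continuous_smul γ))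
      ((h.continuous_smul δ).comp F.continuous)
      (fun e => by simp only [h3, h.smul]) e₀ hδ.symm)⟩
  choose φ hφ using h4
  exact ⟨F, MonoidHom.mk' φ fun a b => h.cancel (e := F e₀) (by
    rw [← hφ, mul_smul, hφ, hφ, mul_smul]), h1, h3, hφ⟩

theorem comp_eq_conj (h : Cov G q c) (e₀ : E) {F : E → E} (hF : Continuous F)
    (h1 : ∀ e, q (F e) = q e) {φ : G → G} (h2 : ∀ (γ : G) (e : E), F (γ • e) = φ γ • F e) :
    ∃ w : G, ∀ γ, φ γ = w * γ * w⁻¹ := by
  obtain ⟨w, hw⟩ := h.exists_smul (h1 e₀)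
  have e := congrFun (h.eq_of_eq hF (h.continuous_smul w)
    (fun e => by rw [h1, h.smul]) e₀ hw.symm)
  refine ⟨w, fun γ => h.cancel (e := w • e₀) ?_⟩
  rw [← e e₀, ← h2, e, e, smul_smul, smul_smul, inv_mul_cancel_right]

/-- Every homeomorphism that fixes the puncture has a lift with a prescribed value. -/
theorem exists_ind (h : Cov G q c) {e₀ : E} (hl : HasLifts e₀) (f : S ≃ₜ S) (hf : f c = c)
    (y : E) (hy : q y = f (q e₀)) : ∃ (F : C(E, E)) (φ : MulAut G), F e₀ = y ∧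
      (∀ e, q (F e) = f (q e)) ∧ ∀ (γ : G) (e : E), F (γ • e) = φ γ • F e := by
  obtain ⟨F, φ, h1, h2, h3⟩ := h.exists_hom hl f hf y hy
  have hf' : f.symm c = c := f.symm_apply_eq.2 hf.symm
  obtain ⟨y', hy'⟩ := h.surj (x := f.symm (q e₀))
    fun he => h.ne e₀ (by rw [← hf, ← he, f.apply_symm_apply])
  obtain ⟨F', ψ, -, h2', h3'⟩ := h.exists_hom hl f.symm hf' y' hy'
  obtain ⟨w, hw⟩ := h.comp_eq_conj e₀ (F'.continuous.comp F.continuous)
    (fun e => by simp [h2, h2']) (φ := fun γ => ψ (φ γ)) fun γ e => by simp [h3, h3']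
  obtain ⟨w', hw'⟩ := h.comp_eq_conj e₀ (F.continuous.comp F'.continuous)
    (fun e => by simp [h2, h2']) (φ := fun γ => φ (ψ γ)) fun γ e => by simp [h3, h3']
  refine ⟨F, MulEquiv.ofBijective φ ⟨fun a b e => ?_, fun a => ⟨ψ (w'⁻¹ * a * w'), ?_⟩⟩,
    h1, h2, h3⟩
  · have := congrArg ψ e
    rw [hw, hw] at this
    simpa using this
  · rw [hw']; group

theorem exists_ind' (h : Cov G q c) {e₀ : E} (hl : HasLifts e₀) (f : S ≃ₜ S) (hf : f c = c) :
    ∃ φ : MulAut G, Ind q f φ := by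
  obtain ⟨y, hy⟩ := h.surj (x := f (q e₀)) fun he => h.ne e₀ (f.injective (he.trans hf.symm))
  obtain ⟨F, φ, -, h2, h3⟩ := h.exists_ind hl f hf y hy
  exact ⟨φ, F, h2, h3⟩

theorem ind_unique (h : Cov G q c) (e₀ : E) {f : S ≃ₜ S} {φ ψ : MulAut G} (h1 : Ind q f φ)
    (h2 : Ind q f ψ) : ∃ w : G, ψ = MulAut.conj w * φ := by
  obtain ⟨F, a1, a2⟩ := h1
  obtain ⟨F', b1, b2⟩ := h2
  obtain ⟨w, hw⟩ := h.exists_smul (e := F' e₀) (e' := F e₀) (by rw [a1, b1])
  have e := congrFun (h.eq_of_eq F'.continuous ((h.continuous_smul w).comp F.continuous)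
    (fun e => by simp only [Function.comp, h.smul, a1, b1]) e₀ hw.symm)
  refine ⟨w, MulEquiv.ext fun γ => h.cancel (e := F' e₀) ?_⟩
  rw [← b2, e, e]
  simp [a2, smul_smul]

end Cov

theorem ind_one : Ind q 1 (1 : MulAut G) := ⟨ContinuousMap.id E, fun _ => rfl, fun _ _ => rfl⟩

theorem Ind.mul {f f' : S ≃ₜ S} {φ ψ : MulAut G} (h1 : Ind q f φ) (h2 : Ind q f' ψ) :
    Ind q (f * f') (φ * ψ) := by
  obtain ⟨F, a1, a2⟩ := h1
  obtain ⟨F', b1, b2⟩ := h2
  exact ⟨F.comp F', fun e => by simp [a1, b1], fun γ e => by simp [a2, b2]⟩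

theorem Cov.ind_conj (h : Cov G q c) {f : S ≃ₜ S} {φ : MulAut G} (h1 : Ind q f φ) (w : G) :
    Ind q f (MulAut.conj w * φ) := by
  obtain ⟨F, a1, a2⟩ := h1
  exact ⟨⟨fun e => w • F e, (h.continuous_smul w).comp F.continuous⟩,
    fun e => by simp [h.smul, a1], fun γ e => by simp [a2, smul_smul]⟩

theorem Cov.ind_inv [PreconnectedSpace E] (h : Cov G q c) {e₀ : E} (hl : HasLifts e₀)
    {f : S ≃ₜ S} (hf : f c = c) {φ : MulAut G} (h1 : Ind q f φ) : Ind q f⁻¹ φ⁻¹ := by
  obtain ⟨ψ, h2⟩ := h.exists_ind' hl f⁻¹ (f.symm_apply_eq.2 hf.symm)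
  have h3 := h2.mul h1
  rw [inv_mul_cancel] at h3
  obtain ⟨w, hw⟩ := h.ind_unique e₀ h3 ind_one
  have : φ⁻¹ = MulAut.conj w * ψ := by
    rw [inv_eq_iff_mul_eq_one, mul_eq_one_comm, mul_assoc, ← hw]
  rw [this]
  exact h.ind_conj h2 w

/-- Isotopies that fix the puncture do not change the induced automorphism. -/
theorem Cov.ind_isotopy (h : Cov G q c) {H : I → S ≃ₜ S} (hH : IFam H) (hc : ∀ t, H t c = c)
    {φ : MulAut G} (h1 : Ind q (H 0) φ) : Ind q (H 1) φ := by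
  obtain ⟨F, a1, a2⟩ := h1
  have hne : ∀ t e, H t (q e) ≠ c := fun t e he => h.ne e ((H t).injective (he.trans (hc t).symm))
  let K : C(I × E, {x // x ≠ c}) := ⟨fun p => ⟨H p.1 (q p.2), hne _ _⟩,
    (hH.comp (continuous_fst.prodMk (h.continuous.comp continuous_snd))).subtype_mk _⟩
  have K0 : ∀ e, K (0, e) = ⟨q (F e), h.ne _⟩ := fun e => Subtype.ext (a1 e).symm
  let L := h.cov.isCoveringMap.liftHomotopy K F K0
  have b1 : ∀ p, q (L p) = H p.1 (q p.2) := fun p =>
    congrArg Subtype.val (congrFun (h.cov.isCoveringMap.liftHomotopy_lifts K F K0) p)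
  have b0 : ∀ e, L (0, e) = F e := h.cov.isCoveringMap.liftHomotopy_zero K F K0
  refine ⟨⟨fun e => L (1, e), by fun_prop⟩, fun e => b1 (1, e), fun γ e => ?_⟩
  exact congrFun (h.eq_of_eq (a := fun t : I => L (t, γ • e)) (b := fun t : I => φ γ • L (t, e))
    (by fun_prop) ((h.continuous_smul _).comp (by fun_prop))
    (fun t => by rw [h.smul, b1, b1, h.smul]) 0 (by simp only [b0, a2])) 1

theorem ind_comp_iff {S' : Type} [TopologicalSpace S'] (D : S ≃ₜ S') (f : S' ≃ₜ S')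
    (φ : MulAut G) : Ind (D ∘ q) f φ ↔ Ind q (D.trans (f.trans D.symm)) φ :=
  exists_congr fun _ => and_congr_left fun _ => forall_congr' fun _ => D.eq_symm_apply.symm

end Pool.Agent.MCG
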