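import Pool.Agent.Lib.MP_c86c76_al.Top.Bas
import Pool.Agent.Lib.MP_c86c76_al.Top.Lift

/-!
A homeomorphism that fixes the vertex sends the boundary word to a conjugate of a power of it.
-/

set_option autoImplicit false

namespace Pool.Agent.MCG

open Set Topology Complex

variable {g : ℕ}

/-- The open kite around the vertex `j`. -/
def perKt (g : ℕ) (j : ℤ) : Set ℂ :=
  {z | ∃ a b : ℝ, 0 < b ∧ b ≤ a ∧ (z = pt g j a b ∨ z = pt g (j + 1) a (-b))}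

theorem per_refl (hg : 0 < g) (j : ℤ) (a b : ℝ) : pt g (j + 1) a (-b) =
    pt g j ((a * (1 - tt g ^ 2) + 2 * b * tt g ^ 2) / (1 + tt g ^ 2))
      ((2 * a - b * (1 - tt g ^ 2)) / (1 + tt g ^ 2)) := by
  have h := pt_diag hg j 1
  have h0 : (1 + tt g ^ 2 : ℝ) ≠ 0 := by positivity
  have h1 : (1 + (tt g : ℂ) ^ 2) ≠ 0 := by exact_mod_cast h0
  simp only [pt] at h ⊢
  push_cast at h ⊢
  field_simp
  linear_combination (1 + tt g * I) * (a - b * tt g * I) * h +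
    (ze g (j + 1) * (tt g) ^ 2 * (a - b * tt g * I) +
      ze g j * (a * (tt g) ^ 2 - 2 * b * (tt g) ^ 2 - b * (tt g) ^ 3 * I)) * I_sq

theorem per_coord (hg : 0 < g) (j : ℤ) (z : ℂ) :
    z = pt g j (z / ze g j).re ((z / ze g j).im / tt g) := by
  rw [pt, div_mul_cancel₀ _ (tt_pos hg).ne', re_add_im, mul_div_cancel₀ _ (ze_ne g j)]

theorem per_isOpen (hg : 0 < g) (j : ℤ) : IsOpen (perKt g j) := by
  have ht := tt_pos hg
  have h0 : (0 : ℝ) < 1 + tt g ^ 2 := by positivity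
  have key : ∀ A B : ℝ, pt g j A B ∈ perKt g j ↔ 0 < B ∧ 0 < 2 * A - B * (1 - tt g ^ 2) := by
    intro A B
    constructor
    · rintro ⟨a, b, h1, h2, h | h⟩
      · obtain ⟨rfl, rfl⟩ := pt_inj hg h
        exact ⟨h1, by nlinarith [mul_pos h1 (pow_pos ht 2)]⟩
      · rw [per_refl hg] at h
        obtain ⟨rfl, rfl⟩ := pt_inj hg h
        refine ⟨div_pos (by nlinarith [mul_pos h1 (pow_pos ht 2)]) h0, ?_⟩
        have : 2 * ((a * (1 - tt g ^ 2) + 2 * b * tt g ^ 2) / (1 + tt g ^ 2)) -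
            (2 * a - b * (1 - tt g ^ 2)) / (1 + tt g ^ 2) * (1 - tt g ^ 2) =
            b * (1 + tt g ^ 2) := by field_simp; ring
        rw [this]
        positivity
    · rintro ⟨h1, h2⟩
      rcases le_total B A with h | h
      · exact ⟨A, B, h1, h, Or.inl rfl⟩
      · refine ⟨(A * (1 - tt g ^ 2) + 2 * B * tt g ^ 2) / (1 + tt g ^ 2),
          (2 * A - B * (1 - tt g ^ 2)) / (1 + tt g ^ 2), div_pos h2 h0,
          div_le_div_of_nonneg_right (by nlinarith [mul_le_mul_of_nonneg_right h h0.le]) h0.le,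
          Or.inr ?_⟩
        rw [per_refl hg]
        congr 1 <;> field_simp <;> ring
  have : perKt g j = {z | 0 < (z / ze g j).im / tt g} ∩
      {z | 0 < 2 * (z / ze g j).re - (z / ze g j).im / tt g * (1 - tt g ^ 2)} := by
    ext z
    conv_lhs => rw [per_coord hg j z]
    exact key _ _
  rw [this]
  exact (isOpen_lt continuous_const (by fun_prop)).inter (isOpen_lt continuous_const (by fun_prop))

theorem per_mem (hg : 0 < g) {j k : ℤ} {a b : ℝ} (h : |b| ≤ a) (hm : pt g k a b ∈ perKt g j) :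
    (0 < b ∧ j ≡ k [ZMOD (4 * g : ℕ)]) ∨ (b < 0 ∧ j ≡ k - 1 [ZMOD (4 * g : ℕ)]) := by
  obtain ⟨a', b', h1, h2, e | e⟩ := hm
  · obtain ⟨rfl, i⟩ := pt_eq_pt hg (by rwa [abs_of_pos h1]) h (h1.trans_le h2) e.symm
    rcases i with ⟨i, rfl⟩ | ⟨i, rfl, rfl⟩ | ⟨-, i, -⟩
    · exact Or.inl ⟨h1, i.symm⟩
    · exact Or.inr ⟨by linarith, by simpa using (i.sub_right 1).symm⟩
    · linarith
  · obtain ⟨rfl, i⟩ := pt_eq_pt hg (by rwa [abs_neg, abs_of_pos h1]) h (h1.trans_le h2) e.symm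
    rcases i with ⟨i, rfl⟩ | ⟨-, i, -⟩ | ⟨i, -, rfl⟩
    · exact Or.inr ⟨by linarith, by simpa using (i.sub_right 1).symm⟩
    · linarith
    · exact Or.inl ⟨by linarith, by simpa using i.symm⟩

theorem per_unique (hg : 0 < g) {j j' : ℤ} {z : ℂ} (h : z ∈ perKt g j) (h' : z ∈ perKt g j') :
    j ≡ j' [ZMOD (4 * g : ℕ)] := by
  obtain ⟨k, a, b, hb, rfl⟩ := exists_pt hg z
  rcases per_mem hg hb h with ⟨i1, i2⟩ | ⟨i1, i2⟩ <;>
    rcases per_mem hg hb h' with ⟨i3, i4⟩ | ⟨i3, i4⟩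
  · exact i2.trans i4.symm
  · linarith
  · linarith
  · exact i2.trans i4.symm

theorem per_xw_four (g n : ℕ) : xw g 0 (4 * g + n) = rr g * xw g 0 n := by
  rw [xw_add, rr]
  congr 1
  induction n with
  | zero => rfl
  | succ n ih =>
    rw [xw_succ, xw_succ, ih, ← xx_add_four g (0 + n)]
    congr 2
    push_cast
    ring

/-- The cusp label. -/
def perLab (g : ℕ) (γ : FG g) (n : ℕ) : FG g ⧸ Subgroup.zpowers (rr g) :=
  QuotientGroup.mk (γ * (xw g 0 n)⁻¹)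

theorem perLab_add (γ : FG g) (n m : ℕ) : perLab g γ (n + 4 * g * m) = perLab g γ n := by
  induction m with
  | zero => rfl
  | succ m ih =>
    rw [← ih, show n + 4 * g * (m + 1) = 4 * g + (n + 4 * g * m) by ring, perLab, perLab,
      per_xw_four, QuotientGroup.eq]
    simp

theorem perLab_congr (γ : FG g) {n m : ℕ} (h : (n : ℤ) ≡ m [ZMOD (4 * g : ℕ)]) :
    perLab g γ n = perLab g γ m := by
  have h' : n ≡ m [MOD 4 * g] := Int.natCast_modEq_iff.1 h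
  rw [← Nat.mod_add_div n (4 * g), ← Nat.mod_add_div m (4 * g), perLab_add, perLab_add, h']

theorem perLab_succ (γ : FG g) (n : ℕ) : perLab g (γ * xx g n) (n + 1) = perLab g γ n := by
  rw [perLab, perLab, xw_succ, zero_add]
  congr 1
  group

/-- The pieces of the tiles with a given cusp label. -/
def perW (g : ℕ) (c : FG g ⧸ Subgroup.zpowers (rr g)) : Set (FG g × TS g) :=
  {p | ∃ (j : ℤ) (n : ℕ), (p.2 : ℂ) ∈ perKt g j ∧ (n : ℤ) ≡ (2 * g + 1) * j + 1 [ZMOD (4 * g : ℕ)] ∧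
    c = perLab g p.1 n}

theorem per_mod (g : ℕ) {a b : ℤ} (k : ℤ) (h : b - a = 4 * g * k) :
    a ≡ b [ZMOD (4 * g : ℕ)] := Int.modEq_iff_dvd.2 ⟨k, by push_cast; exact h⟩

theorem perW_sat (hg : 0 < g) {c : FG g ⧸ Subgroup.zpowers (rr g)} {γ : FG g} {z z' : TS g}
    {k : ℤ} (e : (z' : ℂ) = z - 2 * ze g k) (h : (γ, z) ∈ perW g c) :
    (γ * ss g k, z') ∈ perW g c := by
  obtain ⟨j, n, h1, h2, rfl⟩ := h
  obtain ⟨b, hb, e1⟩ := (glue_iff hg).1 ⟨z.2.1, e ▸ z'.2.1⟩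
  have hb' := abs_le.1 hb
  simp only at h1
  rw [e1, pt_sub hg] at e
  rw [e1] at h1
  rcases per_mem hg hb h1 with ⟨i1, i2⟩ | ⟨i1, i2⟩
  · obtain ⟨m, hm⟩ : ∃ m, n + 4 * g * 1 = m + 1 := ⟨n + 4 * g - 1, by omega⟩
    have hm' : (m : ℤ) ≡ (2 * g + 1) * k [ZMOD (4 * g : ℕ)] := by
      have := (h2.trans ((i2.mul_left _).add_right 1)).sub_right 1
      rw [add_sub_cancel_right] at this
      exact (per_mod g (-1) (by omega)).trans this
    refine ⟨k + 2 * g - 1, m, ⟨1, b, i1, hb'.2, Or.inr (by simpa using e)⟩,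
      hm'.trans (per_mod g g (by ring)), ?_⟩
    rw [← perLab_add γ n 1, hm, ← perLab_succ (γ * ss g k) m, ss, xx_add_two, xx_congr g hm']
    simp
  · have hn : (n : ℤ) ≡ (2 * g + 1) * k + 2 * g [ZMOD (4 * g : ℕ)] :=
      (h2.trans ((i2.mul_left _).add_right 1)).trans (per_mod g 1 (by ring))
    refine ⟨k + 2 * g, n + 1, ⟨1, -b, by linarith, by linarith, Or.inl e⟩, ?_, ?_⟩
    · push_cast
      exact (hn.add_right 1).trans (per_mod g g (by ring))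
    · rw [ss, ← xx_congr g hn, perLab_succ]

/-- The horoball with a given cusp label. -/
def perV (g : ℕ) (c : FG g ⧸ Subgroup.zpowers (rr g)) : Set (EE g) :=
  (fun p : FG g × TS g => em p.1 p.2) '' perW g c

theorem perV_mem (hg : 0 < g) (hE : EFibSt g) {c : FG g ⧸ Subgroup.zpowers (rr g)} {γ : FG g}
    {z : TS g} : em γ z ∈ perV g c ↔ (γ, z) ∈ perW g c := by
  refine ⟨?_, fun h => ⟨_, h, rfl⟩⟩
  rintro ⟨⟨γ', z'⟩, h, e⟩
  rcases (hE _ _ _ _).1 e with ⟨rfl, rfl⟩ | ⟨k, e1, rfl⟩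
  · exact h
  · exact perW_sat hg e1 h

theorem perV_isOpen (hg : 0 < g) (hE : EFibSt g) (c : FG g ⧸ Subgroup.zpowers (rr g)) :
    IsOpen (perV g c) := by
  have hq : IsQuotientMap (fun p : FG g × TS g => em p.1 p.2) := isQuotientMap_quot_mk
  rw [← hq.isOpen_preimage]
  have : (fun p : FG g × TS g => em p.1 p.2) ⁻¹' perV g c = perW g c :=
    Set.ext fun p => perV_mem hg hE
  rw [this, isOpen_iff_mem_nhds]
  rintro ⟨γ, z⟩ ⟨j, n, h1, h2, h3⟩
  refine Filter.mem_of_superset (prod_mem_nhds ((isOpen_discrete {γ}).mem_nhds rfl)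
    (((per_isOpen hg j).preimage continuous_subtype_val).mem_nhds h1)) ?_
  rintro ⟨γ', z'⟩ ⟨rfl, h⟩
  exact ⟨j, n, h, h2, h3⟩

theorem perV_unique (hg : 0 < g) (hE : EFibSt g) {c c' : FG g ⧸ Subgroup.zpowers (rr g)}
    {e : EE g} (h : e ∈ perV g c) (h' : e ∈ perV g c') : c = c' := by
  obtain ⟨⟨γ, z⟩, ⟨j, n, h1, h2, rfl⟩, rfl⟩ := h
  obtain ⟨j', n', i1, i2, rfl⟩ := (perV_mem hg hE).1 h'
  exact perLab_congr γ
    (h2.trans ((((per_unique hg h1 i1).mul_left _).add_right 1).trans i2.symm))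

theorem perV_smul {c : FG g ⧸ Subgroup.zpowers (rr g)} {e : EE g} (h : e ∈ perV g c) (δ : FG g) :
    δ • e ∈ perV g (δ • c) := by
  obtain ⟨⟨γ, z⟩, ⟨j, n, h1, h2, rfl⟩, rfl⟩ := h
  exact ⟨(δ * γ, z), ⟨j, n, h1, h2, by simp [perLab, mul_assoc]⟩, rfl⟩

theorem per_sat (hg : 0 < g) (hF : FibSt g) : ∀ z ∈ Pol g, ∀ w ∈ Pol g, pr g z = pr g w →
    z ∈ ⋃ j, perKt g j → w ∈ ⋃ j, perKt g j := by
  intro z hz w hw e h
  rcases (hF.1 z hz w hw).1 e with rfl | ⟨k, rfl⟩ | ⟨-, k, rfl⟩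
  · exact h
  · obtain ⟨j, h⟩ := mem_iUnion.1 h
    obtain ⟨b, hb, rfl⟩ := (glue_iff hg).1 ⟨hz, hw⟩
    have hb' := abs_le.1 hb
    rw [pt_sub hg]
    rcases per_mem hg hb h with ⟨i1, -⟩ | ⟨i1, -⟩
    · exact mem_iUnion.2 ⟨k + 2 * g - 1, 1, b, i1, hb'.2, Or.inr (by simp)⟩
    · exact mem_iUnion.2 ⟨k + 2 * g, 1, -b, by linarith, by linarith, Or.inl rfl⟩
  · exact mem_iUnion.2 ⟨k, 1, 1, one_pos, le_rfl, Or.inl rfl⟩

theorem per_cover (hg : 0 < g) (hF : FibSt g) {e : EE g}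
    (h : pe g e ∈ pr g '' ((⋃ j, perKt g j) ∩ Pol g)) : ∃ c, e ∈ perV g c := by
  obtain ⟨⟨γ, z⟩⟩ := e
  obtain ⟨w, hw, e⟩ := h
  obtain ⟨j, hj⟩ := mem_iUnion.1 (per_sat hg hF w hw.2 z z.2.1 e hw.1)
  have hN : (0 : ℤ) < (4 * g : ℕ) := by omega
  obtain ⟨n, hn⟩ := Int.eq_ofNat_of_zero_le (Int.emod_nonneg ((2 * g + 1) * j + 1) hN.ne')
  exact ⟨_, (γ, z), ⟨j, n, hj, by rw [← hn]; exact Int.mod_modEq _ _, rfl⟩, rfl⟩

theorem per_small (hg : 0 < g) (hF : FibSt g) {U : Set (Surf g)} (hU : IsOpen U) (hv : vv g ∈ U) :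
    ∃ b : ℝ, 0 < b ∧ b < 1 ∧ ∀ (j : ℤ) (a : ℝ), b ≤ a → a ≤ 1 →
      pr g (pt g j a b) ∈ U ∧ pr g (pt g j a (-b)) ∈ U := by
  have hO : IsOpen (⋂ j ∈ Finset.range (4 * g), {p : ℝ × ℝ |
      pr g (pt g j p.1 p.2) ∈ U ∧ pr g (pt g j p.1 (-p.2)) ∈ U}) :=
    isOpen_biInter_finset fun j _ =>
      (hU.preimage ((continuous_pr hg).comp (continuous_pt g j))).inter
      (hU.preimage ((continuous_pr hg).comp ((continuous_pt g j).comp
        (continuous_fst.prodMk continuous_snd.neg))))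
  obtain ⟨ε, hε, h⟩ := Metric.isOpen_iff.1 hO (1, 1) (mem_iInter₂.2 fun j _ =>
    ⟨by rwa [(hF.vtx hg (pt_mem hg _ (by simp) le_rfl)).2 ((vtx_iff hg (by simp)).2 (by simp))],
      by rwa [(hF.vtx hg (pt_mem hg _ (by simp) le_rfl)).2 ((vtx_iff hg (by simp)).2 (by simp))]⟩)
  have h1 : 1 - ε / 2 ≤ max (1 / 2) (1 - ε / 2) := le_max_right _ _
  have h2 : max (1 / 2) (1 - ε / 2) < 1 := max_lt (by norm_num) (by linarith)
  refine ⟨max (1 / 2) (1 - ε / 2), lt_max_of_lt_left (by norm_num), h2, fun j a i1 i2 => ?_⟩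
  obtain ⟨n, hn, e⟩ := exists_nat_ze hg j
  have e' := (ze_eq_iff hg).1 e
  rw [pt_congr hg e', pt_congr hg e']
  refine mem_iInter₂.1 (h (a := (a, max (1 / 2) (1 - ε / 2))) ?_) n (Finset.mem_range.2 hn)
  rw [Metric.mem_ball, Prod.dist_eq, Real.dist_eq, Real.dist_eq, max_lt_iff, abs_lt, abs_lt]
  refine ⟨⟨?_, ?_⟩, ?_, ?_⟩ <;> linarith

theorem perSt (hg : 0 < g) (hF : FibSt g) (hE : EFibSt g) : PerSt g := by
  rintro f φ hf ⟨F, F1, F2⟩
  have hU := isOpen_pr (isOpen_iUnion (per_isOpen hg)) (per_sat hg hF)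
  obtain ⟨b, b0, b1, hb⟩ := per_small hg hF (hU.preimage f.continuous) (by
    rw [mem_preimage, hf]
    exact ⟨_, ⟨mem_iUnion.2 ⟨0, 1, 1, one_pos, le_rfl, Or.inl rfl⟩,
      pt_mem hg 0 (by simp) le_rfl⟩, rfl⟩)
  have mem : ∀ (j : ℤ) (a b' : ℝ), |b'| = b → a ∈ Icc b 1 → pt g j a b' ∈ TS g :=
    fun j a b' e ha => ⟨pt_mem hg j (e ▸ ha.1) ha.2, fun hv =>
      b1.ne (e ▸ ((vtx_iff hg (e ▸ ha.1)).1 hv).2)⟩
  have e1 : |b| = b := abs_of_pos b0
  have e2 : |(-b)| = b := by rw [abs_neg, e1]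
  have m0 : b ∈ Icc b 1 := ⟨le_rfl, b1.le⟩
  have m1 : (1 : ℝ) ∈ Icc b 1 := ⟨b1.le, le_rfl⟩
  have seg : ∀ (γ : FG g) (j : ℤ) (b' : ℝ) (e : |b'| = b) (c : FG g ⧸ Subgroup.zpowers (rr g))
      (a a' : Icc b 1), F (em γ ⟨_, mem j a b' e a.2⟩) ∈ perV g c →
        F (em γ ⟨_, mem j a' b' e a'.2⟩) ∈ perV g c := by
    intro γ j b' e c a a' h
    have : PreconnectedSpace (Icc b 1) := isPreconnected_iff_preconnectedSpace.1 isPreconnected_Icc
    have hc : Continuous fun a : Icc b 1 => F (em γ ⟨_, mem j a b' e a.2⟩) :=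
      F.continuous.comp (continuous_quot_mk.comp (continuous_const.prodMk
        (((continuous_pt g j).comp (continuous_subtype_val.prodMk continuous_const)).subtype_mk _)))
    refine ((isPreconnected_range hc).subset_left_of_subset_union (perV_isOpen hg hE c)
      (v := ⋃ c' ∈ {c' | c' ≠ c}, perV g c') (isOpen_biUnion fun c' _ => perV_isOpen hg hE c')
      ?_ ?_ ⟨_, mem_range_self a, h⟩) (mem_range_self a')
    · rw [Set.disjoint_left]
      intro x hx hx'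
      obtain ⟨c', i1, i2⟩ := mem_iUnion₂.1 hx'
      exact i1 (perV_unique hg hE i2 hx)
    · rintro _ ⟨x, rfl⟩
      obtain ⟨c', hc'⟩ := per_cover hg hF (e := F (em γ ⟨_, mem j x b' e x.2⟩)) (by
        rw [F1, pe_em]
        rcases (abs_eq b0.le).1 e with rfl | rfl
        · exact (hb j x x.2.1 x.2.2).1
        · exact (hb j x x.2.1 x.2.2).2)
      by_cases h : c' = c
      · exact Or.inl (h ▸ hc')
      · exact Or.inr (mem_iUnion₂.2 ⟨c', h, hc'⟩)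
  let X : ℕ → EE g := fun n => em (xw g 0 n) ⟨_, mem ((2 * g + 1) * (n - 1)) 1 b e1 m1⟩
  obtain ⟨c, hc⟩ := per_cover hg hF (e := F (X 0)) (by rw [F1, pe_em]; exact (hb _ 1 b1.le le_rfl).1)
  have step : ∀ n, F (X n) ∈ perV g c := by
    intro n
    induction n with
    | zero => exact hc
    | succ n ih =>
      have i1 := seg _ _ b e1 c ⟨1, m1⟩ ⟨b, m0⟩ ih
      have i2 : (⟨_, mem ((2 * g + 1) * (n - 1)) b b e1 m0⟩ : TS g) =
          ⟨_, mem ((2 * g + 1) * (n - 1) + 1) b (-b) e2 m0⟩ := Subtype.ext (pt_diag hg _ b).symm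
      rw [i2] at i1
      have i3 := seg _ _ (-b) e2 c ⟨b, m0⟩ ⟨1, m1⟩ i1
      have i4 : em (xw g 0 n) ⟨_, mem ((2 * g + 1) * (n - 1) + 1) 1 (-b) e2 m1⟩ = X (n + 1) := by
        refine Quot.sound ⟨(2 * g + 1) * (n - 1) + 1, ?_, ?_⟩
        · simp only
          rw [pt_sub hg, neg_neg]
          congr 1
          push_cast
          ring
        · simp only
          rw [xw_succ, zero_add, ss]
          congr 1
          exact xx_congr g (per_mod g ((g + 1) * (n - 1) + 1) (by ring))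
      exact i4 ▸ i3
  have last : X (4 * g) = rr g • X 0 := by
    simp only [X]
    rw [smul_em, xw_zero, mul_one, rr]
    congr 1
    exact Subtype.ext (pt_congr hg (per_mod g (-(2 * g + 1)) (by push_cast; ring)) _ _)
  have fin := step (4 * g)
  rw [last, F2] at fin
  have e := perV_unique hg hE fin (perV_smul hc _)
  obtain ⟨γ, rfl⟩ := QuotientGroup.mk_surjective c
  rw [MulAction.Quotient.smul_mk, QuotientGroup.eq] at e
  obtain ⟨n, hn⟩ := e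
  exact ⟨n, isConj_iff.2 ⟨γ⁻¹, by simp only at hn; rw [hn]; simp [mul_assoc]⟩⟩

end Pool.Agent.MCG
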