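import Pool.Agent.Lib.MP_c86c76_al.Top.St

/-!
The lifts of the sides of the polygon through the covering of the surface punctured at the centre.
-/

set_option autoImplicit false

namespace Pool.Agent.MCG

open Set

variable {g : ℕ}

/-- A point on the segment from the centre to the midpoint of side `j`. -/
noncomputable def sideAx (hg : 0 < g) (j : ℤ) (s : ℝ) : TS g :=
  ⟨pt g j (max 0 (1 - |s|)) 0,
    pt_mem hg j (by simp) (max_le zero_le_one (by linarith [abs_nonneg s])),
    fun h => by simpa using ((vtx_iff hg (by simp)).1 h).2⟩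

theorem side_cont (hg : 0 < g) (γ : FG g) (j : ℤ) : Continuous fun s => em γ (sideAx hg j s) := by
  refine continuous_quot_mk.comp (continuous_const.prodMk (Continuous.subtype_mk ?_ _))
  exact (continuous_pt g j).comp (f := fun s : ℝ => (max 0 (1 - |s|), (0 : ℝ))) (by fun_prop)

theorem side_mod {a b : ℤ} (c : ℤ) (h : a = b + 4 * g * c) : a ≡ b [ZMOD (4 * g : ℕ)] := by
  rw [h]
  exact (Int.modEq_iff_dvd.2 ⟨-c, by push_cast; ring⟩)

theorem sideSt : SideSt g := by
  intro hg D hD k
  refine ⟨fun s => if s ≤ 0 then em 1 (sideAx hg ((2 * g + 1) * k + 2 * g) s)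
    else em (xx g k) (sideAx hg ((2 * g + 1) * k) s), ?_, ?_, ?_, ?_⟩
  · refine (Continuous.if_le (side_cont hg _ _) (side_cont hg _ _) continuous_id continuous_const
      ?_).continuousOn
    rintro _ rfl
    refine Quot.sound ⟨(2 * g + 1) * k + 2 * g, ?_, ?_⟩
    · simp only [sideAx, abs_zero, sub_zero, max_eq_right zero_le_one]
      rw [pt_sub hg, neg_zero]
      exact pt_congr hg (side_mod (-1) (by ring)) _ _
    · rw [one_mul, ss]
      exact xx_congr g (side_mod (-((g + 1) * k + g + 1)) (by ring))
  · simp only [if_pos (show (-1 : ℝ) ≤ 0 by norm_num), e0]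
    congr 1
    exact Subtype.ext (by simp [sideAx, pt_zero])
  · simp only [if_neg (show ¬ (1 : ℝ) ≤ 0 by norm_num), e0, smul_em, mul_one]
    congr 1
    exact Subtype.ext (by simp [sideAx, pt_zero])
  · rintro s ⟨h1, h2⟩
    simp only
    split_ifs with h
    · have := (hD.2 ((2 * g + 1) * k + 2 * g) (1 + s) 0 le_rfl (by linarith) (by linarith)).2
      rw [neg_zero, sub_zero, show -(1 - (1 + s)) = s by ring,
        pt_congr hg (side_mod (b := k) ((g + 1) * k + g + 1) (by ring)) 1 s] at this
      rw [pe_em, sideAx, ← this]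
      simp only
      rw [abs_of_nonpos h, max_eq_right (by linarith), sub_neg_eq_add]
    · have h0 := (not_le.1 h).le
      have := (hD.2 ((2 * g + 1) * k) (1 - s) 0 le_rfl (by linarith) (by linarith)).1
      rw [sub_zero, sub_sub_cancel,
        pt_congr hg (side_mod (b := k) ((g + 1) * k) (by ring)) 1 s] at this
      rw [pe_em, sideAx, ← this]
      simp only
      rw [abs_of_nonneg h0, max_eq_right (by linarith)]

end Pool.Agent.MCG
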