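import Pool.Agent.Lib.MP_c86c76_al.Top.Bas
import Pool.Agent.Lib.MP_c86c76_al.Top.Lift
import Pool.Agent.Lib.MP_c86c76_al.Top.Side

/-!
The automorphism of the free group induced by the rotation.
-/

set_option autoImplicit false

namespace Pool.Agent.MCG

open Set

variable {g : ℕ}

theorem phiRSt (hg : 0 < g) (hF : FibSt g) (hC : ECovSt g) (hL : ELiftSt g) : PhiRSt g := by
  intro D R hD hR
  obtain ⟨hl, hp⟩ := hL hg
  have h := Cov.comp hC D
  have hs : ∀ (k : ℤ) (s : ℝ), |s| ≤ 1 → R (pr g (pt g k 1 s)) = pr g (pt g (k + 1) 1 s) :=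
    fun k s h => by rw [hR _ (pt_mem hg k h le_rfl), ze_mul_pt]
  obtain ⟨F, φ, h1, h2, h3⟩ := h.exists_ind hl R (by rw [hD.vv, hR.cc]) (e0 hg) (by
    change D (cc g) = R (D (cc g))
    rw [hD.cc, vv, hs 0 1 (by simp)]
    exact ((hF.vtx hg (pt_mem hg _ (by simp) le_rfl)).2 ⟨_, rfl⟩).symm)
  have key : ∀ k : ℤ, φ (xx g k) = xx g (k + 1) := by
    intro k
    obtain ⟨L, a1, a2, a3, a4⟩ := sideSt hg D hD k
    obtain ⟨M, b1, b2, b3, b4⟩ := sideSt hg D hD (k + 1)
    have := h.eqOn_of_eq isPreconnected_Icc (a := fun s => F (L s)) (b := M)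
      (F.continuous.comp_continuousOn a1) b1 (fun s hs' => by
        rw [h2]
        simp only [Function.comp]
        rw [a4 s hs', b4 s hs', hs k s (abs_le.2 hs')]) (x := -1) (by simp)
      (by simp only [a2, b2, h1]) (show (1 : ℝ) ∈ Icc (-1 : ℝ) 1 by simp)
    simp only [a3, b3, h3, h1] at this
    exact h.cancel this
  have e : φ = rho g := by
    refine MulEquiv.toMonoidHom_injective (FreeGroup.ext_hom _ _ fun i => ?_)
    change φ _ = rho g _
    rw [← xx_of, key, rho_xx hg]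
  exact ⟨F, h2, e ▸ h3⟩

end Pool.Agent.MCG
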