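import Pool.Agent.Lib.MP_c86c76_al.Top.Bas

/-!
The point push around the core of the cylinder is a quotient of two twists.
-/

set_option autoImplicit false

namespace Pool.Agent.MCG

variable {g : ℕ}

theorem push_red (x : ℝ) : ∃ (a : ℝ) (n : ℤ), |a| ≤ 1 ∧ x = a + 2 * n := by
  refine ⟨x - 2 * round (x / 2), round (x / 2), ?_, by ring⟩
  have h := abs_le.1 (abs_sub_round (x / 2))
  rw [abs_le]
  constructor <;> linarith [h.1, h.2]

theorem push_neg_pt (k : ℤ) (a b : ℝ) : -pt g k a b = pt g k (-a) (-b) := by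
  simp only [pt]; push_cast; ring

theorem pushSt (hg : 0 < g) : PushSt g := by
  intro R T P hR hT hP
  have hneg : ∀ z ∈ Pol g, -z ∈ Pol g := fun z hz => by
    rwa [mem_Pol hg, nm_neg hg, ← mem_Pol hg]
  have hN : ∀ z ∈ Pol g, (R ^ (2 * g)) (pr g z) = pr g (-z) := fun z hz => by
    rw [hR.pow hg _ hz, Nat.cast_mul, Nat.cast_ofNat, ze_two hg, neg_one_mul]
  have hN' : ∀ z ∈ Pol g, (R ^ (2 * g))⁻¹ (pr g z) = pr g (-z) := fun z hz => by
    have h1 := hN _ (hneg z hz)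
    rw [neg_neg] at h1
    rw [← h1]
    exact (R ^ (2 * g)).symm_apply_apply _
  constructor
  · have h1 := hT.1 0 0 0 1 (by simp) (by simp) (by simp) (by simp)
    rwa [pt_zero] at h1
  refine homeo_ext fun z hz => ?_
  rw [Homeomorph.mul_apply, Homeomorph.mul_apply, Homeomorph.mul_apply, hN' z hz]
  rcases le_total (tt g) |z.im| with h | h
  · rw [hT.2 _ (hneg z hz) (by simpa using h), hN _ (hneg z hz), neg_neg, (hP.1 1).2 z hz h,
      hT.2 z hz h]
  have ht := tt_pos hg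
  obtain ⟨a, b, hb, rfl⟩ : ∃ a b : ℝ, |b| ≤ 1 ∧ z = pt g 0 a b := by
    refine ⟨z.re, z.im / tt g, ?_, ?_⟩
    · rwa [abs_div, abs_of_pos ht, div_le_one ht]
    · rw [pt, ze_zero, one_mul, div_mul_cancel₀ _ ht.ne', Complex.re_add_im]
  have ha : |a| ≤ 1 := by
    have h1 := (le_nm_pt g 0 a b).trans ((mem_Pol hg).1 hz)
    have h2 := hneg _ hz
    rw [push_neg_pt] at h2
    have h3 := (le_nm_pt g 0 _ _).trans ((mem_Pol hg).1 h2)
    exact abs_le.2 ⟨by linarith, h1⟩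
  have hb' : |-b| ≤ 1 := by rwa [abs_neg]
  obtain ⟨a₁, n₁, h₁, e₁⟩ := push_red (-a + 2 * min 1 (1 - -b))
  obtain ⟨a₂, n₂, h₂, e₂⟩ := push_red (-a₁ + 1 * (2 * (1 - |b|)))
  rw [push_neg_pt, hT.1 _ _ _ _ (by rwa [abs_neg]) hb' h₁ e₁,
    hN _ ((mem_Pol hg).2 (nm_rect hg 0 h₁ hb')), push_neg_pt, neg_neg,
    (hP.1 1).1 _ _ _ _ (by rwa [abs_neg]) hb h₂ e₂]
  refine (hT.1 _ _ _ (1 + n₂ - n₁) ha hb h₂ ?_).symm
  push_cast
  rcases le_total 0 b with h0 | h0
  · rw [abs_of_nonneg h0] at e₂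
    rw [min_eq_left (by linarith)] at e₁
    rw [min_eq_right (by linarith)]
    linarith
  · rw [abs_of_nonpos h0] at e₂
    rw [min_eq_right (by linarith)] at e₁
    rw [min_eq_left (by linarith)]
    linarith

end Pool.Agent.MCG
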