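import Pool.Agent.Lib.MP_c86c76_al.Top.Bas

/-!
The radial homeomorphisms that move the centre to an inner point of the polygon.
-/

set_option autoImplicit false

namespace Pool.Agent.MCG

open Set Topology

variable {g : ℕ}

/-- The radial map in the plane. -/
noncomputable def radP (g : ℕ) (x z : ℂ) : ℂ := z + (1 - nm g z : ℝ) * x

theorem radP_fix {x z : ℂ} (h : nm g z = 1) : radP g x z = z := by
  simp [radP, h]

theorem radP_le (hg : 0 < g) (x : ℂ) {z : ℂ} (hz : nm g z ≤ 1) :
    nm g (radP g x z) ≤ nm g z + (1 - nm g z) * nm g x := by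
  rw [← nm_smul hg (sub_nonneg.2 hz)]
  exact nm_add_le g _ _

theorem radP_mem (hg : 0 < g) {x z : ℂ} (hx : nm g x < 1) (hz : z ∈ Pol g) :
    radP g x z ∈ Pol g := by
  rw [mem_Pol hg] at hz ⊢
  have := radP_le hg x hz
  nlinarith

theorem radP_lt (hg : 0 < g) {x z : ℂ} (hx : nm g x < 1) (hz : nm g z < 1) :
    nm g (radP g x z) < 1 := by
  have := radP_le hg x hz.le
  nlinarith

theorem radP_inj_aux (hg : 0 < g) {x z w : ℂ} (hx : nm g x < 1) (h : nm g w ≤ nm g z)
    (e : radP g x z = radP g x w) : z = w := by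
  have e1 : z = w + (nm g z - nm g w : ℝ) * x := by
    unfold radP at e
    push_cast at e ⊢
    linear_combination e
  have h1 := nm_add_le g w ((nm g z - nm g w : ℝ) * x)
  rw [← e1, nm_smul hg (sub_nonneg.2 h)] at h1
  have h2 : nm g z - nm g w = 0 := by nlinarith
  rw [e1, h2]
  simp

theorem radP_inj (hg : 0 < g) {x z w : ℂ} (hx : nm g x < 1) (e : radP g x z = radP g x w) :
    z = w := by
  rcases le_total (nm g w) (nm g z) with h | h
  · exact radP_inj_aux hg hx h e
  · exact (radP_inj_aux hg hx h e.symm).symm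

theorem radP_surj (hg : 0 < g) (x : ℂ) {w : ℂ} (hw : w ∈ Pol g) :
    ∃ z ∈ Pol g, radP g x z = w := by
  rw [mem_Pol hg] at hw
  have hc : Continuous fun t : ℝ => nm g (w - (1 - t : ℝ) * x) - t :=
    ((continuous_nm g).comp (by fun_prop)).sub continuous_id
  have h0 : (0 : ℝ) ∈ Icc (nm g (w - (1 - 1 : ℝ) * x) - 1) (nm g (w - (1 - 0 : ℝ) * x) - 0) := by
    refine ⟨by simpa using hw, ?_⟩
    rw [sub_zero (nm g _)]
    exact nm_nonneg hg _
  obtain ⟨t, ht, e⟩ := intermediate_value_Icc' zero_le_one hc.continuousOn h0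
  have e' : nm g (w - (1 - t : ℝ) * x) = t := sub_eq_zero.1 e
  refine ⟨w - (1 - t : ℝ) * x, (mem_Pol hg).2 (e'.trans_le ht.2), ?_⟩
  rw [radP, e', sub_add_cancel]

theorem continuous_radP (g : ℕ) : Continuous fun p : ℂ × ℂ => radP g p.1 p.2 :=
  continuous_snd.add ((Complex.continuous_ofReal.comp
    (continuous_const.sub ((continuous_nm g).comp continuous_snd))).mul continuous_fst)

/-- The radial map on the surface. -/
noncomputable def radF (hg : 0 < g) (x : ℂ) : Surf g → Surf g :=
  desc (fun z => pr g (radP g x z)) fun z k h h' => by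
    obtain ⟨b, hb, e⟩ := (glue_iff hg).1 ⟨h, h'⟩
    have h1 : nm g z = 1 := by rw [e, nm_pt hg hb]
    have h2 : nm g (z - 2 * ze g k) = 1 := by
      rw [e, pt_sub hg, nm_pt hg (by rwa [abs_neg])]
    rw [radP_fix h1, radP_fix h2]
    exact pr_glue h h'

theorem radF_pr (hg : 0 < g) (x : ℂ) {z : ℂ} (hz : z ∈ Pol g) :
    radF hg x (pr g z) = pr g (radP g x z) := desc_pr _ _ hz

theorem continuous_radF (hg : 0 < g) (x : ℂ) : Continuous (radF hg x) :=
  continuous_of_pr (((continuous_pr hg).comp ((continuous_radP g).comp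
    (continuous_const.prodMk continuous_id))).continuousOn.congr fun _ hz => radF_pr hg x hz)

theorem bijective_radF (hg : 0 < g) (hF : FibSt g) {x : ℂ} (hx : nm g x < 1) :
    Function.Bijective (radF hg x) := by
  constructor
  · intro p q e
    obtain ⟨z, hz, rfl⟩ := pr_surj p
    obtain ⟨w, hw, rfl⟩ := pr_surj q
    rw [radF_pr hg x hz, radF_pr hg x hw] at e
    rcases ((mem_Pol hg).1 hz).eq_or_lt with h1 | h1
    · rcases ((mem_Pol hg).1 hw).eq_or_lt with h2 | h2
      · rwa [radP_fix h1, radP_fix h2] at e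
      · rw [radP_inj hg hx (hF.inner hg (radP_lt hg hx h2) (radP_mem hg hx hz) e.symm)]
    · rw [radP_inj hg hx (hF.inner hg (radP_lt hg hx h1) (radP_mem hg hx hw) e)]
  · intro q
    obtain ⟨w, hw, rfl⟩ := pr_surj q
    obtain ⟨z, hz, rfl⟩ := radP_surj hg x hw
    exact ⟨pr g z, radF_pr hg x hz⟩

theorem radSt (hg : 0 < g) (hF : FibSt g) : RadSt g := by
  classical
  have := compactSpace_surf hg
  have := hF.2
  let h : ℂ → Surf g ≃ₜ Surf g := fun x =>
    if hx : nm g x < 1 then
      Continuous.homeoOfEquivCompactToT2 (f := Equiv.ofBijective _ (bijective_radF hg hF hx))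
        (continuous_radF hg x)
    else 1
  have key : ∀ x, nm g x < 1 → ∀ z ∈ Pol g, h x (pr g z) = pr g (radP g x z) := by
    intro x hx z hz
    simp only [h, dif_pos hx]
    exact radF_pr hg x hz
  refine ⟨h, key, fam_of_pr (isOpen_lt (continuous_nm g) continuous_const) ?_⟩
  exact ((continuous_pr hg).comp (continuous_radP g)).continuousOn.congr
    fun p hp => key p.1 hp.1 p.2 hp.2

end Pool.Agent.MCG
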