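import Pool.Agent.Lib.MP_c86c76_al.Top.Im

/-!
Shears in the cylinder between the two vertical sides.
-/

set_option autoImplicit false

namespace Pool.Agent.MCG

open Set Topology

variable {g : ℕ}

/-- The parametrisation of the cylinder. -/
noncomputable def shCy (g : ℕ) (a b : ℝ) : Surf g :=
  pr g (pt g 0 (2 * Int.fract ((a + 1) / 2) - 1) (max (-1) (min 1 b)))

theorem sh_side (hg : 0 < g) {b : ℝ} (hb : |b| ≤ 1) : pr g (pt g 0 (-1) b) = pr g (pt g 0 1 b) := by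
  rw [pr_side hg 0 hb, pt_add_two hg, neg_neg]

theorem sh_cont (hg : 0 < g) : Continuous fun p : ℝ × ℝ => shCy g p.1 p.2 := by
  have h := ContinuousOn.comp_fract' (f := fun (b u : ℝ) =>
    pr g (pt g 0 (2 * u - 1) (max (-1) (min 1 b))))
    (((continuous_pr hg).comp ((continuous_pt g 0).comp (f := fun p : ℝ × ℝ =>
      (2 * p.2 - 1, max (-1) (min 1 p.1))) (by fun_prop))).continuousOn) fun b => by
      rw [mul_zero, zero_sub, mul_one, show (2 : ℝ) - 1 = 1 by norm_num]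
      exact sh_side hg (abs_le.2 ⟨le_max_left _ _, max_le (by norm_num) (min_le_left _ _)⟩)
  exact h.comp (f := fun p : ℝ × ℝ => (p.2, (p.1 + 1) / 2)) (by fun_prop)

theorem sh_per (a b : ℝ) (n : ℤ) : shCy g (a + 2 * n) b = shCy g a b := by
  rw [shCy, show (a + 2 * n + 1) / 2 = (a + 1) / 2 + n by ring, Int.fract_add_intCast, shCy]

theorem sh_eq (hg : 0 < g) {a b : ℝ} (ha : |a| ≤ 1) (hb : |b| ≤ 1) :
    shCy g a b = pr g (pt g 0 a b) := by
  obtain ⟨a1, a2⟩ := abs_le.1 ha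
  rw [shCy, min_eq_right (abs_le.1 hb).2, max_eq_right (abs_le.1 hb).1]
  rcases a2.eq_or_lt with rfl | h
  · rw [add_self_div_two, Int.fract_one, mul_zero, zero_sub, sh_side hg hb]
  · rw [Int.fract_eq_self.2 ⟨by linarith, by linarith⟩, show 2 * ((a + 1) / 2) - 1 = a by ring]

theorem sh_red (a : ℝ) : ∃ (a' : ℝ) (n : ℤ), |a'| ≤ 1 ∧ a = a' + 2 * n := by
  have h1 := Int.fract_nonneg ((a + 1) / 2)
  have h2 := Int.fract_lt_one ((a + 1) / 2)
  exact ⟨2 * Int.fract ((a + 1) / 2) - 1, ⌊(a + 1) / 2⌋, abs_le.2 ⟨by linarith, by linarith⟩,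
    by linarith [Int.fract_add_floor ((a + 1) / 2)]⟩

/-- The shear on the polygon. -/
noncomputable def shF (g : ℕ) (β : ℝ → ℝ) (z : ℂ) : Surf g :=
  if |z.im| ≤ tt g then shCy g (z.re + β (z.im / tt g)) (z.im / tt g) else pr g z

/-- The shift is even on the boundary of the cylinder. -/
def ShB (β : ℝ → ℝ) : Prop := ∀ b, |b| = 1 → ∃ n : ℤ, β b = 2 * n

theorem sh_bdry (hg : 0 < g) {β : ℝ → ℝ} (hβ : ShB β) {z : ℂ} (hz : z ∈ Pol g)
    (h : |z.im| = tt g) : shCy g (z.re + β (z.im / tt g)) (z.im / tt g) = pr g z := by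
  have h1 : |z.im / tt g| = 1 := by
    rw [abs_div, h, abs_of_pos (tt_pos hg), div_self (tt_pos hg).ne']
  obtain ⟨n, hn⟩ := hβ _ h1
  rw [hn, sh_per, sh_eq hg ((im_abs_re hg z).trans ((mem_Pol hg).1 hz)) h1.le, im_eq_pt hg]

theorem sh_out (hg : 0 < g) {β : ℝ → ℝ} (hβ : ShB β) {z : ℂ} (hz : z ∈ Pol g)
    (h : tt g ≤ |z.im|) : shF g β z = pr g z := by
  rw [shF]
  split_ifs with h1
  · exact sh_bdry hg hβ hz (le_antisymm h1 h)
  · rfl

theorem sh_glue (hg : 0 < g) {β : ℝ → ℝ} (hβ : ShB β) (z : ℂ) (k : ℤ) (h : z ∈ Pol g)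
    (h' : z - 2 * ze g k ∈ Pol g) : shF g β z = shF g β (z - 2 * ze g k) := by
  by_cases hk : (2 * g : ℤ) ∣ k
  · obtain ⟨n, hn⟩ : ∃ n : ℤ, ze g k = n := by
      obtain ⟨m, rfl⟩ := hk
      rw [ze, zpow_mul, ← ze, ze_two hg]
      rcases Int.even_or_odd m with e | e
      · exact ⟨1, by simp [e.neg_one_zpow]⟩
      · exact ⟨-1, by simp [e.neg_one_zpow]⟩
    have e1 : (z - 2 * ze g k).im = z.im := by simp [hn]
    have e2 : z.re = (z - 2 * ze g k).re + 2 * n := by simp [hn]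
    rw [shF, shF, e1, ← pr_glue h h', e2, add_right_comm, sh_per]
  · obtain ⟨b, hb, rfl⟩ := (glue_iff hg).1 ⟨h, h'⟩
    rw [sh_out hg hβ h (tt_le_im hg hk hb), sh_out hg hβ h', ← pr_glue h h']
    rw [pt_sub hg]
    exact tt_le_im hg (fun e => hk ((dvd_add_left dvd_rfl).1 e)) (by rwa [abs_neg])

/-- The shear on the surface. -/
noncomputable def shG (hg : 0 < g) {β : ℝ → ℝ} (hβ : ShB β) : Surf g → Surf g :=
  desc (shF g β) (sh_glue hg hβ)

theorem shG_pr (hg : 0 < g) {β : ℝ → ℝ} (hβ : ShB β) {z : ℂ} (hz : z ∈ Pol g) :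
    shG hg hβ (pr g z) = shF g β z := desc_pr _ _ hz

theorem shG_pt (hg : 0 < g) {β : ℝ → ℝ} (hβ : ShB β) {a b : ℝ} (ha : |a| ≤ 1) (hb : |b| ≤ 1) :
    shG hg hβ (pr g (pt g 0 a b)) = shCy g (a + β b) b := by
  have ht := tt_pos hg
  rw [shG_pr hg hβ ((mem_Pol hg).2 (nm_rect hg 0 ha hb)), shF, im_im_pt, im_re_pt,
    mul_div_cancel_right₀ _ ht.ne', if_pos]
  rw [abs_mul, abs_of_pos ht]
  exact mul_le_of_le_one_left ht.le hb

theorem shG_inv (hg : 0 < g) {β β' : ℝ → ℝ} (hβ : ShB β) (hβ' : ShB β') (e : ∀ b, β b + β' b = 0)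
    (x : Surf g) : shG hg hβ' (shG hg hβ x) = x := by
  obtain ⟨z, hz, rfl⟩ := pr_surj x
  rcases le_total (tt g) |z.im| with h | h
  · rw [shG_pr hg hβ hz, sh_out hg hβ hz h, shG_pr hg hβ' hz, sh_out hg hβ' hz h]
  have ha := (im_abs_re hg z).trans ((mem_Pol hg).1 hz)
  have hb : |z.im / tt g| ≤ 1 := by rwa [abs_div, abs_of_pos (tt_pos hg), div_le_one (tt_pos hg)]
  rw [← im_eq_pt hg z, shG_pt hg hβ ha hb]
  obtain ⟨a, n, h1, h2⟩ := sh_red (z.re + β (z.im / tt g))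
  rw [h2, sh_per, sh_eq hg h1 hb, shG_pt hg hβ' h1 hb, ← sh_per _ _ n, ← sh_eq hg ha hb]
  congr 1
  linarith [e (z.im / tt g)]

theorem shG_cont (hg : 0 < g) {β : ℝ → ℝ → ℝ} (hc : Continuous fun p : ℝ × ℝ => β p.1 p.2)
    (hβ : ∀ τ, ShB (β τ)) : Continuous fun p : ℝ × Surf g => shG hg (hβ p.1) p.2 := by
  refine (isQuotientMap_pr g).continuous_lift_prod_right ?_
  simp only [fun (τ : ℝ) (z : Pol g) => shG_pr hg (hβ τ) z.2, shF]
  refine Continuous.if_le ?_ ((continuous_pr hg).comp (by fun_prop)) (by fun_prop)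
    continuous_const fun p h => sh_bdry hg (hβ _) p.2.2 h
  exact (sh_cont hg).comp (f := fun p : ℝ × Pol g =>
    ((p.2 : ℂ).re + β p.1 ((p.2 : ℂ).im / tt g), (p.2 : ℂ).im / tt g))
    (((by fun_prop : Continuous fun p : ℝ × Pol g => (p.2 : ℂ).re).add
      (hc.comp (f := fun p : ℝ × Pol g => (p.1, (p.2 : ℂ).im / tt g)) (by fun_prop))).prodMk
      (by fun_prop))

theorem sh_homeo {X : Type} [TopologicalSpace X] {f f' : ℝ → X → X}
    (h : Continuous fun p : ℝ × X => f p.1 p.2) (h' : Continuous fun p : ℝ × X => f' p.1 p.2)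
    (e : ∀ τ x, f' τ (f τ x) = x) (e' : ∀ τ x, f τ (f' τ x) = x) :
    ∃ P : ℝ → X ≃ₜ X, (∀ τ x, P τ x = f τ x) ∧ Fam P univ :=
  ⟨fun τ => ⟨⟨f τ, f' τ, e τ, e' τ⟩, h.comp (Continuous.prodMk_right τ),
    h'.comp (Continuous.prodMk_right τ)⟩, fun _ _ => rfl, h.continuousOn⟩

theorem sh_main (hg : 0 < g) (β : ℝ → ℝ → ℝ) (hc : Continuous fun p : ℝ × ℝ => β p.1 p.2)
    (hβ : ∀ τ, ShB (β τ)) :
    ∃ P : ℝ → Surf g ≃ₜ Surf g, (∀ τ, IsSh (β τ) (P τ)) ∧ Fam P univ := by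
  have hβ' : ∀ τ, ShB fun b => -β τ b := fun τ b hb => by
    obtain ⟨n, hn⟩ := hβ τ b hb
    exact ⟨-n, by simp [hn]⟩
  obtain ⟨P, h1, h2⟩ := sh_homeo (f := fun τ => shG hg (hβ τ)) (f' := fun τ => shG hg (hβ' τ))
    (shG_cont hg hc hβ) (shG_cont hg (β := fun τ b => -β τ b) hc.neg hβ')
    (fun τ => shG_inv hg _ _ fun b => add_neg_cancel _)
    (fun τ => shG_inv hg _ _ fun b => neg_add_cancel _)
  refine ⟨P, fun τ => ⟨fun a b a' n ha hb ha' e => ?_, fun z hz h => ?_⟩, h2⟩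
  · rw [h1, shG_pt hg _ ha hb, e, sh_per, sh_eq hg ha' hb]
  · rw [h1, shG_pr hg _ hz, sh_out hg (hβ τ) hz h]

theorem shSt (hg : 0 < g) : ShSt g := by
  constructor
  · obtain ⟨P, h, -⟩ := sh_main hg (fun _ b => 2 * min 1 (1 - b)) (by fun_prop) fun _ b hb => by
      rcases (abs_eq zero_le_one).1 hb with rfl | rfl
      · exact ⟨0, by simp⟩
      · exact ⟨1, by simp⟩
    exact ⟨P 0, h 0⟩
  · exact sh_main hg (fun τ b => τ * (2 * (1 - |b|))) (by fun_prop) fun _ b hb =>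
      ⟨0, by simp [hb]⟩

end Pool.Agent.MCG
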