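import Pool.Agent.Lib.MP_c86c76_al.Top.Bas

/-!
The local sections modulo `K` away from the vertex.
-/

set_option autoImplicit false

namespace Pool.Agent.MCG

open Set Topology
open scoped unitInterval

section Gen

variable {S : Type} [TopologicalSpace S]

theorem sig1_fam_comp {T T' : Type} [TopologicalSpace T] [TopologicalSpace T'] {s : T → S ≃ₜ S}
    {U : Set T} (hs : Fam s U) {γ : T' → T} {V : Set T'} (hγ : ContinuousOn γ V)
    (hm : MapsTo γ V U) : Fam (fun t => s (γ t)) V :=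
  ContinuousOn.comp (f := fun p : T' × S => (γ p.1, p.2)) hs
    ((hγ.comp continuous_fst.continuousOn fun _ hp => hp.1).prodMk continuous_snd.continuousOn)
    fun _ hp => ⟨hm hp.1, trivial⟩

theorem sig1_fam_left {T : Type} [TopologicalSpace T] {s : T → S ≃ₜ S} {U : Set T} (hs : Fam s U)
    (f : S ≃ₜ S) : Fam (fun t => f * s t) U :=
  f.continuous.comp_continuousOn hs

theorem sig1_fam_right {T : Type} [TopologicalSpace T] {s : T → S ≃ₜ S} {U : Set T} (hs : Fam s U)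
    (f : S ≃ₜ S) : Fam (fun t => s t * f) U :=
  ContinuousOn.comp (f := fun p : T × S => (p.1, f p.2)) hs
    (continuous_fst.prodMk (f.continuous.comp continuous_snd)).continuousOn
    fun _ hp => ⟨hp.1, trivial⟩

theorem sig1_ifam {H : ℝ → S ≃ₜ S} (h : Fam H (Icc 0 1)) : IFam fun t : I => H t :=
  ContinuousOn.comp_continuous (f := fun p : I × S => ((p.1 : ℝ), p.2)) h (by fun_prop)
    fun p => ⟨p.1.2, trivial⟩

/-- Two families with the same track stay in the same coset. -/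
theorem sig1_track [CompactSpace S] [T2Space S] (hA : FamSt) {c : S} {K : Subgroup (S ≃ₜ S)}
    (hK : Stable c K) {H H' : ℝ → S ≃ₜ S} (h1 : Fam H (Icc 0 1)) (h2 : Fam H' (Icc 0 1))
    (h3 : ∀ t ∈ Icc (0 : ℝ) 1, H t c = H' t c) (h0 : (H 0)⁻¹ * H' 0 ∈ K) :
    (H 1)⁻¹ * H' 1 ∈ K := by
  have := (hA S).2.2.2 c K hK _ _ (sig1_ifam h1) (sig1_ifam h2) fun t => h3 t t.2
  have h4 := K.mul_mem h0 this
  change (H 0)⁻¹ * H' 0 * (((H 0)⁻¹ * H' 0)⁻¹ * ((H 1)⁻¹ * H' 1)) ∈ K at h4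
  rwa [mul_inv_cancel_left] at h4

end Gen

variable {g : ℕ}

theorem sig1_lt (hg : 0 < g) (k : ℤ) {a b : ℝ} (ha : |a| < 1) (hb : |b| < 1) :
    nm g (pt g k a b) < 1 :=
  (nm_rect hg k (le_max_left _ _) (le_max_right _ _)).trans_lt (max_lt ha hb)

theorem sig1_mem (hg : 0 < g) (k : ℤ) {a b : ℝ} (ha : |a| ≤ 1) (hb : |b| ≤ 1) :
    pt g k a b ∈ Pol g := (mem_Pol hg).2 (nm_rect hg k ha hb)

theorem sig1_coord (hg : 0 < g) (k : ℤ) (z : ℂ) :
    z = pt g k (z / ze g k).re ((z / ze g k).im / tt g) := by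
  rw [pt, div_mul_cancel₀ _ (tt_pos hg).ne', Complex.re_add_im, mul_div_cancel₀ _ (ze_ne g k)]

theorem sig1_rad_cc (hg : 0 < g) {h : ℂ → Surf g ≃ₜ Surf g} (hh : IsRad h) {x : ℂ}
    (hx : nm g x < 1) : h x (cc g) = pr g x := by
  rw [cc, hh.1 x hx 0 (zero_mem_Pol g), nm_zero hg]
  simp

theorem sig1_rad_zero (hg : 0 < g) {h : ℂ → Surf g ≃ₜ Surf g} (hh : IsRad h) : h 0 = 1 :=
  homeo_ext fun z hz => by
    rw [hh.1 0 (by rw [nm_zero hg]; exact one_pos) z hz]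
    simp

theorem sig1_push_zero (hg : 0 < g) {P : ℝ → Surf g ≃ₜ Surf g} (hP : IsPush P) : P 0 = 1 :=
  homeo_ext fun z hz => by
    rcases le_or_gt (tt g) |z.im| with h | h
    · exact (hP.1 0).2 z hz h
    · have e := sig1_coord hg 0 z
      rw [ze_zero, div_one] at e
      have h1 := (re_le_nm g z 0).trans ((mem_Pol hg).1 hz)
      have h2 := (re_le_nm g z (2 * g)).trans ((mem_Pol hg).1 hz)
      rw [ze_zero, div_one] at h1
      rw [ze_two hg, div_neg, div_one, Complex.neg_re] at h2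
      have ha : |z.re| ≤ 1 := abs_le.2 ⟨by linarith, h1⟩
      have hb : |z.im / tt g| ≤ 1 := by
        rw [abs_div, abs_of_pos (tt_pos hg), div_le_one (tt_pos hg)]; exact h.le
      rw [e]
      exact (hP.1 0).1 _ _ _ 0 ha hb ha (by simp)

/-- The properties of the push in the cylinder of side `k`. -/
structure Sig1Push (k : ℤ) (P : ℝ → Surf g ≃ₜ Surf g) : Prop where
  app : ∀ (τ a b a' : ℝ) (n : ℤ), |a| ≤ 1 → |b| ≤ 1 → |a'| ≤ 1 →
    a + τ * (2 * (1 - |b|)) = a' + 2 * n → P τ (pr g (pt g k a b)) = pr g (pt g k a' b)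
  fam : Fam P univ
  zero : P 0 = 1

theorem sig1_push (hg : 0 < g) {R : Surf g ≃ₜ Surf g} {P : ℝ → Surf g ≃ₜ Surf g} (hR : IsRot R)
    (hP : IsPush P) (k : ℕ) : Sig1Push k fun τ => R ^ k * P τ * (R ^ k)⁻¹ := by
  refine ⟨fun τ a b a' n ha hb ha' e => ?_, sig1_fam_right (sig1_fam_left hP.2 _) _, ?_⟩
  · have e1 := hR.pow_pt hg k (sig1_mem hg 0 ha hb)
    have e2 := hR.pow_pt hg k (sig1_mem hg 0 ha' hb)
    rw [zero_add] at e1 e2
    rw [← e1, ← e2, ← Homeomorph.mul_apply, inv_mul_cancel_right, Homeomorph.mul_apply,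
      (hP.1 τ).1 a b a' n ha hb ha' e]
  · rw [sig1_push_zero hg hP]; simp

section Wing

variable (hg : 0 < g) (hF : FibSt g) (hA : FamSt) {K : Subgroup (Surf g ≃ₜ Surf g)}
  (hK : Stable (cc g) K) {h : ℂ → Surf g ≃ₜ Surf g} (hh : IsRad h) {k : ℤ}
  {P : ℝ → Surf g ≃ₜ Surf g} (hP : Sig1Push k P)
include hg hF hA hK hh hP

omit hF hA hK hP in
theorem sig1_fam_pt {α β : ℝ → ℝ} (hα : Continuous α) (hβ : Continuous β)
    (hm : ∀ t ∈ Icc (0 : ℝ) 1, |α t| < 1 ∧ |β t| < 1) :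
    Fam (fun t => h (pt g k (α t) (β t))) (Icc 0 1) :=
  sig1_fam_comp hh.2 ((continuous_pt g k).comp (hα.prodMk hβ)).continuousOn
    fun t ht => sig1_lt hg k (hm t ht).1 (hm t ht).2

/-- The radial family against the push. -/
theorem sig1_rad_push (n : ℤ) (hn : P n ∈ K) {u : ℝ} (hu : |2 * u| < 1) :
    (h (pt g k (2 * u) 0))⁻¹ * P (n + u) ∈ K := by
  have := compactSpace_surf hg
  have := hF.2
  have hm : ∀ t ∈ Icc (0 : ℝ) 1, |2 * u * t| < 1 := fun t ht => by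
    rw [abs_mul, abs_of_nonneg ht.1]
    nlinarith [abs_nonneg (2 * u), ht.1, ht.2]
  have key := sig1_track hA hK (H := fun t => h (pt g k (2 * u * t) 0))
    (H' := fun t => P (n + u * t))
    (sig1_fam_pt hg hh (by fun_prop) (by fun_prop) fun t ht => ⟨hm t ht, by simp⟩)
    (sig1_fam_comp hP.fam (by fun_prop) fun _ _ => trivial) (fun t ht => by
      rw [sig1_rad_cc hg hh (sig1_lt hg k (hm t ht) (by simp)), cc, ← pt_zero g k,
        hP.app _ 0 0 (2 * u * t) n (by simp) (by simp) (hm t ht).le (by simp; ring)])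
    (by simpa [pt_zero, sig1_rad_zero hg hh] using hn)
  simpa using key

/-- The shifted radial family against the push. -/
theorem sig1_push_rad {u : ℝ} (hu : |2 * u| < 1) :
    (P (1 / 2 + u))⁻¹ * (P (1 / 2) * h (pt g k (2 * u) 0)) ∈ K := by
  have := compactSpace_surf hg
  have := hF.2
  have hm : ∀ t ∈ Icc (0 : ℝ) 1, |2 * u * t| < 1 := fun t ht => by
    rw [abs_mul, abs_of_nonneg ht.1]
    nlinarith [abs_nonneg (2 * u), ht.1, ht.2]
  have key := sig1_track hA hK (H := fun t => P (1 / 2 + u * t))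
    (H' := fun t => P (1 / 2) * h (pt g k (2 * u * t) 0))
    (sig1_fam_comp hP.fam (by fun_prop) fun _ _ => trivial)
    (sig1_fam_left (sig1_fam_pt hg hh (by fun_prop) (by fun_prop)
      fun t ht => ⟨hm t ht, by simp⟩) _) (fun t ht => by
      obtain ⟨a', n, ha', e⟩ : ∃ (a' : ℝ) (n : ℤ), |a'| ≤ 1 ∧ 1 + 2 * u * t = a' + 2 * n := by
        have := abs_lt.1 (hm t ht)
        rcases le_total (2 * u * t) 0 with h0 | h0
        · exact ⟨1 + 2 * u * t, 0, abs_le.2 ⟨by linarith, by linarith⟩, by simp⟩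
        · exact ⟨2 * u * t - 1, 1, abs_le.2 ⟨by linarith, by linarith⟩, by simp; ring⟩
      rw [Homeomorph.mul_apply, sig1_rad_cc hg hh (sig1_lt hg k (hm t ht) (by simp)), cc,
        ← pt_zero g k, hP.app _ 0 0 a' n (by simp) (by simp) ha' (by rw [← e]; simp; ring),
        hP.app _ _ 0 a' n (hm t ht).le (by simp) ha' (by rw [← e]; simp; ring)])
    (by simp [pt_zero, sig1_rad_zero hg hh])
  simpa using key

/-- Transport inside a wing. -/
theorem sig1_wing (n : ℤ) {a₀ a b : ℝ}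
    (hm : ∀ t ∈ Icc (0 : ℝ) 1, |a₀ + t * (a - a₀)| < 1 ∧ |t * b| < 1 ∧
      |a₀ + t * (a - a₀) + 1 - |t * b| - 2 * n| < 1)
    (h0 : (h (pt g k (a₀ + 1 - 2 * n) 0))⁻¹ * (P (1 / 2) * h (pt g k a₀ 0)) ∈ K) :
    (h (pt g k (a + 1 - |b| - 2 * n) b))⁻¹ * (P (1 / 2) * h (pt g k a b)) ∈ K := by
  have := compactSpace_surf hg
  have := hF.2
  have key := sig1_track hA hK
    (H := fun t => h (pt g k (a₀ + t * (a - a₀) + 1 - |t * b| - 2 * n) (t * b)))
    (H' := fun t => P (1 / 2) * h (pt g k (a₀ + t * (a - a₀)) (t * b)))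
    (sig1_fam_pt hg hh (by fun_prop) (by fun_prop)
      fun t ht => ⟨(hm t ht).2.2, (hm t ht).2.1⟩)
    (sig1_fam_left (sig1_fam_pt hg hh (by fun_prop) (by fun_prop)
      fun t ht => ⟨(hm t ht).1, (hm t ht).2.1⟩) _) (fun t ht => by
      obtain ⟨m1, m2, m3⟩ := hm t ht
      rw [Homeomorph.mul_apply, sig1_rad_cc hg hh (sig1_lt hg k m3 m2),
        sig1_rad_cc hg hh (sig1_lt hg k m1 m2), hP.app _ _ _ _ n m1.le m2.le m3.le (by ring)])
    (by simpa using h0)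
  simpa using key

theorem sig1_right {a b : ℝ} (ha : |a| < 1) (hb : |b| < 1) (hab : a < |b|) :
    (h (pt g k (a + 1 - |b|) b))⁻¹ * (P (1 / 2) * h (pt g k a b)) ∈ K := by
  have h1 := sig1_rad_push hg hF hA hK hh hP 0 (by simp [hP.zero]) (u := 1 / 4)
    (by rw [abs_lt]; constructor <;> norm_num)
  have h2 := sig1_push_rad hg hF hA hK hh hP (u := -1 / 4)
    (by rw [abs_lt]; constructor <;> norm_num)
  have e1 : ((0 : ℤ) : ℝ) + 1 / 4 = 1 / 2 + -1 / 4 := by norm_num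
  rw [e1] at h1
  have h3 := K.mul_mem h1 h2
  rw [mul_assoc, mul_inv_cancel_left] at h3
  have := sig1_wing hg hF hA hK hh hP 0 (a₀ := 2 * (-1 / 4)) (a := a) (b := b) (fun t ht => ?_)
    (by convert h3 using 4; norm_num)
  · simpa using this
  obtain ⟨t0, t1⟩ := ht
  obtain ⟨a1, a2⟩ := abs_lt.1 ha
  have b0 := abs_nonneg b
  rw [abs_mul t b, abs_of_nonneg t0, Int.cast_zero]
  refine ⟨abs_lt.2 ⟨by nlinarith, by nlinarith⟩, by nlinarith, abs_lt.2 ⟨by nlinarith, ?_⟩⟩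
  rcases t0.eq_or_lt with rfl | t0
  · norm_num
  · nlinarith

theorem sig1_left (h1K : P 1 ∈ K) {a b : ℝ} (ha : |a| < 1) (hb : |b| < 1) (hab : |b| < a) :
    (h (pt g k (a - 1 - |b|) b))⁻¹ * (P (1 / 2) * h (pt g k a b)) ∈ K := by
  have h1 := sig1_rad_push hg hF hA hK hh hP 1 (by simpa using h1K) (u := -1 / 4)
    (by rw [abs_lt]; constructor <;> norm_num)
  have h2 := sig1_push_rad hg hF hA hK hh hP (u := 1 / 4)
    (by rw [abs_lt]; constructor <;> norm_num)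
  have e1 : ((1 : ℤ) : ℝ) + -1 / 4 = 1 / 2 + 1 / 4 := by norm_num
  rw [e1] at h1
  have h3 := K.mul_mem h1 h2
  rw [mul_assoc, mul_inv_cancel_left] at h3
  have := sig1_wing hg hF hA hK hh hP 1 (a₀ := 2 * (1 / 4)) (a := a) (b := b) (fun t ht => ?_)
    (by convert h3 using 4; norm_num)
  · have e2 : a + 1 - |b| - 2 * ((1 : ℤ) : ℝ) = a - 1 - |b| := by push_cast; ring
    rwa [e2] at this
  obtain ⟨t0, t1⟩ := ht
  obtain ⟨a1, a2⟩ := abs_lt.1 ha
  have b0 := abs_nonneg b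
  rw [abs_mul t b, abs_of_nonneg t0, Int.cast_one]
  refine ⟨abs_lt.2 ⟨by nlinarith, by nlinarith⟩, by nlinarith, abs_lt.2 ⟨?_, by nlinarith⟩⟩
  rcases t0.eq_or_lt with rfl | t0
  · norm_num
  · nlinarith

end Wing

/-- The sides through a point. -/
def Sig1A (g : ℕ) (x : Surf g) (k : ℕ) : Prop := ∃ b : ℝ, |b| < 1 ∧ x = pr g (pt g k 1 b)

theorem sig1_side_eq (hg : 0 < g) {k j : ℤ} {b b' : ℝ} (hb : |b| < 1) (hb' : |b'| ≤ 1)
    (e : pt g k 1 b = pt g j 1 b') : j ≡ k [ZMOD (4 * g : ℕ)] := by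
  rcases (pt_eq_pt hg hb.le hb' one_pos e).2 with h | ⟨-, rfl, -⟩ | ⟨-, rfl, -⟩
  · exact h.1
  · simp at hb
  · simp at hb

theorem sig1A_iff (hg : 0 < g) (hF : FibSt g) {x : Surf g} {k : ℕ} (hk : Sig1A g x k) (j : ℕ) :
    Sig1A g x j ↔ (j : ℤ) ≡ k [ZMOD (4 * g : ℕ)] ∨ (j : ℤ) ≡ k + 2 * g [ZMOD (4 * g : ℕ)] := by
  obtain ⟨b, hb, rfl⟩ := hk
  constructor
  · rintro ⟨b', hb', e⟩
    have m1 := pt_mem hg k hb.le le_rfl
    have m2 := pt_mem hg j hb'.le le_rfl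
    rcases (hF.1 _ m1 _ m2).1 e with h | ⟨m, h⟩ | ⟨h, -⟩
    · exact Or.inl (sig1_side_eq hg hb hb'.le h)
    · obtain ⟨b'', hb'', e'⟩ := (glue_iff (k := m) hg).1 ⟨m1, h ▸ m2⟩
      rw [ze_congr hg (sig1_side_eq hg hb hb'' e'), pt_sub hg] at h
      exact Or.inr (sig1_side_eq hg (by rwa [abs_neg]) hb'.le h.symm)
    · exact absurd ((vtx_iff hg hb.le).1 h).2 hb.ne
  · rintro (h | h)
    · exact ⟨b, hb, by rw [pt_congr hg h]⟩
    · exact ⟨-b, by rwa [abs_neg], by rw [pt_congr hg h, pr_side hg k hb.le]⟩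

theorem sig1St (hg : 0 < g) (hF : FibSt g) (hA : FamSt) : Sig1St g := by
  classical
  intro K R h P hK hR hh hP hPK
  obtain ⟨cd, cd1, cd2⟩ := hF.exists_cd hg
  set O : Set (Surf g) := pr g '' {z | nm g z < 1} with hO
  have hOo : IsOpen O :=
    hF.isOpen_inner hg (isOpen_lt (continuous_nm g) continuous_const) fun _ hz => hz
  have cdm : MapsTo cd O {z | nm g z < 1} := by
    rintro _ ⟨z, hz, rfl⟩
    rwa [cd1 z hz]
  have famO : Fam (fun x => h (cd x)) O := sig1_fam_comp hh.2 cd2 cdm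
  let Q : ℕ → Surf g ≃ₜ Surf g := fun k => R ^ k * P (1 / 2) * (R ^ k)⁻¹
  let s : ℕ → Surf g → Surf g ≃ₜ Surf g := fun k x => Q k * h (cd ((Q k)⁻¹ x))
  let κ : Surf g → ℕ := fun x => Classical.epsilon (Sig1A g x)
  let sg : Surf g → Surf g ≃ₜ Surf g := fun x => if x ∈ O then h (cd x) else s (κ x) x
  have sgO : ∀ z, nm g z < 1 → sg (pr g z) = h z := fun z hz => by
    have : pr g z ∈ O := ⟨z, hz, rfl⟩
    simp only [sg, if_pos this, cd1 z hz]
  refine ⟨sg, fun x₀ hx₀ => ?_, ?_⟩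
  swap
  · rw [cc, sgO 0 (by rw [nm_zero hg]; exact one_pos), sig1_rad_zero hg hh]
    exact K.one_mem
  by_cases hx : x₀ ∈ O
  · refine ⟨O, hOo.mem_nhds hx, _, famO, ?_⟩
    rintro _ ⟨z, hz, rfl⟩
    rw [sgO z hz, cd1 z hz, sig1_rad_cc hg hh hz, inv_mul_cancel]
    exact ⟨rfl, K.one_mem⟩
  have hne : ∃ k, Sig1A g x₀ k := by
    obtain ⟨j, a, b, hab, ha, rfl⟩ := pr_surj_pt hg x₀
    obtain rfl : a = 1 := by
      refine ha.eq_or_lt.resolve_right fun ha' => hx ⟨_, ?_, rfl⟩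
      rwa [mem_ofPred_eq, nm_pt hg hab]
    have hb : |b| < 1 := lt_of_le_of_ne hab fun hb =>
      hx₀ ((hF.vtx hg (pt_mem hg j hab le_rfl)).2 ((vtx_iff hg hab).2 ⟨rfl, hb⟩))
    obtain ⟨n, -, hn⟩ := exists_nat_ze hg j
    exact ⟨n, b, hb, by rw [pt, pt, hn]⟩
  have hk : Sig1A g x₀ (κ x₀) := Classical.epsilon_spec hne
  set k := κ x₀ with hkdef
  have hP' := sig1_push hg hR hP k
  have hQ : ∀ (a b a' : ℝ) (n : ℤ), |a| ≤ 1 → |b| ≤ 1 → |a'| ≤ 1 → a + 1 - |b| = a' + 2 * n →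
      Q k (pr g (pt g k a b)) = pr g (pt g k a' b) := fun a b a' n ha hb ha' e =>
    hP'.app (1 / 2) a b a' n ha hb ha' (by rw [← e]; ring)
  let W : Set ℂ := {z | |(z / ze g k).re| < 1 ∧ |(z / ze g k).im / tt g| < 1}
  have hWo : IsOpen W :=
    (isOpen_lt (f := fun z : ℂ => |(z / ze g k).re|) (by fun_prop) continuous_const).inter
      (isOpen_lt (f := fun z : ℂ => |(z / ze g k).im / tt g|) (by fun_prop) continuous_const)
  have hWl : ∀ z ∈ W, nm g z < 1 := fun z hz => by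
    rw [sig1_coord hg k z]; exact sig1_lt hg k hz.1 hz.2
  have hUo : IsOpen (Q k '' (pr g '' W)) := (Q k).isOpenMap _ (hF.isOpen_inner hg hWo hWl)
  have hinv : ∀ y, (Q k)⁻¹ (Q k y) = y := fun y => (Q k).symm_apply_apply y
  refine ⟨Q k '' (pr g '' W), hUo.mem_nhds ?_, s k, ?_, ?_⟩
  · obtain ⟨b, hb, e⟩ := hk
    refine ⟨_, ⟨pt g k |b| b, ?_, rfl⟩, ?_⟩
    · have := (tt_pos hg).ne'
      simpa [W, pt_div, this] using hb
    · rw [e, hQ _ b 1 0 (by simpa using hb.le) hb.le (by simp) (by simp)]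
  · refine sig1_fam_left (sig1_fam_comp famO (Q k)⁻¹.continuous.continuousOn ?_) _
    rintro _ ⟨_, ⟨z, hz, rfl⟩, rfl⟩
    rw [hinv]
    exact ⟨z, hWl z hz, rfl⟩
  rintro _ ⟨_, ⟨z, hz, rfl⟩, rfl⟩
  obtain ⟨a, b, ha, hb, rfl⟩ : ∃ a b : ℝ, |a| < 1 ∧ |b| < 1 ∧ z = pt g k a b :=
    ⟨_, _, hz.1, hz.2, sig1_coord hg k z⟩
  have hs : s k (Q k (pr g (pt g k a b))) = Q k * h (pt g k a b) := by
    simp only [s, hinv, cd1 _ (sig1_lt hg k ha hb)]
  refine ⟨by rw [hs, Homeomorph.mul_apply, sig1_rad_cc hg hh (sig1_lt hg k ha hb)], ?_⟩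
  obtain ⟨a1, a2⟩ := abs_lt.1 ha
  have b0 := abs_nonneg b
  rcases lt_trichotomy a |b| with hab | hab | hab
  · have m : abs (a + 1 - |b|) < 1 := abs_lt.2 ⟨by linarith, by linarith⟩
    rw [hs, hQ a b _ 0 ha.le hb.le m.le (by simp), sgO _ (sig1_lt hg k m hb)]
    exact sig1_right hg hF hA hK hh hP' ha hb hab
  · have e := hQ a b 1 0 ha.le hb.le (by simp) (by simp [hab])
    have hn : Q k (pr g (pt g k a b)) ∉ O := by
      rw [e]
      rintro ⟨z, hz, e'⟩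
      have := hF.inner hg hz (pt_mem hg k hb.le le_rfl) e'
      rw [this, mem_ofPred_eq, nm_pt hg hb.le] at hz
      exact lt_irrefl _ hz
    have hκ : κ (Q k (pr g (pt g k a b))) = k := by
      have hk' : Sig1A g (Q k (pr g (pt g k a b))) k := ⟨b, hb, e⟩
      have : Sig1A g (Q k (pr g (pt g k a b))) = Sig1A g x₀ := by
        funext j
        rw [sig1A_iff hg hF hk', sig1A_iff hg hF hk]
      simp only [κ, this]
      rfl
    simp only [sg, if_neg hn, hκ, inv_mul_cancel]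
    exact K.one_mem
  · have m : abs (a - 1 - |b|) < 1 := abs_lt.2 ⟨by linarith, by linarith⟩
    rw [hs, hQ a b _ 1 ha.le hb.le m.le (by push_cast; ring), sgO _ (sig1_lt hg k m hb)]
    exact sig1_left hg hF hA hK hh hP' (hPK k) ha hb hab

end Pool.Agent.MCG
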