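import Pool.Agent.Lib.MP_c86c76_al.Top.Bas

/-!
Extension of a local system of cosets across the vertex.
-/

set_option autoImplicit false

namespace Pool.Agent.MCG

open Set Topology
open scoped unitInterval

variable {g : ℕ}

theorem sig2_ifam {S : Type} [TopologicalSpace S] {s : S → S ≃ₜ S} {U : Set S} (hs : Fam s U)
    {x y : S} (γ : Path x y) (hγ : ∀ t, γ t ∈ U) : IFam fun t => s (γ t) :=
  ContinuousOn.comp_continuous (f := fun p : I × S => (γ p.1, p.2)) hs (by fun_prop)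
    fun p => ⟨hγ p.1, trivial⟩

/-- The coset of `(s x)⁻¹ * sg x` is locally constant. -/
theorem sig2_loc (hA : FamSt) {S : Type} [TopologicalSpace S] [CompactSpace S] [T2Space S]
    [LocallyPathConnectedSpace S] {c : S} {K : Subgroup (S ≃ₜ S)} (hK : Stable c K)
    {s sg : S → S ≃ₜ S} {U : Set S} (hs : Fam s U) (hc : ∀ x ∈ U, s x c = x) {x₀ : S}
    (hU : U ∈ 𝓝 x₀) (h : LocSec c K sg x₀) :
    ∀ᶠ x in 𝓝 x₀, ((s x₀)⁻¹ * sg x₀)⁻¹ * ((s x)⁻¹ * sg x) ∈ K := by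
  obtain ⟨U', hU', s', hs', h'⟩ := h
  obtain ⟨V, ⟨hV, hp⟩, hsub⟩ := (path_connected_basis x₀).mem_iff.1 (Filter.inter_mem hU hU')
  filter_upwards [hV] with x hx
  have hx₀ := mem_of_mem_nhds hV
  obtain ⟨γ, hγ⟩ := hp.joinedIn x₀ hx₀ x hx
  have h4 := (hA S).2.2.2 c K hK _ _ (sig2_ifam hs γ fun t => (hsub (hγ t)).1)
    (sig2_ifam hs' γ fun t => (hsub (hγ t)).2)
    fun t => by rw [hc _ (hsub (hγ t)).1, (h' _ (hsub (hγ t)).2).1]
  simp only [Path.source, Path.target] at h4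
  have e : ((s x₀)⁻¹ * sg x₀)⁻¹ * ((s x)⁻¹ * sg x) = ((sg x₀)⁻¹ * s' x₀) *
      (((s x₀)⁻¹ * s' x₀)⁻¹ * ((s x)⁻¹ * s' x)) * ((sg x)⁻¹ * s' x)⁻¹ := by group
  rw [e]
  exact K.mul_mem (K.mul_mem (h' _ (hsub hx₀).2).2 h4) (K.inv_mem (h' _ (hsub hx).2).2)

theorem sig2_pre (hg : 0 < g) : IsPreconnected {z : ℂ | z ≠ 0 ∧ nm g z < 1} := by
  have hp : ∀ z, (0 : ℝ) < 1 + nm g z := fun z => by linarith [nm_nonneg hg z]
  have hc : Continuous fun z : ℂ => (((1 + nm g z)⁻¹ : ℝ) : ℂ) * z :=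
    (Complex.continuous_ofReal.comp ((continuous_const.add (continuous_nm g)).inv₀
      fun z => (hp z).ne')).mul continuous_id
  have h0 : IsPreconnected ({0}ᶜ : Set ℂ) :=
    (isConnected_compl_singleton_of_one_lt_rank (by simp) 0).isPreconnected
  convert h0.image _ hc.continuousOn using 1
  ext w
  constructor
  · rintro ⟨h1, h2⟩
    have h3 : 0 < 1 - nm g w := by linarith
    refine ⟨(((1 - nm g w)⁻¹ : ℝ) : ℂ) * w, ?_, ?_⟩
    · exact mul_ne_zero (by exact_mod_cast (inv_pos.2 h3).ne') h1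
    · simp only
      rw [nm_smul hg (inv_pos.2 h3).le, ← mul_assoc, ← Complex.ofReal_mul]
      have : (1 + (1 - nm g w)⁻¹ * nm g w)⁻¹ * (1 - nm g w)⁻¹ = 1 := by
        have := h3.ne'
        rw [← mul_inv, inv_eq_one]
        field_simp
        ring
      rw [this, Complex.ofReal_one, one_mul]
  · rintro ⟨z, hz, rfl⟩
    refine ⟨mul_ne_zero (by exact_mod_cast (inv_pos.2 (hp z)).ne') hz, ?_⟩
    simp only
    rw [nm_smul hg (inv_pos.2 (hp z)).le, inv_mul_lt_iff₀ (hp z)]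
    linarith

theorem sig2St (hg : 0 < g) (hF : FibSt g) (hA : FamSt) : Sig2St g := by
  classical
  intro K h D sg hK hh hD hsg
  have := compactSpace_surf hg
  have := locPath_surf hg
  have := hF.2
  obtain ⟨cd, hcd, hcd'⟩ := hF.exists_cd hg
  have h0 : nm g 0 < 1 := by rw [nm_zero hg]; exact one_pos
  set O : Set (Surf g) := pr g '' {z | nm g z < 1} with hO
  have hOo : IsOpen O :=
    hF.isOpen_inner hg (isOpen_lt (continuous_nm g) continuous_const) fun _ hz => hz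
  set U : Set (Surf g) := D ⁻¹' O with hU
  have hUo : IsOpen U := hOo.preimage D.continuous
  set s : Surf g → Surf g ≃ₜ Surf g := fun x => D * h (cd (D x)) with hs
  have hsF : Fam s U := by
    refine D.continuous.comp_continuousOn (ContinuousOn.comp
      (f := fun p : Surf g × Surf g => (cd (D p.1), p.2)) hh.2 ?_ ?_)
    · exact (hcd'.comp (f := fun p : Surf g × Surf g => D p.1) (by fun_prop)
        fun p hp => hp.1).prodMk continuousOn_snd
    · rintro p ⟨⟨z, hz, e⟩, -⟩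
      refine ⟨?_, trivial⟩
      change nm g (cd (D p.1)) < 1
      rw [← e, hcd z hz]
      exact hz
  have hsc : ∀ x ∈ U, s x (cc g) = x := by
    rintro x ⟨z, hz, e⟩
    change D (h (cd (D x)) (pr g 0)) = x
    rw [← e, hcd z hz, hh.1 z hz 0 (zero_mem_Pol g), nm_zero hg, sub_zero, Complex.ofReal_one,
      one_mul, zero_add, e, hD.1]
  set W : Set (Surf g) := (fun z => D (pr g z)) '' {z : ℂ | z ≠ 0 ∧ nm g z < 1} with hW
  have hWp : IsPreconnected W :=
    (sig2_pre hg).image _ (D.continuous.comp (continuous_pr hg)).continuousOn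
  have hWU : ∀ x, x ∈ W ↔ x ∈ U ∧ x ≠ vv g := by
    intro x
    constructor
    · rintro ⟨z, ⟨h1, h2⟩, rfl⟩
      refine ⟨⟨z, h2, (hD.1 _).symm⟩, fun e => h1 ?_⟩
      rw [← hD.cc] at e
      exact (hF.centre hg ((mem_Pol hg).2 h2.le)).1 (D.injective e)
    · rintro ⟨⟨z, hz, e⟩, h1⟩
      refine ⟨z, ⟨?_, hz⟩, by simp only [e, hD.1]⟩
      rintro rfl
      exact h1 (by rw [← hD.1 x, ← e]; exact hD.cc)
  have hcv : cc g ≠ vv g := fun e => h0.ne (nm_vtx hg ((hF.vtx hg (zero_mem_Pol g)).1 e))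
  have hconst : ∀ x ∈ W, ∀ y ∈ W, ((s x)⁻¹ * sg x)⁻¹ * ((s y)⁻¹ * sg y) ∈ K := by
    intro x hx y hy
    refine hWp.induction₂' (fun x y => ((s x)⁻¹ * sg x)⁻¹ * ((s y)⁻¹ * sg y) ∈ K) ?_ ?_ hx hy
    · intro x hx
      obtain ⟨h1, h2⟩ := (hWU x).1 hx
      refine (sig2_loc hA hK hsF hsc (hUo.mem_nhds h1) (hsg x h2)).filter_mono nhdsWithin_le_nhds
        |>.mono fun y hy => ⟨hy, ?_⟩
      have := K.inv_mem hy
      rwa [mul_inv_rev, inv_inv] at this
    · intro a b c _ _ _ h1 h2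
      have := K.mul_mem h1 h2
      rwa [mul_assoc, mul_inv_cancel_left] at this
  have hx1 : D (pr g (pt g 0 (1 / 2) 0)) ∈ W := by
    have e : nm g (pt g 0 (1 / 2) 0) = 1 / 2 := nm_pt hg (by simp)
    refine ⟨_, ⟨fun h1 => ?_, by rw [e]; norm_num⟩, rfl⟩
    rw [h1, nm_zero hg] at e
    norm_num at e
  set x1 := D (pr g (pt g 0 (1 / 2) 0)) with hx1'
  obtain ⟨U1, hU1, s1, -, h1⟩ := hsg x1 ((hWU x1).1 hx1).2
  obtain ⟨h2, h3⟩ := h1 x1 (mem_of_mem_nhds hU1)
  set c0 := (s x1)⁻¹ * s1 x1 with hc0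
  have hc0c : c0 (cc g) = cc g := by
    apply (s x1).injective
    rw [← Homeomorph.mul_apply, hc0, mul_inv_cancel_left, h2, hsc x1 ((hWU x1).1 hx1).1]
  refine ⟨Function.update sg (vv g) (s (vv g) * c0), fun x => ?_, Function.update_of_ne hcv _ _⟩
  by_cases hx : x = vv g
  · subst hx
    refine ⟨U, hUo.mem_nhds ⟨0, h0, hD.vv.symm⟩, fun x => s x * c0, ?_, fun x hx => ⟨?_, ?_⟩⟩
    · exact ContinuousOn.comp (f := fun p : Surf g × Surf g => (p.1, c0 p.2)) hsF (by fun_prop)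
        fun p hp => ⟨hp.1, trivial⟩
    · rw [Homeomorph.mul_apply, hc0c, hsc x hx]
    · by_cases hv : x = vv g
      · subst hv
        rw [Function.update_self, inv_mul_cancel]
        exact K.one_mem
      · rw [Function.update_of_ne hv]
        have e : (sg x)⁻¹ * (s x * c0) =
            (((s x)⁻¹ * sg x)⁻¹ * ((s x1)⁻¹ * sg x1)) * ((sg x1)⁻¹ * s1 x1) := by
          rw [hc0]; group
        rw [e]
        exact K.mul_mem (hconst x ((hWU x).2 ⟨hx, hv⟩) x1 hx1) h3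
  · obtain ⟨V, hV, s', hs', h'⟩ := hsg x hx
    refine ⟨V ∩ {vv g}ᶜ, Filter.inter_mem hV (isOpen_compl_singleton.mem_nhds hx), s',
      ContinuousOn.mono hs' (prod_mono inter_subset_left subset_rfl), fun y hy => ?_⟩
    rw [Function.update_of_ne hy.2]
    exact h' y hy.1

end Pool.Agent.MCG
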