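import Pool.Agent.Lib.MP_c86c76_al.Top.Asm
import Pool.Agent.Lib.MP_c86c76_al.Top.Bir
import Pool.Agent.Lib.MP_c86c76_al.Top.Dual
import Pool.Agent.Lib.MP_c86c76_al.Top.ECov
import Pool.Agent.Lib.MP_c86c76_al.Top.ELift
import Pool.Agent.Lib.MP_c86c76_al.Top.Fam
import Pool.Agent.Lib.MP_c86c76_al.Top.Fib
import Pool.Agent.Lib.MP_c86c76_al.Top.Heis
import Pool.Agent.Lib.MP_c86c76_al.Top.Per
import Pool.Agent.Lib.MP_c86c76_al.Top.PhiR
import Pool.Agent.Lib.MP_c86c76_al.Top.PhiT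
import Pool.Agent.Lib.MP_c86c76_al.Top.Push
import Pool.Agent.Lib.MP_c86c76_al.Top.Rad
import Pool.Agent.Lib.MP_c86c76_al.Top.Sh
import Pool.Agent.Lib.MP_c86c76_al.Top.Side
import Pool.Agent.Lib.MP_c86c76_al.Top.Sig1
import Pool.Agent.Lib.MP_c86c76_al.Top.Sig2
import Pool.Agent.Lib.MP_c86c76_al.NotT.General

/-!
A homomorphism on the automorphisms that preserve the class of the boundary word, trivial on inner
automorphisms and on point pushes, descends to a finite-index subgroup of the mapping class group.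
-/

set_option autoImplicit false

namespace Pool.Agent.MCG

theorem top_main {g : ℕ} (hg : 0 < g) {A : Type} [Group A] (Φ : AutC g →* A)
    (h1 : ∀ w, Φ ⟨MulAut.conj w, conj_mem_AutC g w⟩ = 1)
    (h2 : Commute (Φ ⟨rho g, rho_mem g⟩ ^ (2 * g)) (Φ ⟨tau g, tau_mem g⟩)) :
    ∃ M : Subgroup (ModPM (Surf g)), M.FiniteIndex ∧ ∃ (Ψ : M →* A) (a b : M),
      Ψ a = Φ ⟨rho g, rho_mem g⟩ ∧ Ψ b = Φ ⟨tau g, tau_mem g⟩ ∧ a ^ (4 * g) = 1 ∧
      b.1 ∈ ModP (Surf g) :=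
  have hF := fibSt hg
  have hC := eCovSt hg hF
  top_of hg hF famSt (birSt famSt) (radSt hg hF) (shSt hg) (dualSt hg hF) (pushSt hg)
    (sig1St hg hF famSt) (sig2St hg hF famSt) hC eLiftSt (perSt hg hF (eFibSt hg)) (heisSt hg)
    (phiRSt hg hF hC eLiftSt) (phiTSt hg hF hC eLiftSt sideSt) Φ h1 h2

theorem pow_mem_of_closure {G : Type} [Group G] (N : Subgroup G) [N.Normal] {a b x : G} {m : ℕ}
    (ha : a ^ m = 1) (hb : b ∈ N) (hx : x ∈ Subgroup.closure {a, b}) : x ^ m ∈ N := by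
  have : Subgroup.closure {a, b} ≤
      (Subgroup.zpowers (QuotientGroup.mk' N a)).comap (QuotientGroup.mk' N) := by
    rw [Subgroup.closure_le]
    rintro _ (rfl | rfl)
    · exact Subgroup.mem_zpowers _
    · exact ⟨0, (zpow_zero _).trans ((QuotientGroup.eq_one_iff _).2 hb).symm⟩
  obtain ⟨k, hk⟩ := this hx
  rw [← QuotientGroup.eq_one_iff, ← QuotientGroup.mk'_apply, map_pow, ← hk, ← zpow_natCast,
    ← zpow_mul, mul_comm, zpow_mul, zpow_natCast, ← map_pow, ha, map_one, one_zpow]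

/-- The interface to the algebraic part. -/
theorem notT_of {g : ℕ} (hg : 0 < g) {A : Type} [Group A] (Φ : AutC g →* A)
    (h1 : ∀ w, Φ ⟨MulAut.conj w, conj_mem_AutC g w⟩ = 1)
    (h2 : Commute (Φ ⟨rho g, rho_mem g⟩ ^ (2 * g)) (Φ ⟨tau g, tau_mem g⟩))
    (K : Subgroup A) [K.FiniteIndex] (χ : K →* Multiplicative ℤ) (γ : K) (hχ : χ γ ≠ 1)
    (hγ : γ.1 ∈ Subgroup.closure {Φ ⟨rho g, rho_mem g⟩, Φ ⟨tau g, tau_mem g⟩})
    (Γ : Subgroup (ModPM (Surf g))) (hΓ : Γ.relIndex (ModP (Surf g)) ≠ 0)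
    (S : Finset Γ) (ε : ℝ) (hε : 0 < ε) :
    ∃ (H : Type) (_ : NormedAddCommGroup H) (_ : InnerProductSpace ℂ H) (_ : CompleteSpace H)
      (π : Γ →* (H ≃ₗᵢ[ℂ] H)) (v : H), ‖v‖ = 1 ∧ (∀ s ∈ S, ‖π s v - v‖ < ε) ∧
      ∀ w : H, (∀ x, π x w = w) → w = 0 := by
  obtain ⟨M, hM, Ψ, a, b, ha, hb, ha', hb'⟩ := top_main hg Φ h1 h2
  rw [← ha, ← hb, ← Set.image_pair, ← MonoidHom.map_closure] at hγ
  obtain ⟨x, hx, e⟩ := hγ
  have : (ModP (Surf g)).Normal := Subgroup.normalClosure_normal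
  have i1 : x ^ (4 * g) ∈ (ModP (Surf g)).subgroupOf M := pow_mem_of_closure _ ha' hb' hx
  obtain ⟨n, hn, -, i2⟩ := Subgroup.exists_pow_mem_of_relIndex_ne_zero hΓ i1
  let L : Subgroup (ModPM (Surf g)) := (K.comap Ψ).map M.subtype
  have hL : L.FiniteIndex := ⟨by
    rw [Subgroup.index_map_subtype]
    refine mul_ne_zero ?_ hM.index_ne_zero
    rw [Subgroup.index_comap]
    exact Subgroup.FiniteIndex.index_ne_zero⟩
  have hm : ∀ y : L.subgroupOf Γ, y.1.1 ∈ M := fun y => Subgroup.map_subtype_le _ y.2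
  have hk : ∀ y : L.subgroupOf Γ, Ψ ⟨y.1.1, hm y⟩ ∈ K := fun y => by
    obtain ⟨z, hz, e⟩ := y.2
    have : z = ⟨y.1.1, hm y⟩ := Subtype.ext e
    exact this ▸ hz
  let φ : L.subgroupOf Γ →* K := MonoidHom.mk' (fun y => ⟨_, hk y⟩) fun y z =>
    Subtype.ext (map_mul Ψ ⟨y.1.1, hm y⟩ ⟨z.1.1, hm z⟩)
  have e' : Ψ ((x ^ (4 * g)) ^ n) = (γ ^ (4 * g * n) : K) := by
    rw [← pow_mul, map_pow, e, SubgroupClass.coe_pow]
  let y : L.subgroupOf Γ := ⟨⟨_, i2.1⟩, (x ^ (4 * g)) ^ n, by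
    rw [SetLike.mem_coe, Subgroup.mem_comap, e']
    exact Subtype.prop _, rfl⟩
  have hy : φ y = γ ^ (4 * g * n) := Subtype.ext e'
  refine Lib.MP_c86c76_al.NotT.almost_of_virtual (L.subgroupOf Γ) (χ.comp φ) y ?_ S ε hε
  rw [MonoidHom.comp_apply, hy, map_pow]
  exact fun h => hχ ((pow_eq_one_iff_left (by positivity)).1 h)

end Pool.Agent.MCG
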