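import Mathlib

/-!
The free group of rank `2g`, the boundary word, and the two automorphisms induced by the rotation
and by the cylinder twist of the regular `4g`-gon.
-/

set_option autoImplicit false

namespace Pool.Agent.MCG

/-- The free group of rank `2g`. -/
abbrev FG (g : ℕ) : Type := FreeGroup (Fin (2 * g))

/-- The side letters, `xx (k + 2g) = (xx k)⁻¹`. -/
def xx (g : ℕ) (k : ℤ) : FG g :=
  if h : (k % (4 * g : ℕ)).toNat < 2 * g then FreeGroup.of ⟨_, h⟩
  else if h' : (k % (4 * g : ℕ)).toNat - 2 * g < 2 * g then (FreeGroup.of ⟨_, h'⟩)⁻¹ else 1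

/-- `xx a * xx (a + 1) * ... * xx (a + n - 1)`. -/
def xw (g : ℕ) (a : ℤ) (n : ℕ) : FG g := ((List.range n).map fun i : ℕ => xx g (a + i)).prod

/-- The boundary word. -/
def rr (g : ℕ) : FG g := xw g 0 (4 * g)

/-- Automorphisms that preserve the conjugacy class of the boundary word. -/
def AutC (g : ℕ) : Subgroup (MulAut (FG g)) where
  carrier := {φ | IsConj (φ (rr g)) (rr g)}
  one_mem' := IsConj.refl _
  mul_mem' := by
    intro a b ha hb
    exact ((a : FG g →* FG g).map_isConj hb).trans ha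
  inv_mem' := by
    intro a ha
    have := ((a⁻¹ : MulAut (FG g)) : FG g →* FG g).map_isConj ha
    simp only [MonoidHom.coe_coe, MulAut.inv_apply_self] at this
    exact this.symm

theorem conj_mem_AutC (g : ℕ) (w : FG g) : MulAut.conj w ∈ AutC g :=
  (isConj_iff.2 ⟨w, rfl⟩ : IsConj (rr g) (w * rr g * w⁻¹)).symm

theorem fg_zero (a b : FG 0) : a = b :=
  haveI : IsEmpty (Fin (2 * 0)) := ⟨fun i => absurd i.2 (by omega)⟩
  Subsingleton.elim a b

theorem xx_of (g : ℕ) (i : Fin (2 * g)) : xx g (i : ℕ) = FreeGroup.of i := by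
  have h1 : ((i : ℕ) : ℤ) % (4 * g : ℕ) = (i : ℕ) :=
    Int.emod_eq_of_lt (by omega) (by have := i.2; omega)
  unfold xx
  simp only [h1, Int.toNat_natCast]
  rw [dif_pos i.2]

theorem xx_congr (g : ℕ) {k j : ℤ} (h : k ≡ j [ZMOD (4 * g : ℕ)]) : xx g k = xx g j := by
  unfold xx
  have h' : k % (4 * g : ℕ) = j % (4 * g : ℕ) := h
  simp only [h']

theorem xx_add_four (g : ℕ) (k : ℤ) : xx g (k + 4 * g) = xx g k := by
  apply xx_congr
  have : (k + 4 * g : ℤ) = k + ((4 * g : ℕ) : ℤ) := by push_cast; ring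
  rw [this]
  exact Int.add_modEq_right

theorem xx_add_two (g : ℕ) (k : ℤ) : xx g (k + 2 * g) = (xx g k)⁻¹ := by
  rcases Nat.eq_zero_or_pos g with rfl | hg
  · exact fg_zero _ _
  have hN : (0 : ℤ) < (4 * g : ℕ) := by omega
  have h0 := Int.emod_nonneg k hN.ne'
  have h1 := Int.emod_lt_of_pos k hN
  obtain ⟨j, hj⟩ := Int.eq_ofNat_of_zero_le h0
  have hk : k ≡ j [ZMOD (4 * g : ℕ)] := by
    rw [← hj]; exact (Int.mod_modEq _ _).symm
  rw [xx_congr g hk, xx_congr g (hk.add_right (2 * g : ℤ))]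
  have hj4 : j < 4 * g := by omega
  have e1 : (j : ℤ) % (4 * g : ℕ) = j := Int.emod_eq_of_lt (by omega) (by omega)
  by_cases h : j < 2 * g
  · have e2 : ((j : ℤ) + 2 * g) % (4 * g : ℕ) = (j + 2 * g : ℕ) := by
      rw [Int.emod_eq_of_lt (by omega) (by omega)]; push_cast; ring
    unfold xx
    simp only [e1, e2, Int.toNat_natCast]
    rw [dif_neg (by omega), dif_pos (by omega), dif_pos h]
    simp
  · have e2 : ((j : ℤ) + 2 * g) % (4 * g : ℕ) = (j - 2 * g : ℕ) := by
      have : ((j : ℤ) + 2 * g) = ((j - 2 * g : ℕ) : ℤ) + ((4 * g : ℕ) : ℤ) := by omega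
      rw [this, Int.add_emod_right, Int.emod_eq_of_lt (by omega) (by omega)]
    unfold xx
    simp only [e1, e2, Int.toNat_natCast]
    rw [dif_pos (by omega), dif_neg h, dif_pos (by omega)]
    simp

theorem xw_zero (g : ℕ) (a : ℤ) : xw g a 0 = 1 := rfl

theorem xw_succ (g : ℕ) (a : ℤ) (n : ℕ) : xw g a (n + 1) = xw g a n * xx g (a + n) := by
  simp [xw, List.range_succ]

theorem xw_add (g : ℕ) (a : ℤ) (m n : ℕ) : xw g a (m + n) = xw g a m * xw g (a + m) n := by
  induction n with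
  | zero => simp [xw_zero]
  | succ n ih => rw [← add_assoc, xw_succ, xw_succ, ih, mul_assoc]; push_cast; rw [add_assoc]

theorem xw_succ' (g : ℕ) (a : ℤ) (n : ℕ) : xw g a (n + 1) = xx g a * xw g (a + 1) n := by
  rw [add_comm n 1, xw_add]; simp [xw]

/-- A homomorphism is determined by, and shifts along, the letters. -/
theorem map_xx {g : ℕ} {G : Type*} [Group G] (f : FG g →* G) (y : ℤ → G)
    (h2 : ∀ k, y (k + 2 * g) = (y k)⁻¹) (h : ∀ i : Fin (2 * g), f (FreeGroup.of i) = y (i : ℕ))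
    (hg : 0 < g) (k : ℤ) : f (xx g k) = y k := by
  have key : ∀ n : ℤ, ∀ j : ℤ, (f (xx g j) = y j) → f (xx g (j + 2 * g * n)) = y (j + 2 * g * n) := by
    intro n
    induction n using Int.induction_on with
    | zero => intro j hj; simpa using hj
    | succ n ih =>
      intro j hj
      have : j + 2 * g * ((n : ℤ) + 1) = (j + 2 * g * n) + 2 * g := by ring
      rw [this, xx_add_two, h2, map_inv, ih j hj]
    | pred n ih =>
      intro j hj
      have e : j + 2 * g * (-(n : ℤ)) = (j + 2 * g * (-(n : ℤ) - 1)) + 2 * g := by ring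
      have := ih j hj
      rw [e, xx_add_two, h2, map_inv, inv_inj] at this
      exact this
  have hN : (0 : ℤ) < 2 * g := by omega
  have h0 := Int.emod_nonneg k hN.ne'
  have h1 := Int.emod_lt_of_pos k hN
  obtain ⟨j, hj⟩ := Int.eq_ofNat_of_zero_le h0
  have := key (k / (2 * g)) j (by
    have := h ⟨j, by omega⟩
    rwa [← xx_of] at this)
  rwa [← hj, Int.emod_add_mul_ediv] at this

/-- The shift of the letters by `a`. -/
def shf (g : ℕ) (a : ℤ) : FG g →* FG g := FreeGroup.lift fun i => xx g ((i : ℕ) + a)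

theorem shf_xx {g : ℕ} (hg : 0 < g) (a k : ℤ) : shf g a (xx g k) = xx g (k + a) :=
  map_xx (shf g a) (fun k => xx g (k + a))
    (fun k => by rw [← xx_add_two]; congr 1; ring) (fun i => by simp [shf]) hg k

theorem shf_comp (g : ℕ) (a : ℤ) : (shf g (-a)).comp (shf g a) = MonoidHom.id _ := by
  ext i
  have hg : 0 < g := by have := i.2; omega
  simp only [MonoidHom.comp_apply, MonoidHom.id_apply]
  rw [← xx_of, shf_xx hg, shf_xx hg]
  simp

/-- The automorphism induced by the rotation. -/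
def rho (g : ℕ) : MulAut (FG g) :=
  MonoidHom.toMulEquiv (shf g 1) (shf g (-1)) (shf_comp g 1)
    (by simpa using shf_comp g (-1))

theorem rho_xx {g : ℕ} (hg : 0 < g) (k : ℤ) : rho g (xx g k) = xx g (k + 1) := shf_xx hg 1 k

theorem rho_xw {g : ℕ} (hg : 0 < g) (a : ℤ) (n : ℕ) : rho g (xw g a n) = xw g (a + 1) n := by
  induction n with
  | zero => simp [xw_zero]
  | succ n ih => rw [xw_succ, xw_succ, map_mul, ih, rho_xx hg]; congr 2; ring

theorem rho_mem (g : ℕ) : rho g ∈ AutC g := by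
  rcases Nat.eq_zero_or_pos g with rfl | hg
  · have : rho 0 (rr 0) = rr 0 := fg_zero _ _
    change IsConj _ _
    rw [this]
  change IsConj _ _
  refine isConj_iff.2 ⟨xx g 0, ?_⟩
  have h1 := xw_succ g 0 (4 * g)
  have h2 := xw_succ' g 0 (4 * g)
  have h3 : xx g (0 + (4 * g : ℕ)) = xx g 0 := by
    rw [← xx_add_four g 0]; push_cast; rfl
  rw [rr, rho_xw hg, ← h2, h1, h3]
  simp

/-- Right multiplication of the first letter by `w`. -/
def tw (g : ℕ) (w : FG g) : FG g →* FG g :=
  FreeGroup.lift fun i => if (i : ℕ) = 0 then FreeGroup.of i * w else FreeGroup.of i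

theorem tw_xw {g : ℕ} (w : FG g) (n : ℕ) (hn : n + 1 ≤ 2 * g) :
    tw g w (xw g 1 n) = xw g 1 n := by
  induction n with
  | zero => simp [xw_zero]
  | succ n ih =>
    rw [xw_succ, map_mul, ih (by omega)]
    congr 1
    have : (1 + n : ℤ) = ((⟨n + 1, by omega⟩ : Fin (2 * g)) : ℕ) := by push_cast; ring
    rw [this, xx_of]
    simp [tw]

theorem tw_comp (g : ℕ) (w : FG g) (h : tw g w⁻¹ w = w) :
    (tw g w⁻¹).comp (tw g w) = MonoidHom.id _ := by
  ext i
  by_cases hi : (i : ℕ) = 0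
  · have : tw g w (FreeGroup.of i) = FreeGroup.of i * w := by simp [tw, hi]
    simp only [MonoidHom.comp_apply, MonoidHom.id_apply, this, map_mul, h]
    simp [tw, hi]
  · simp [tw, hi]

/-- The automorphism induced by the twist: `xx 0 ↦ xx 0 * xx 1 * ... * xx (2g - 1)`. -/
def tau (g : ℕ) : MulAut (FG g) :=
  MonoidHom.toMulEquiv (tw g (xw g 1 (2 * g - 1))) (tw g (xw g 1 (2 * g - 1))⁻¹)
    (by
      rcases Nat.eq_zero_or_pos g with rfl | hg
      · ext i; exact absurd i.2 (by omega)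
      · exact tw_comp g _ (tw_xw _ _ (by omega)))
    (by
      rcases Nat.eq_zero_or_pos g with rfl | hg
      · ext i; exact absurd i.2 (by omega)
      · have := tw_comp g (xw g 1 (2 * g - 1))⁻¹
          (by rw [map_inv, tw_xw _ _ (by omega)])
        simpa using this)

theorem tau_of (g : ℕ) (i : Fin (2 * g)) : tau g (FreeGroup.of i) =
    if (i : ℕ) = 0 then FreeGroup.of i * xw g 1 (2 * g - 1) else FreeGroup.of i := by
  change tw g (xw g 1 (2 * g - 1)) (FreeGroup.of i) = _
  simp [tw]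

theorem tau_rr (g : ℕ) : tau g (rr g) = rr g := by
  rcases Nat.eq_zero_or_pos g with rfl | hg
  · exact fg_zero _ _
  have h0 : tau g (xx g 0) = xx g 0 * xw g 1 (2 * g - 1) := by
    have := tau_of g ⟨0, by omega⟩
    rw [← xx_of] at this
    simpa using this
  have hA : tau g (xw g 1 (2 * g - 1)) = xw g 1 (2 * g - 1) := tw_xw _ _ (by omega)
  have hB : ∀ n, n + 1 ≤ 2 * g → tau g (xw g (1 + 2 * g) n) = xw g (1 + 2 * g) n := by
    intro n hn
    induction n with
    | zero => simp [xw_zero]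
    | succ n ih =>
      rw [xw_succ, map_mul, ih (by omega)]
      congr 1
      have e : (1 + 2 * g + n : ℤ) = ((⟨n + 1, by omega⟩ : Fin (2 * g)) : ℕ) + 2 * g := by
        push_cast; ring
      rw [e, xx_add_two, xx_of, map_inv, tau_of]
      simp
  have e : rr g = xx g 0 * xw g 1 (2 * g - 1) * ((xx g 0)⁻¹ * xw g (1 + 2 * g) (2 * g - 1)) := by
    have e1 : 4 * g = (2 * g - 1 + 1) + (2 * g - 1 + 1) := by omega
    have e2 : ((2 * g - 1 + 1 : ℕ) : ℤ) = 2 * g := by omega
    rw [rr, e1, xw_add, xw_succ', xw_succ', e2, xx_add_two]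
    congr 3
    ring
  conv_lhs => rw [e]
  simp only [map_mul, map_inv, h0, hA, hB _ (by omega : 2 * g - 1 + 1 ≤ 2 * g)]
  rw [e]
  group

theorem tau_mem (g : ℕ) : tau g ∈ AutC g := by
  change IsConj _ _
  rw [tau_rr]

end Pool.Agent.MCG
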