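import Pool.Agent.Lib.MP_c86c76_al.Top.Bas
import Pool.Agent.Lib.MP_c86c76_al.Top.Lift

/-!
Assembly of the topological part.
-/

set_option autoImplicit false

namespace Pool.Agent.MCG

open Set Topology
open scoped unitInterval

variable {g : ℕ}

theorem finiteIndex_of_two {G : Type*} [Group G] (M : Subgroup G)
    (h : ∀ a b : G, a ∉ M → b ∉ M → a⁻¹ * b ∈ M) : M.FiniteIndex := by
  have : Finite (G ⧸ M) := by
    refine Finite.of_injective (fun c : G ⧸ M => c.out ∈ M) fun c d e => ?_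
    rw [← c.out_eq', ← d.out_eq', QuotientGroup.eq]
    by_cases hc : c.out ∈ M
    · exact M.mul_mem (M.inv_mem hc) (Eq.mp e hc)
    · exact h _ _ hc fun hd => hc (Eq.mpr e hd)
  exact Subgroup.finiteIndex_of_finite_quotient

/-- Homeomorphisms that fix `c` and preserve the class of the boundary word. -/
def gp {E S : Type} [MulAction (FG g) E] [TopologicalSpace E] [TopologicalSpace S]
    [PreconnectedSpace E] {q : E → S} {c : S} (hq : Cov (FG g) q c) {e₀ : E} (hl : HasLifts e₀) :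
    Subgroup (S ≃ₜ S) where
  carrier := {f | f c = c ∧ ∃ φ : AutC g, Ind q f (φ : MulAut (FG g))}
  one_mem' := ⟨rfl, 1, ind_one⟩
  mul_mem' := by
    rintro a b ⟨a1, φ, a2⟩ ⟨b1, ψ, b2⟩
    exact ⟨by rw [Homeomorph.mul_apply, b1, a1], φ * ψ, a2.mul b2⟩
  inv_mem' := by
    rintro a ⟨a1, φ, a2⟩
    exact ⟨a.symm_apply_eq.2 a1.symm, φ⁻¹, hq.ind_inv hl a1 a2⟩

theorem exists_psi {E S A : Type} [Group A] [MulAction (FG g) E] [TopologicalSpace E]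
    [TopologicalSpace S] [PreconnectedSpace E] {q : E → S} {c : S} (hq : Cov (FG g) q c) {e₀ : E}
    (hl : HasLifts e₀) (Φ : AutC g →* A)
    (h1 : ∀ w, Φ ⟨MulAut.conj w, conj_mem_AutC g w⟩ = 1) :
    ∃ ψ : gp hq hl →* A, ∀ (f : gp hq hl) (φ : AutC g), Ind q f.1 (φ : MulAut (FG g)) →
      ψ f = Φ φ := by
  have key : ∀ (f : S ≃ₜ S) (φ φ' : AutC g), Ind q f (φ : MulAut (FG g)) →
      Ind q f (φ' : MulAut (FG g)) → Φ φ = Φ φ' := fun f φ φ' a b => by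
    obtain ⟨w, hw⟩ := hq.ind_unique e₀ a b
    have : φ' = ⟨MulAut.conj w, conj_mem_AutC g w⟩ * φ := Subtype.ext hw
    rw [this, map_mul, h1, one_mul]
  choose u hu using fun f : gp hq hl => f.2.2
  exact ⟨MonoidHom.mk' (fun f => Φ (u f)) fun a b => by
    rw [← map_mul]
    exact key _ _ _ (hu (a * b)) ((hu a).mul (hu b)), fun f φ h => key _ _ _ (hu f) h⟩

theorem IsRot.pow_four (hg : 0 < g) {R : Surf g ≃ₜ Surf g} (hR : IsRot R) : R ^ (4 * g) = 1 :=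
  homeo_ext fun z hz => by
    rw [hR.pow hg _ hz, ze_congr hg (j := 0) (Int.modEq_zero_iff_dvd.2 dvd_rfl), ze_zero, one_mul]
    rfl

theorem IsTw.near (hg : 0 < g) (hF : FibSt g) {T : Surf g ≃ₜ Surf g} (hT : IsTw T) :
    ∀ᶠ y in 𝓝 (pr g (pt g 0 0 (-1 / 2))), T y = y := by
  have ht := tt_pos hg
  have hO : IsOpen ({z | nm g z < 1} ∩ {z : ℂ | -tt g < z.im ∧ z.im < 0}) :=
    (isOpen_lt (continuous_nm g) continuous_const).inter
      ((isOpen_lt continuous_const Complex.continuous_im).inter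
        (isOpen_lt Complex.continuous_im continuous_const))
  have h0 : nm g (pt g 0 0 (-1 / 2)) ≤ 1 / 2 :=
    nm_rect hg 0 (by norm_num) (by rw [abs_le]; constructor <;> norm_num)
  refine Filter.mem_of_superset
    ((isOpen_pr hO fun z _ w hw e h => hF.inner hg h.1 hw e ▸ h).mem_nhds
      ⟨_, ⟨⟨h0.trans_lt (by norm_num), ?_⟩, (mem_Pol hg).2 (h0.trans (by norm_num))⟩, rfl⟩) ?_
  · simp only [pt, ze_zero, one_mul, Complex.add_im, Complex.ofReal_im, Complex.im_ofReal_mul,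
      Complex.I_im, mem_setOf_eq]
    constructor <;> linarith
  rintro _ ⟨z, ⟨⟨-, h1, h2⟩, hz⟩, rfl⟩
  have e : z = pt g 0 z.re (z.im / tt g) := by
    rw [pt, ze_zero, one_mul, div_mul_cancel₀ _ ht.ne', Complex.re_add_im]
  have ha : |z.re| ≤ 1 := by
    have i1 := (re_le_nm g z 0).trans ((mem_Pol hg).1 hz)
    have i2 := (re_le_nm g z (2 * g)).trans ((mem_Pol hg).1 hz)
    rw [ze_zero, div_one] at i1
    rw [ze_two hg, div_neg, div_one, Complex.neg_re] at i2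
    exact abs_le.2 ⟨by linarith, i1⟩
  have hb : z.im / tt g < 0 := div_neg_of_neg_of_pos h2 ht
  have := hT.1 z.re (z.im / tt g) z.re 1 ha
    (by rw [abs_div, abs_of_pos ht, div_le_one ht, abs_le]; constructor <;> linarith) ha
    (by simp only [min_eq_left (show (1 : ℝ) ≤ 1 - z.im / tt g by linarith)]; norm_num)
  rwa [← e] at this

theorem top_of (hg : 0 < g) (hF : FibSt g) (hA : FamSt) (hB : BirSt) (hRad : RadSt g)
    (hSh : ShSt g) (hDual : DualSt g) (hPush : PushSt g) (hS1 : Sig1St g) (hS2 : Sig2St g)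
    (hC : ECovSt g) (hL : ELiftSt g) (hP : PerSt g) (hH : HeisSt g) (hR : PhiRSt g)
    (hT : PhiTSt g) {A : Type} [Group A] (Φ : AutC g →* A)
    (h1 : ∀ w, Φ ⟨MulAut.conj w, conj_mem_AutC g w⟩ = 1)
    (h2 : Commute (Φ ⟨rho g, rho_mem g⟩ ^ (2 * g)) (Φ ⟨tau g, tau_mem g⟩)) :
    ∃ M : Subgroup (ModPM (Surf g)), M.FiniteIndex ∧ ∃ (Ψ : M →* A) (a b : M),
      Ψ a = Φ ⟨rho g, rho_mem g⟩ ∧ Ψ b = Φ ⟨tau g, tau_mem g⟩ ∧ a ^ (4 * g) = 1 ∧
      b.1 ∈ ModP (Surf g) := by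
  have := compactSpace_surf hg
  have := hF.2
  have := pathConnectedSpace_surf hg
  have := locPath_surf hg
  obtain ⟨hl, _⟩ := hL hg
  obtain ⟨R, hRr⟩ := exists_rot hg
  obtain ⟨h, hh⟩ := hRad
  obtain ⟨⟨T, hTw⟩, P, hPu⟩ := hSh
  obtain ⟨D, hD⟩ := hDual
  have hq : Cov (FG g) (D ∘ pe g) (cc g) := hD.vv ▸ Cov.comp hC D
  obtain ⟨ψ, hψ⟩ := exists_psi hq hl Φ h1
  set K : Subgroup (Surf g ≃ₜ Surf g) := ψ.ker.map (gp hq hl).subtype with hK
  have hSt : Stable (cc g) K := fun H hH hc => by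
    obtain ⟨φ, hφ⟩ := hq.exists_ind' hl (H 0) (hc 0)
    have i1 := (hq.ind_inv hl (hc 0) hφ).mul (hq.ind_isotopy hH hc hφ)
    rw [inv_mul_cancel] at i1
    have m : (H 0)⁻¹ * H 1 ∈ gp hq hl :=
      ⟨by rw [Homeomorph.mul_apply, hc 1]; exact (H 0).symm_apply_eq.2 (hc 0).symm, 1, i1⟩
    exact ⟨⟨_, m⟩, by rw [SetLike.mem_coe, MonoidHom.mem_ker, hψ _ 1 i1, map_one], rfl⟩
  obtain ⟨hTc, hP1⟩ := hPush R T P hRr hTw hPu
  let r : gp hq hl := ⟨R, hRr.cc, ⟨_, rho_mem g⟩, hR D R hD hRr⟩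
  let t : gp hq hl := ⟨T, hTc, ⟨_, tau_mem g⟩, hT D T hD hTw⟩
  have hr : ψ r = Φ ⟨_, rho_mem g⟩ := hψ r _ (hR D R hD hRr)
  have ht : ψ t = Φ ⟨_, tau_mem g⟩ := hψ t _ (hT D T hD hTw)
  have hPk : ∀ k : ℕ, R ^ k * P 1 * (R ^ k)⁻¹ ∈ K := fun k => by
    refine ⟨r ^ k * (t * (r ^ (2 * g) * t * (r ^ (2 * g))⁻¹)⁻¹) * (r ^ k)⁻¹, ?_, ?_⟩
    · rw [SetLike.mem_coe, MonoidHom.mem_ker]
      simp only [map_mul, map_inv, map_pow, hr, ht]
      rw [h2.eq]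
      group
    · have : P 1 = T * (R ^ (2 * g) * T * (R ^ (2 * g))⁻¹)⁻¹ := eq_mul_inv_of_mul_eq hP1
      rw [this]
      rfl
  obtain ⟨sg, s1, s2⟩ := hS1 K R h P hSt hRr hh hPu hPk
  obtain ⟨sg', s3, s4⟩ := hS2 K h D sg hSt hh hD s1
  obtain ⟨b1, b2⟩ := hB (Surf g) (cc g) K sg' hSt s3 (s4 ▸ s2)
  let π := QuotientGroup.mk' (Subgroup.normalClosure {f : Surf g ≃ₜ Surf g | IsoId f})
  have per : ∀ (f : Surf g ≃ₜ Surf g) (φ : MulAut (FG g)), f (cc g) = cc g →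
      Ind (D ∘ pe g) f φ → ∃ n : ℤ, IsConj (φ (rr g)) (rr g ^ n) := fun f φ hf hi =>
    hP _ φ (by
      rw [Homeomorph.trans_apply, Homeomorph.trans_apply, hD.vv, hf, D.symm_apply_eq, hD.vv])
      ((ind_comp_iff D f φ).1 hi)
  have rev : ∀ f : Surf g ≃ₜ Surf g, f (cc g) = cc g → f ∉ gp hq hl →
      ∃ φ : MulAut (FG g), Ind (D ∘ pe g) f φ ∧ IsConj (φ (rr g)) (rr g)⁻¹ := fun f hf hn => by
    obtain ⟨φ, hφ⟩ := hq.exists_ind' hl f hf
    obtain ⟨n, hn1⟩ := per f φ hf hφ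
    obtain ⟨m, hm1⟩ := per f⁻¹ φ⁻¹ (f.symm_apply_eq.2 hf.symm) (hq.ind_inv hl hf hφ)
    rcases hH φ n m hn1 hm1 with rfl | rfl
    · exact absurd ⟨hf, ⟨φ, by rw [zpow_one] at hn1; exact hn1⟩, hφ⟩ hn
    · exact ⟨φ, hφ, by rwa [zpow_neg_one] at hn1⟩
  have fix : ∀ a : ModPM (Surf g), ∃ f : Surf g ≃ₜ Surf g, f (cc g) = cc g ∧ π f = a := fun a => by
    obtain ⟨f, rfl⟩ := QuotientGroup.mk'_surjective _ a
    obtain ⟨f', i1, i2⟩ := b2 (f (cc g))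
    refine ⟨f'⁻¹ * f, f'.symm_apply_eq.2 i2.symm, ?_⟩
    have : π f' = 1 := (QuotientGroup.eq_one_iff _).2 (Subgroup.subset_normalClosure i1)
    rw [map_mul, map_inv, this, inv_one, one_mul]
  refine ⟨(gp hq hl).map π, finiteIndex_of_two _ fun a b ha hb => ?_, ?_⟩
  · obtain ⟨f, f1, rfl⟩ := fix a
    obtain ⟨f', f2, rfl⟩ := fix b
    obtain ⟨φ, i1, i2⟩ := rev f f1 fun m => ha ⟨f, m, rfl⟩
    obtain ⟨φ', i3, i4⟩ := rev f' f2 fun m => hb ⟨f', m, rfl⟩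
    refine ⟨f⁻¹ * f', ⟨by rw [Homeomorph.mul_apply, f2]; exact f.symm_apply_eq.2 f1.symm,
      ⟨φ⁻¹ * φ', ?_⟩, (hq.ind_inv hl f1 i1).mul i3⟩, by rw [map_mul, map_inv]⟩
    have j := ((φ⁻¹ : MulAut (FG g)) : FG g →* FG g).map_isConj (i4.trans i2.symm)
    simp only [MonoidHom.coe_coe, MulAut.inv_apply_self] at j
    exact j
  · have hs := π.subgroupMap_surjective (gp hq hl)
    have hk : (π.subgroupMap (gp hq hl)).ker ≤ ψ.ker := fun f hf => by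
      have e : π f.1 = 1 := congrArg Subtype.val hf
      obtain ⟨f', m, e'⟩ := b1 f.1 ((hA _).2.2.1 _ ((QuotientGroup.eq_one_iff _).1 e)) f.2.1
      rwa [← Subtype.ext e']
    refine ⟨(π.subgroupMap (gp hq hl)).liftOfSurjective hs ⟨ψ, hk⟩, π.subgroupMap _ r,
      π.subgroupMap _ t, ?_, ?_, ?_, Subgroup.subset_normalClosure ⟨T, _, rfl, hTw.near hg hF⟩⟩
    · rw [MonoidHom.liftOfRightInverse_comp_apply]; exact hr
    · rw [MonoidHom.liftOfRightInverse_comp_apply]; exact ht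
    · rw [← map_pow, show r ^ (4 * g) = 1 from Subtype.ext (hRr.pow_four hg), map_one]

end Pool.Agent.MCG
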