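import Pool.Agent.Lib.MP_c86c76_al.Top.St

/-!
Basic facts on the projection to the surface; the rotation.
-/

set_option autoImplicit false

namespace Pool.Agent.MCG

open Set Topology

variable {g : ℕ}

theorem retr_mem (hg : 0 < g) (z : ℂ) : z / (max 1 (nm g z) : ℝ) ∈ Pol g := by
  have h : (0 : ℝ) < max 1 (nm g z) := lt_max_of_lt_left one_pos
  rw [mem_Pol hg, div_eq_inv_mul, ← Complex.ofReal_inv, nm_smul hg (inv_nonneg.2 h.le),
    inv_mul_le_iff₀ h, mul_one]
  exact le_max_right _ _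

theorem continuous_pr (hg : 0 < g) : Continuous (pr g) := by
  have e : pr g = fun z => Quot.mk _ ⟨z / (max 1 (nm g z) : ℝ), retr_mem hg z⟩ := by
    funext z; unfold pr; rw [dif_pos (retr_mem hg z)]
  rw [e]
  refine continuous_quot_mk.comp (Continuous.subtype_mk ?_ _)
  refine continuous_id.div (Complex.continuous_ofReal.comp
    (continuous_const.max (continuous_nm g))) fun z => ?_
  exact_mod_cast (lt_max_of_lt_left one_pos : (0 : ℝ) < max 1 (nm g z)).ne'

theorem isQuotientMap_pr (g : ℕ) : IsQuotientMap fun z : Pol g => pr g z := by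
  have e : (fun z : Pol g => pr g z) = Quot.mk _ := funext fun z => pr_of_mem z.2
  rw [e]
  exact isQuotientMap_quot_mk

theorem pr_surj (x : Surf g) : ∃ z ∈ Pol g, pr g z = x := by
  obtain ⟨z, h⟩ := (isQuotientMap_pr g).surjective x
  exact ⟨z, z.2, h⟩

theorem pr_surj_pt (hg : 0 < g) (x : Surf g) :
    ∃ (k : ℤ) (a b : ℝ), |b| ≤ a ∧ a ≤ 1 ∧ pr g (pt g k a b) = x := by
  obtain ⟨z, hz, rfl⟩ := pr_surj x
  obtain ⟨k, a, b, h, rfl⟩ := exists_pt hg z
  exact ⟨k, a, b, h, by rwa [mem_Pol hg, nm_pt hg h] at hz, rfl⟩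

theorem pr_side (hg : 0 < g) (k : ℤ) {b : ℝ} (hb : |b| ≤ 1) :
    pr g (pt g k 1 b) = pr g (pt g (k + 2 * g) 1 (-b)) := by
  have := (glue_iff (k := k) hg).2 ⟨b, hb, rfl⟩
  rw [pr_glue this.1 this.2, pt_sub hg]

theorem compactSpace_surf (hg : 0 < g) : CompactSpace (Surf g) :=
  haveI := isCompact_iff_compactSpace.1 (isCompact_Pol hg)
  (isQuotientMap_pr g).surjective.compactSpace (isQuotientMap_pr g).continuous

theorem pathConnectedSpace_surf (hg : 0 < g) : PathConnectedSpace (Surf g) :=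
  haveI := isPathConnected_iff_pathConnectedSpace.1
    ((convex_Pol hg).isPathConnected ⟨0, zero_mem_Pol g⟩)
  (isQuotientMap_pr g).surjective.pathConnectedSpace (isQuotientMap_pr g).continuous

theorem locPath_surf (hg : 0 < g) : LocallyPathConnectedSpace (Surf g) :=
  haveI := (convex_Pol hg).locallyPathConnectedSpace
  (isQuotientMap_pr g).locallyPathConnectedSpace

/-- A function on the plane that respects the gluing descends to the surface. -/
def desc {Y : Type*} (F : ℂ → Y)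
    (h : ∀ (z : ℂ) (k : ℤ), z ∈ Pol g → z - 2 * ze g k ∈ Pol g → F z = F (z - 2 * ze g k)) :
    Surf g → Y :=
  Quot.lift (fun z : Pol g => F z) (by
    rintro z w ⟨k, hk⟩
    rw [← ze_nat] at hk
    rw [hk]
    exact h z k z.2 (hk ▸ w.2))

theorem desc_pr {Y : Type*} (F : ℂ → Y)
    (h : ∀ (z : ℂ) (k : ℤ), z ∈ Pol g → z - 2 * ze g k ∈ Pol g → F z = F (z - 2 * ze g k))
    {z : ℂ} (hz : z ∈ Pol g) : desc F h (pr g z) = F z := by
  rw [pr_of_mem hz]; rfl

theorem continuous_of_pr {Y : Type*} [TopologicalSpace Y] {F : Surf g → Y}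
    (h : ContinuousOn (fun z => F (pr g z)) (Pol g)) : Continuous F :=
  (isQuotientMap_pr g).continuous_iff.2 (continuousOn_iff_continuous_domRestrict.1 h)

/-- Joint continuity can be tested on the polygon. -/
theorem continuous_prod_of_pr {T Y : Type*} [TopologicalSpace T] [LocallyCompactSpace T]
    [TopologicalSpace Y] {F : T × Surf g → Y}
    (h : ContinuousOn (fun p : T × ℂ => F (p.1, pr g p.2)) (univ ×ˢ Pol g)) : Continuous F :=
  (isQuotientMap_pr g).continuous_lift_prod_right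
    (h.comp_continuous (f := fun p : T × Pol g => (p.1, (p.2 : ℂ))) (by fun_prop)
      fun p => ⟨trivial, p.2.2⟩)

theorem fam_of_pr {T : Type} [TopologicalSpace T] [LocallyCompactSpace T]
    {s : T → Surf g ≃ₜ Surf g} {U : Set T} (hU : IsOpen U)
    (h : ContinuousOn (fun p : T × ℂ => s p.1 (pr g p.2)) (U ×ˢ Pol g)) : Fam s U := by
  have := hU.locallyCompactSpace
  have h1 : Continuous fun p : U × Surf g => s p.1 p.2 :=
    continuous_prod_of_pr (h.comp (f := fun p : U × ℂ => ((p.1 : T), p.2)) (by fun_prop)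
      fun p hp => ⟨p.1.2, hp.2⟩)
  rw [Fam, continuousOn_iff_continuous_domRestrict]
  exact h1.comp (f := fun p : U ×ˢ (univ : Set (Surf g)) => (⟨p.1.1, p.2.1⟩, p.1.2)) (by fun_prop)

/-- The image of a saturated open set is open. -/
theorem isOpen_pr {O : Set ℂ} (hO : IsOpen O)
    (hs : ∀ z ∈ Pol g, ∀ w ∈ Pol g, pr g z = pr g w → z ∈ O → w ∈ O) :
    IsOpen (pr g '' (O ∩ Pol g)) := by
  rw [← (isQuotientMap_pr g).isOpen_preimage]
  have : (fun z : Pol g => pr g z) ⁻¹' (pr g '' (O ∩ Pol g)) = Subtype.val ⁻¹' O := by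
    ext w
    exact ⟨fun ⟨z, hz, e⟩ => hs z hz.2 w w.2 e hz.1, fun h => ⟨w, ⟨h, w.2⟩, rfl⟩⟩
  rw [this]
  exact hO.preimage continuous_subtype_val

/-- Continuity on an open subset of the surface can be tested on the polygon. -/
theorem continuousOn_of_pr {Y : Type*} [TopologicalSpace Y] {F : Surf g → Y} {U : Set (Surf g)}
    (hU : IsOpen U) (h : ContinuousOn (fun z => F (pr g z)) (pr g ⁻¹' U ∩ Pol g)) :
    ContinuousOn F U := by
  rw [((isQuotientMap_pr g).continuousOn_isOpen_iff hU)]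
  exact h.comp (f := fun z : Pol g => (z : ℂ)) continuous_subtype_val.continuousOn
    fun z hz => ⟨hz, z.2⟩

theorem homeo_ext {f f' : Surf g ≃ₜ Surf g} (h : ∀ z ∈ Pol g, f (pr g z) = f' (pr g z)) :
    f = f' := by
  ext x
  obtain ⟨z, hz, rfl⟩ := pr_surj x
  exact h z hz

theorem ze_mul_mem (hg : 0 < g) (j : ℤ) {z : ℂ} (hz : z ∈ Pol g) : ze g j * z ∈ Pol g := by
  rwa [mem_Pol hg, nm_ze_mul hg, ← mem_Pol hg]

/-- The rotation by `j` steps as a map. -/
noncomputable def rotF (hg : 0 < g) (j : ℤ) : Surf g → Surf g :=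
  desc (fun z => pr g (ze g j * z)) fun z k h h' => by
    have e : ze g j * (z - 2 * ze g k) = ze g j * z - 2 * ze g (j + k) := by rw [ze_add]; ring
    have := ze_mul_mem hg j h'
    rw [e] at this ⊢
    exact pr_glue (ze_mul_mem hg j h) this

theorem rotF_pr (hg : 0 < g) (j : ℤ) {z : ℂ} (hz : z ∈ Pol g) :
    rotF hg j (pr g z) = pr g (ze g j * z) := desc_pr _ _ hz

theorem continuous_rotF (hg : 0 < g) (j : ℤ) : Continuous (rotF hg j) :=
  continuous_of_pr (((continuous_pr hg).comp (continuous_const.mul continuous_id)).continuousOn.congr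
    fun _ hz => rotF_pr hg j hz)

theorem rotF_rotF (hg : 0 < g) (j : ℤ) (x : Surf g) : rotF hg (-j) (rotF hg j x) = x := by
  obtain ⟨z, hz, rfl⟩ := pr_surj x
  rw [rotF_pr hg j hz, rotF_pr hg _ (ze_mul_mem hg j hz), ← mul_assoc, ← ze_add, neg_add_cancel,
    ze_zero, one_mul]

theorem exists_rot (hg : 0 < g) : ∃ R : Surf g ≃ₜ Surf g, IsRot R :=
  ⟨⟨⟨rotF hg 1, rotF hg (-1), rotF_rotF hg 1, fun x => by simpa using rotF_rotF hg (-1) x⟩,
    continuous_rotF hg 1, continuous_rotF hg (-1)⟩, fun _ hz => rotF_pr hg 1 hz⟩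

theorem IsRot.pow (hg : 0 < g) {R : Surf g ≃ₜ Surf g} (hR : IsRot R) (n : ℕ) {z : ℂ}
    (hz : z ∈ Pol g) : (R ^ n) (pr g z) = pr g (ze g n * z) := by
  induction n with
  | zero => simp [ze_zero]
  | succ n ih =>
    rw [pow_succ', Homeomorph.mul_apply, ih, hR _ (ze_mul_mem hg _ hz), ← mul_assoc, ← ze_add]
    push_cast
    rw [add_comm]

theorem IsRot.pow_pt (hg : 0 < g) {R : Surf g ≃ₜ Surf g} (hR : IsRot R) (n : ℕ) {k : ℤ} {a b : ℝ}
    (hz : pt g k a b ∈ Pol g) : (R ^ n) (pr g (pt g k a b)) = pr g (pt g (k + n) a b) := by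
  rw [hR.pow hg n hz, ze_mul_pt]

theorem IsRot.cc {R : Surf g ≃ₜ Surf g} (hR : IsRot R) : R (cc g) = cc g := by
  rw [MCG.cc, hR _ (zero_mem_Pol g), mul_zero]

theorem IsDual.cc {D : Surf g ≃ₜ Surf g} (hD : IsDual D) : D (cc g) = vv g := by
  have := (hD.2 0 0 0 le_rfl le_rfl zero_le_one).1
  rw [pt_zero, mul_zero, sub_zero] at this
  exact this

theorem IsDual.vv {D : Surf g ≃ₜ Surf g} (hD : IsDual D) : D (vv g) = MCG.cc g := by
  rw [← hD.cc, hD.1]

/-! Consequences of the description of the fibres. -/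

theorem FibSt.inner (hg : 0 < g) (h : FibSt g) {z w : ℂ} (hz : nm g z < 1) (hw : w ∈ Pol g)
    (e : pr g z = pr g w) : z = w := by
  have hz' := (mem_Pol hg).2 hz.le
  rcases (h.1 z hz' w hw).1 e with h1 | ⟨k, rfl⟩ | ⟨h1, -⟩
  · exact h1
  · obtain ⟨b, hb, rfl⟩ := (glue_iff hg).1 ⟨hz', hw⟩
    rw [nm_pt hg hb] at hz
    exact absurd hz (lt_irrefl _)
  · exact absurd (nm_vtx hg h1) hz.ne

theorem FibSt.vtx (hg : 0 < g) (h : FibSt g) {z : ℂ} (hz : z ∈ Pol g) :
    pr g z = vv g ↔ Vtx g z := by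
  have h0 : pt g 0 1 1 ∈ Pol g := pt_mem hg 0 (by simp) le_rfl
  rw [vv, eq_comm, h.1 _ h0 _ hz]
  refine ⟨?_, fun hv => Or.inr (Or.inr ⟨⟨0, rfl⟩, hv⟩)⟩
  rintro (rfl | ⟨k, rfl⟩ | ⟨-, h1⟩)
  · exact ⟨0, rfl⟩
  · obtain ⟨b, hb, e⟩ := (glue_iff hg).1 ⟨h0, hz⟩
    have hv : Vtx g (pt g k 1 b) := ⟨0, e.symm⟩
    rw [e, pt_sub hg, vtx_iff hg (by rwa [abs_neg]), abs_neg]
    exact (vtx_iff hg hb).1 hv
  · exact h1

theorem FibSt.centre (hg : 0 < g) (h : FibSt g) {z : ℂ} (hz : z ∈ Pol g) :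
    pr g z = cc g ↔ z = 0 :=
  ⟨fun e => (h.inner hg (by rw [nm_zero hg]; exact one_pos) hz e.symm).symm, fun e => e ▸ rfl⟩

theorem FibSt.isOpen_inner (hg : 0 < g) (h : FibSt g) {O : Set ℂ} (hO : IsOpen O)
    (hO' : ∀ z ∈ O, nm g z < 1) : IsOpen (pr g '' O) := by
  have e : O ∩ Pol g = O := inter_eq_left.2 fun z hz => (mem_Pol hg).2 (hO' z hz).le
  rw [← e]
  exact isOpen_pr hO fun z _ w hw e hz => h.inner hg (hO' z hz) hw e ▸ hz

/-- The coordinate on the image of the open polygon. -/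
theorem FibSt.exists_cd (hg : 0 < g) (h : FibSt g) : ∃ cd : Surf g → ℂ,
    (∀ z, nm g z < 1 → cd (pr g z) = z) ∧ ContinuousOn cd (pr g '' {z | nm g z < 1}) := by
  choose cd h1 h2 using fun x : Surf g => pr_surj x
  have h3 : ∀ z, nm g z < 1 → cd (pr g z) = z := fun z hz =>
    (h.inner hg hz (h1 _) (h2 _).symm).symm
  refine ⟨cd, h3, continuousOn_of_pr (h.isOpen_inner hg
    (isOpen_lt (continuous_nm g) continuous_const) fun _ hz => hz) ?_⟩
  refine continuousOn_id.congr ?_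
  rintro w ⟨⟨z, hz, e⟩, hw⟩
  rw [← h.inner hg hz hw e]
  exact h3 z hz

end Pool.Agent.MCG
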