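import Mathlib

/-!
The closed orientable surface of genus `g` as a regular `4g`-gon with opposite sides glued by
translations, and its group of isotopy classes of self-homeomorphisms.
-/

set_option autoImplicit false

namespace Pool.Agent.MCG

/-- The primitive `4g`-th root of unity `exp (2 π i / (4 g))`. -/
noncomputable def zeta (g : ℕ) : ℂ := Complex.exp (Real.pi * Complex.I / (2 * g))

/-- The regular `4g`-gon whose sides have midpoints `zeta g ^ k`. -/
def Pol (g : ℕ) : Set ℂ := {z | ∀ k : ℕ, (z / zeta g ^ k).re ≤ 1}

/-- The polygon with opposite sides glued by the translations `z ↦ z - 2 * zeta g ^ k`. -/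
def Surf (g : ℕ) : Type := Quot fun z w : Pol g => ∃ k : ℕ, (w : ℂ) = z - 2 * zeta g ^ k

/-- The quotient topology. -/
noncomputable instance surfTop (g : ℕ) : TopologicalSpace (Surf g) := instTopologicalSpaceQuot

/-- `f` is isotopic to the identity through homeomorphisms. -/
def IsoId {S : Type} [TopologicalSpace S] (f : S ≃ₜ S) : Prop :=
  ∃ H : C(unitInterval × S, S), (∀ t, IsHomeomorph fun x => H (t, x)) ∧
    (∀ x, H (0, x) = x) ∧ ∀ x, H (1, x) = f x

/-- Isotopy classes of all self-homeomorphisms (the extended mapping class group). -/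
abbrev ModPM (S : Type) [TopologicalSpace S] : Type :=
  (S ≃ₜ S) ⧸ Subgroup.normalClosure {f : S ≃ₜ S | IsoId f}

/-- The normal subgroup generated by the classes of homeomorphisms that are the identity near some
point (the mapping class group). -/
def ModP (S : Type) [TopologicalSpace S] : Subgroup (ModPM S) :=
  Subgroup.normalClosure
    {c | ∃ (f : S ≃ₜ S) (x : S), c = QuotientGroup.mk f ∧ ∀ᶠ y in nhds x, f y = y}

end Pool.Agent.MCG
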