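import Pool.Agent.Lib.MP_c86c76_al.Top.Bas

/-!
The fibres of the projection to the tree of polygons.
-/

set_option autoImplicit false

namespace Pool.Agent.MCG

open Set

variable {g : ℕ}

theorem ss_congr {k j : ℤ} (h : k ≡ j [ZMOD (4 * g : ℕ)]) : ss g k = ss g j :=
  xx_congr g ((h.mul_left _).add_right _)

theorem ss_add_two (g : ℕ) (k : ℤ) : ss g (k + 2 * g) = (ss g k)⁻¹ := by
  rw [ss, ss, ← xx_add_two]
  exact xx_congr g (Int.modEq_iff_dvd.2 ⟨-g, by push_cast; ring⟩)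

theorem eFib_side (hg : 0 < g) {z : ℂ} (hz : z ∈ TS g) {k : ℤ} (h : z - 2 * ze g k ∈ Pol g) :
    ∃ b : ℝ, |b| < 1 ∧ z = pt g k 1 b := by
  obtain ⟨b, hb, rfl⟩ := (glue_iff hg).1 ⟨hz.1, h⟩
  exact ⟨b, hb.lt_of_ne fun e => hz.2 ((vtx_iff hg hb).2 ⟨rfl, e⟩), rfl⟩

theorem eFib_frame (hg : 0 < g) {k j : ℤ} {a b a' b' : ℝ} (h : |b| < a) (h' : |b'| ≤ a')
    (e : pt g k a b = pt g j a' b') : j ≡ k [ZMOD (4 * g : ℕ)] := by
  have h0 := (abs_nonneg b).trans_lt h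
  rcases (pt_eq_pt hg h.le h' h0 e).2 with h1 | ⟨-, rfl, -⟩ | ⟨-, rfl, -⟩
  · exact h1.1
  · exact absurd h (le_abs_self _).not_gt
  · exact absurd h (by rw [abs_neg]; exact (le_abs_self _).not_gt)

theorem eFib_back (hg : 0 < g) (z : ℂ) (k : ℤ) : z - 2 * ze g k - 2 * ze g (k + 2 * g) = z := by
  rw [ze_add_two hg]; ring

theorem eFibSt (hg : 0 < g) : EFibSt g := by
  intro γ γ' z z'
  let r := fun a b : FG g × TS g => ∃ k : ℤ, (b.2 : ℂ) = a.2 - 2 * ze g k ∧ b.1 = a.1 * ss g k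
  have key : ∀ a b, Relation.EqvGen r a b → a = b ∨ r a b := by
    intro a b h
    induction h with
    | rel _ _ h => exact Or.inr h
    | refl => exact Or.inl rfl
    | symm a b _ h =>
      rcases h with rfl | ⟨k, h1, h2⟩
      · exact Or.inl rfl
      · exact Or.inr ⟨k + 2 * g, by rw [h1, eFib_back hg], by
          rw [h2, ss_add_two, mul_inv_cancel_right]⟩
    | trans a b c _ _ h h' =>
      rcases h with rfl | ⟨k, h1, h2⟩
      · exact h'
      rcases h' with rfl | ⟨j, h3, h4⟩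
      · exact Or.inr ⟨k, h1, h2⟩
      obtain ⟨β, hβ, e⟩ := eFib_side hg b.2.2 (k := k + 2 * g) (by
        rw [h1, eFib_back hg]; exact a.2.2.1)
      obtain ⟨β', hβ', e'⟩ := eFib_side hg b.2.2 (h3 ▸ c.2.2.1)
      have hj := eFib_frame hg hβ hβ'.le (e.symm.trans e')
      refine Or.inl (Prod.ext ?_ (Subtype.ext ?_))
      · rw [h4, h2, ss_congr hj, ss_add_two, mul_inv_cancel_right]
      · rw [h3, h1, ze_congr hg hj, eFib_back hg]
  refine ⟨fun h => (key _ _ (Quot.eqvGen_exact h)).imp_left Prod.ext_iff.1, ?_⟩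
  rintro (⟨rfl, rfl⟩ | h)
  · rfl
  · exact Quot.sound h

end Pool.Agent.MCG
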