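import Pool.Agent.Lib.MP_c86c76_al.Top.Defs

/-!
Plane geometry of the regular `4g`-gon.
-/

set_option autoImplicit false

namespace Pool.Agent.MCG

open Complex Real

noncomputable section

/-- The unit normal of side `k`. -/
def ze (g : ℕ) (k : ℤ) : ℂ := zeta g ^ k

/-- Half the length of a side. -/
def tt (g : ℕ) : ℝ := Real.tan (π / (4 * g))

/-- The point with coordinates `a`, `b` in the frame of side `k`. -/
def pt (g : ℕ) (k : ℤ) (a b : ℝ) : ℂ := ze g k * (a + (b * tt g : ℝ) * I)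

/-- The gauge of the polygon. -/
def nm (g : ℕ) (z : ℂ) : ℝ := ⨆ k : ℤ, (z / ze g k).re

/-- Vertices of the polygon. -/
def Vtx (g : ℕ) (z : ℂ) : Prop := ∃ k : ℤ, z = pt g k 1 1

variable {g : ℕ}

theorem ze_eq (g : ℕ) (k : ℤ) : ze g k = cexp ((k * π / (2 * g) : ℝ) * I) := by
  rw [ze, zeta, ← Complex.exp_int_mul]
  congr 1
  push_cast
  ring

theorem ze_ne (g : ℕ) (k : ℤ) : ze g k ≠ 0 := by rw [ze_eq]; exact Complex.exp_ne_zero _

theorem norm_ze (g : ℕ) (k : ℤ) : ‖ze g k‖ = 1 := by rw [ze_eq]; exact norm_exp_ofReal_mul_I _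

theorem ze_zero (g : ℕ) : ze g 0 = 1 := zpow_zero _

theorem ze_add (g : ℕ) (k j : ℤ) : ze g (k + j) = ze g k * ze g j :=
  zpow_add₀ (Complex.exp_ne_zero _) _ _

theorem ze_neg (g : ℕ) (k : ℤ) : ze g (-k) = (ze g k)⁻¹ := zpow_neg _ _

theorem ze_nat (g : ℕ) (k : ℕ) : ze g k = zeta g ^ k := zpow_natCast _ _

theorem conj_ze (g : ℕ) (k : ℤ) : (starRingEnd ℂ) (ze g k) = ze g (-k) := by
  rw [ze_eq, ze_eq, ← Complex.exp_conj]
  congr 1
  simp only [map_mul, conj_ofReal, conj_I]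
  push_cast
  ring

theorem ze_two (hg : 0 < g) : ze g (2 * g) = -1 := by
  have : (g : ℝ) ≠ 0 := by positivity
  rw [ze_eq, ← Complex.exp_pi_mul_I]
  congr 2
  push_cast
  have : (g : ℂ) ≠ 0 := by exact_mod_cast this
  field_simp

theorem ze_add_two (hg : 0 < g) (k : ℤ) : ze g (k + 2 * g) = -ze g k := by
  rw [ze_add, ze_two hg]; ring

theorem ze_eq_iff (hg : 0 < g) {k j : ℤ} : ze g k = ze g j ↔ k ≡ j [ZMOD (4 * g : ℕ)] := by
  have h0 : (g : ℝ) ≠ 0 := by positivity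
  have h0' : (g : ℂ) ≠ 0 := by exact_mod_cast h0
  have hp : (π : ℂ) ≠ 0 := by exact_mod_cast Real.pi_ne_zero
  rw [ze_eq, ze_eq, Complex.exp_eq_exp_iff_exists_int, Int.modEq_iff_dvd]
  constructor
  · rintro ⟨n, hn⟩
    refine ⟨-n, ?_⟩
    push_cast at hn
    field_simp at hn
    have : (j - k : ℂ) = 4 * g * (-n) := by linear_combination -hn
    exact_mod_cast this
  · rintro ⟨n, hn⟩
    refine ⟨-n, ?_⟩
    have : (j : ℂ) = k + 4 * g * n := by
      have : j = k + 4 * g * n := by push_cast at hn; linarith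
      exact_mod_cast this
    push_cast
    rw [this]
    field_simp
    ring

theorem ze_congr (hg : 0 < g) {k j : ℤ} (h : k ≡ j [ZMOD (4 * g : ℕ)]) : ze g k = ze g j :=
  (ze_eq_iff hg).2 h

theorem exists_nat_ze (hg : 0 < g) (k : ℤ) : ∃ n : ℕ, n < 4 * g ∧ ze g k = ze g n := by
  have hN : (0 : ℤ) < (4 * g : ℕ) := by omega
  obtain ⟨j, hj⟩ := Int.eq_ofNat_of_zero_le (Int.emod_nonneg k hN.ne')
  have h1 := Int.emod_lt_of_pos k hN
  exact ⟨j, by omega, ze_congr hg (by rw [← hj]; exact (Int.mod_modEq _ _).symm)⟩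

theorem ang_pos (hg : 0 < g) : 0 < π / (4 * g) := by positivity

theorem ang_le (hg : 0 < g) : π / (4 * g) ≤ π / 4 := by
  have : (1 : ℝ) ≤ g := by exact_mod_cast hg
  exact div_le_div_of_nonneg_left Real.pi_pos.le (by norm_num) (by linarith)

theorem cos_ang_pos (hg : 0 < g) : 0 < Real.cos (π / (4 * g)) :=
  Real.cos_pos_of_mem_Ioo ⟨by linarith [ang_pos hg, Real.pi_pos], by
    linarith [ang_le hg, Real.pi_pos]⟩

theorem tt_pos (hg : 0 < g) : 0 < tt g :=
  Real.tan_pos_of_pos_of_lt_pi_div_two (ang_pos hg) (by linarith [ang_le hg, Real.pi_pos])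

theorem pt_div (g : ℕ) (k : ℤ) (a b : ℝ) : pt g k a b / ze g k = a + (b * tt g : ℝ) * I := by
  rw [pt, mul_div_cancel_left₀ _ (ze_ne g k)]

theorem pt_congr (hg : 0 < g) {k j : ℤ} (h : k ≡ j [ZMOD (4 * g : ℕ)]) (a b : ℝ) :
    pt g k a b = pt g j a b := by rw [pt, pt, ze_congr hg h]

theorem pt_inj (hg : 0 < g) {k : ℤ} {a b a' b' : ℝ} (h : pt g k a b = pt g k a' b') :
    a = a' ∧ b = b' := by
  have h1 := mul_left_cancel₀ (ze_ne g k) h
  have h2 := congrArg Complex.re h1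
  have h3 := congrArg Complex.im h1
  simp at h2 h3
  exact ⟨h2, h3.resolve_right (tt_pos hg).ne'⟩

theorem ze_mul_pt (g : ℕ) (j k : ℤ) (a b : ℝ) : ze g j * pt g k a b = pt g (k + j) a b := by
  rw [pt, pt, ze_add]; ring

theorem pt_add (g : ℕ) (k : ℤ) (a b a' b' : ℝ) :
    pt g k (a + a') (b + b') = pt g k a b + pt g k a' b' := by
  simp only [pt]; push_cast; ring

theorem pt_smul (g : ℕ) (k : ℤ) (s a b : ℝ) : pt g k (s * a) (s * b) = s * pt g k a b := by
  simp only [pt]; push_cast; ring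

theorem pt_zero (g : ℕ) (k : ℤ) : pt g k 0 0 = 0 := by simp [pt]

theorem pt_axis (g : ℕ) (k : ℤ) (a : ℝ) : pt g k a 0 = a * ze g k := by simp [pt, mul_comm]

theorem pt_add_two (hg : 0 < g) (k : ℤ) (a b : ℝ) : pt g (k + 2 * g) a b = pt g k (-a) (-b) := by
  simp only [pt, ze_add_two hg]; push_cast; ring

/-- Opposite sides differ by a translation. -/
theorem pt_sub (hg : 0 < g) (k : ℤ) (b : ℝ) :
    pt g k 1 b - 2 * ze g k = pt g (k + 2 * g) 1 (-b) := by
  rw [pt_add_two hg]; simp only [pt]; push_cast; ring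

theorem continuous_pt (g : ℕ) (k : ℤ) : Continuous fun p : ℝ × ℝ => pt g k p.1 p.2 := by
  unfold pt; fun_prop

theorem polar (hg : 0 < g) (k : ℤ) (ρ θ : ℝ) :
    ze g k * (ρ * cexp (θ * I)) = pt g k (ρ * Real.cos θ) (ρ * Real.sin θ / tt g) := by
  rw [pt, div_mul_cancel₀ _ (tt_pos hg).ne', Complex.exp_mul_I]
  push_cast
  ring

/-- The diagonal of a corner in the two adjacent frames. -/
theorem pt_diag (hg : 0 < g) (k : ℤ) (a : ℝ) : pt g (k + 1) a (-a) = pt g k a a := by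
  have hc := cos_ang_pos hg
  have h0 : (g : ℝ) ≠ 0 := by positivity
  have e1 := polar hg k (a / Real.cos (π / (4 * g))) (π / (4 * g))
  have e2 := polar hg (k + 1) (a / Real.cos (π / (4 * g))) (-(π / (4 * g)))
  have ht : Real.sin (π / (4 * g)) / tt g = Real.cos (π / (4 * g)) := by
    have := (tt_pos hg).ne'
    rw [div_eq_iff this, tt, Real.tan_eq_sin_div_cos]
    field_simp
  rw [Real.cos_neg, Real.sin_neg, mul_neg, neg_div] at e2
  rw [mul_div_assoc, ht, div_mul_cancel₀ _ hc.ne'] at e1 e2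
  rw [← e1, ← e2, ze_add, mul_assoc]
  congr 1
  rw [ze_eq g 1, mul_left_comm, ← Complex.exp_add]
  congr 2
  have h0' : (g : ℂ) ≠ 0 := by exact_mod_cast h0
  push_cast
  field_simp
  ring

/-- Every point lies in the sector of some side. -/
theorem exists_pt (hg : 0 < g) (z : ℂ) : ∃ (k : ℤ) (a b : ℝ), |b| ≤ a ∧ z = pt g k a b := by
  have h0 : (0 : ℝ) < g := by positivity
  set k : ℤ := round (arg z * (2 * g) / π) with hk
  set θ : ℝ := arg z - k * π / (2 * g) with hθ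
  have hr := abs_sub_round (arg z * (2 * g) / π)
  have hθ' : |θ| ≤ π / (4 * g) := by
    have : θ = (arg z * (2 * g) / π - k) * (π / (2 * g)) := by
      rw [hθ]; field_simp
    rw [this, abs_mul, abs_of_pos (by positivity : 0 < π / (2 * g))]
    calc _ ≤ 1 / 2 * (π / (2 * g)) := by gcongr
      _ = _ := by field_simp; ring
  refine ⟨k, ‖z‖ * Real.cos θ, ‖z‖ * Real.sin θ / tt g, ?_, ?_⟩
  · have hc := cos_ang_pos hg
    have h1 : Real.cos (π / (4 * g)) ≤ Real.cos θ := by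
      rw [← Real.cos_abs θ]
      exact Real.cos_le_cos_of_nonneg_of_le_pi (abs_nonneg _)
        (by linarith [ang_le hg, Real.pi_pos]) hθ'
    have h2 : |Real.sin θ| ≤ Real.sin (π / (4 * g)) := by
      rw [Real.abs_sin_eq_sin_abs_of_abs_le_pi (by linarith [ang_le hg, Real.pi_pos])]
      exact Real.sin_le_sin_of_le_of_le_pi_div_two (by linarith [abs_nonneg θ, Real.pi_pos])
        (by linarith [ang_le hg, Real.pi_pos]) hθ'
    rw [abs_div, abs_mul, abs_norm, abs_of_pos (tt_pos hg), div_le_iff₀ (tt_pos hg), mul_assoc]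
    refine mul_le_mul_of_nonneg_left (h2.trans ?_) (norm_nonneg _)
    have : Real.sin (π / (4 * g)) = Real.cos (π / (4 * g)) * tt g := by
      rw [tt, Real.tan_eq_sin_div_cos]; field_simp
    rw [this]
    exact mul_le_mul_of_nonneg_right h1 (tt_pos hg).le
  · rw [← polar hg, ze_eq, mul_left_comm, ← Complex.exp_add]
    conv_lhs => rw [← norm_mul_exp_arg_mul_I z]
    congr 2
    rw [hθ]
    push_cast
    ring

/-- The real part in another frame. -/
theorem re_pt_div (g : ℕ) (k j : ℤ) (a b : ℝ) : (pt g k a b / ze g j).re =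
    a * Real.cos ((k - j) * π / (2 * g)) - b * tt g * Real.sin ((k - j) * π / (2 * g)) := by
  have : pt g k a b / ze g j = ze g (k - j) * (a + (b * tt g : ℝ) * I) := by
    rw [pt, sub_eq_add_neg, ze_add, ze_neg]; ring
  rw [this, ze_eq, mul_re, exp_ofReal_mul_I_re, exp_ofReal_mul_I_im]
  simp
  ring

/-- The basic inequality, with its equality case. -/
theorem trig_aux (hg : 0 < g) (m : ℤ) (h1 : 1 ≤ m) (h2 : m ≤ 2 * g) :
    0 ≤ Real.sin (m * π / (2 * g)) ∧
    Real.cos (m * π / (2 * g)) + tt g * Real.sin (m * π / (2 * g)) ≤ 1 ∧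
    (Real.cos (m * π / (2 * g)) + tt g * Real.sin (m * π / (2 * g)) = 1 → m = 1) ∧
    Real.cos (m * π / (2 * g)) < 1 := by
  have h0 : (0 : ℝ) < g := by positivity
  have hc := cos_ang_pos hg
  set α := π / (4 * g) with hα
  have hm1 : (1 : ℝ) ≤ m := by exact_mod_cast h1
  have hm2 : (m : ℝ) ≤ 2 * g := by exact_mod_cast h2
  have hap := ang_pos hg
  have e : m * π / (2 * g) = 2 * m * α := by rw [hα]; field_simp; ring
  have hπ : 4 * g * α = π := by rw [hα]; field_simp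
  have hle : 2 * m * α ≤ π := by nlinarith
  rw [e]
  have key : Real.cos (2 * m * α) + tt g * Real.sin (2 * m * α) =
      Real.cos (2 * m * α - α) / Real.cos α := by
    rw [Real.cos_sub, tt, ← hα, Real.tan_eq_sin_div_cos]; field_simp
  refine ⟨Real.sin_nonneg_of_nonneg_of_le_pi (by positivity) hle, ?_, ?_, ?_⟩
  · rw [key, div_le_one hc]
    exact Real.cos_le_cos_of_nonneg_of_le_pi hap.le (by linarith) (by nlinarith)
  · intro h
    rw [key, div_eq_one_iff_eq hc.ne'] at h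
    have := Real.injOn_cos ⟨by nlinarith, by linarith⟩ ⟨hap.le, by nlinarith⟩ h
    have : (m : ℝ) = 1 := by
      have : (m - 1) * α = 0 := by linarith
      rcases mul_eq_zero.1 this with h | h
      · linarith
      · exact absurd h hap.ne'
    exact_mod_cast this
  · rw [← Real.cos_zero]
    exact Real.cos_lt_cos_of_nonneg_of_le_pi le_rfl hle (by positivity)

/-- In the sector of side `k` the `k`-th linear form is the largest one. -/
theorem re_pt_le (hg : 0 < g) {k : ℤ} {a b : ℝ} (h : |b| ≤ a) (j : ℤ) :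
    (pt g k a b / ze g j).re ≤ a ∧ (0 < a → (pt g k a b / ze g j).re = a →
      j ≡ k [ZMOD (4 * g : ℕ)] ∨ (j ≡ k + 1 [ZMOD (4 * g : ℕ)] ∧ b = a) ∨
        (j ≡ k - 1 [ZMOD (4 * g : ℕ)] ∧ b = -a)) := by
  have hN : (0 : ℤ) < (4 * g : ℕ) := by omega
  obtain ⟨m, hm, hm1, hm2⟩ : ∃ m : ℤ, j ≡ k - m [ZMOD (4 * g : ℕ)] ∧ -(2 * g) < m ∧ m ≤ 2 * g := by
    refine ⟨2 * g - (j - k + 2 * g) % (4 * g : ℕ), ?_, ?_, ?_⟩
    · have := (Int.mod_modEq (j - k + 2 * g) (4 * g : ℕ)).symm.add_right (k - 2 * g)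
      convert this using 1 <;> ring
    · have := Int.emod_lt_of_pos (j - k + 2 * g) hN; omega
    · have := Int.emod_nonneg (j - k + 2 * g) hN.ne'; omega
  have ha := (abs_nonneg b).trans h
  have hb := abs_le.1 h
  have ht := tt_pos hg
  rw [ze_congr hg hm, re_pt_div]
  have e : ((k : ℝ) - ((k - m : ℤ) : ℝ)) = m := by push_cast; ring
  rw [e]
  rcases lt_trichotomy m 0 with hneg | rfl | hpos
  · obtain ⟨s0, s1, s2, s3⟩ := trig_aux hg (-m) (by omega) (by omega)
    have e' : ((-m : ℤ) : ℝ) * π / (2 * g) = -(m * π / (2 * g)) := by push_cast; ring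
    simp only [e', Real.cos_neg, Real.sin_neg] at s0 s1 s2 s3
    set c := Real.cos (m * π / (2 * g))
    set s := Real.sin (m * π / (2 * g))
    have hts : 0 ≤ tt g * -s := mul_nonneg ht.le s0
    have i1 : b * (tt g * -s) ≤ a * (tt g * -s) := mul_le_mul_of_nonneg_right hb.2 hts
    have i2 : a * (c + tt g * -s) ≤ a * 1 := mul_le_mul_of_nonneg_left s1 ha
    refine ⟨by nlinarith, fun hp he => Or.inr (Or.inl ?_)⟩
    have i3 : c + tt g * -s = 1 := by
      have : a * (c + tt g * -s) = a * 1 := by nlinarith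
      exact mul_left_cancel₀ hp.ne' this
    have hm' : m = -1 := by have := s2 i3; omega
    refine ⟨by rw [hm'] at hm; simpa using hm, ?_⟩
    have i4 : 0 < tt g * -s := by linarith
    have : b * (tt g * -s) = a * (tt g * -s) := by nlinarith
    exact mul_right_cancel₀ i4.ne' this
  · exact ⟨by simp, fun _ _ => Or.inl (by simpa using hm)⟩
  · obtain ⟨s0, s1, s2, s3⟩ := trig_aux hg m (by omega) hm2
    set c := Real.cos (m * π / (2 * g))
    set s := Real.sin (m * π / (2 * g))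
    have hts : 0 ≤ tt g * s := mul_nonneg ht.le s0
    have i1 : -b * (tt g * s) ≤ a * (tt g * s) := mul_le_mul_of_nonneg_right (by linarith) hts
    have i2 : a * (c + tt g * s) ≤ a * 1 := mul_le_mul_of_nonneg_left s1 ha
    refine ⟨by nlinarith, fun hp he => Or.inr (Or.inr ?_)⟩
    have i3 : c + tt g * s = 1 := by
      have : a * (c + tt g * s) = a * 1 := by nlinarith
      exact mul_left_cancel₀ hp.ne' this
    have hm' : m = 1 := s2 i3
    refine ⟨by rwa [hm'] at hm, ?_⟩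
    have i4 : 0 < tt g * s := by linarith
    have : -b * (tt g * s) = a * (tt g * s) := by nlinarith
    have := mul_right_cancel₀ i4.ne' this
    linarith

theorem re_div_le_norm (g : ℕ) (z : ℂ) (k : ℤ) : (z / ze g k).re ≤ ‖z‖ :=
  (re_le_norm _).trans (by rw [norm_div, norm_ze, div_one])

theorem re_le_nm (g : ℕ) (z : ℂ) (k : ℤ) : (z / ze g k).re ≤ nm g z :=
  le_ciSup (f := fun k : ℤ => (z / ze g k).re)
    ⟨‖z‖, by rintro _ ⟨j, rfl⟩; exact re_div_le_norm g z j⟩ k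

theorem nm_le_iff {z : ℂ} {c : ℝ} : nm g z ≤ c ↔ ∀ k : ℤ, (z / ze g k).re ≤ c :=
  ⟨fun h k => (re_le_nm g z k).trans h, fun h => ciSup_le h⟩

theorem nm_le_norm (g : ℕ) (z : ℂ) : nm g z ≤ ‖z‖ := nm_le_iff.2 (re_div_le_norm g z)

theorem nm_pt (hg : 0 < g) {k : ℤ} {a b : ℝ} (h : |b| ≤ a) : nm g (pt g k a b) = a := by
  refine le_antisymm (nm_le_iff.2 fun j => (re_pt_le hg h j).1) ?_
  have := re_le_nm g (pt g k a b) k
  rwa [pt_div, add_re, ofReal_re, re_ofReal_mul, I_re, mul_zero, add_zero] at this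

theorem le_nm_pt (g : ℕ) (k : ℤ) (a b : ℝ) : a ≤ nm g (pt g k a b) := by
  have := re_le_nm g (pt g k a b) k
  rwa [pt_div, add_re, ofReal_re, re_ofReal_mul, I_re, mul_zero, add_zero] at this

theorem mem_Pol (hg : 0 < g) {z : ℂ} : z ∈ Pol g ↔ nm g z ≤ 1 := by
  rw [nm_le_iff]
  refine ⟨fun h k => ?_, fun h k => ?_⟩
  · obtain ⟨n, -, hn⟩ := exists_nat_ze hg k
    rw [hn, ze_nat]; exact h n
  · rw [← ze_nat]; exact h k

theorem pt_mem (hg : 0 < g) (k : ℤ) {a b : ℝ} (h : |b| ≤ a) (ha : a ≤ 1) : pt g k a b ∈ Pol g :=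
  (mem_Pol hg).2 (by rwa [nm_pt hg h])

theorem nm_nonneg (hg : 0 < g) (z : ℂ) : 0 ≤ nm g z := by
  obtain ⟨k, a, b, h, rfl⟩ := exists_pt hg z
  rw [nm_pt hg h]; exact (abs_nonneg b).trans h

theorem nm_zero (hg : 0 < g) : nm g 0 = 0 := by
  rw [← pt_zero g 0, nm_pt hg (by simp)]

theorem eq_zero_of_nm (hg : 0 < g) {z : ℂ} (h0 : nm g z = 0) : z = 0 := by
  obtain ⟨k, a, b, h, rfl⟩ := exists_pt hg z
  rw [nm_pt hg h] at h0
  subst h0
  rw [abs_nonpos_iff.1 h, pt_zero]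

theorem nm_add_le (g : ℕ) (z w : ℂ) : nm g (z + w) ≤ nm g z + nm g w :=
  nm_le_iff.2 fun k => by
    rw [add_div, add_re]; exact add_le_add (re_le_nm g z k) (re_le_nm g w k)

theorem nm_smul (hg : 0 < g) {s : ℝ} (hs : 0 ≤ s) (z : ℂ) : nm g (s * z) = s * nm g z := by
  obtain ⟨k, a, b, h, rfl⟩ := exists_pt hg z
  rw [← pt_smul, nm_pt hg h, nm_pt hg]
  rw [abs_mul, abs_of_nonneg hs]
  exact mul_le_mul_of_nonneg_left h hs

theorem nm_ze_mul (hg : 0 < g) (j : ℤ) (z : ℂ) : nm g (ze g j * z) = nm g z := by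
  obtain ⟨k, a, b, h, rfl⟩ := exists_pt hg z
  rw [ze_mul_pt, nm_pt hg h, nm_pt hg h]

theorem nm_neg (hg : 0 < g) (z : ℂ) : nm g (-z) = nm g z := by
  rw [← nm_ze_mul hg (2 * g) z, ze_two hg, neg_one_mul]

theorem lipschitz_nm (g : ℕ) : LipschitzWith 1 (nm g) :=
  LipschitzWith.of_le_add fun z w => by
    have h1 := nm_add_le g w (z - w)
    have h2 := nm_le_norm g (z - w)
    rw [add_sub_cancel] at h1
    rw [dist_eq_norm]
    linarith

theorem continuous_nm (g : ℕ) : Continuous (nm g) := (lipschitz_nm g).continuous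

theorem norm_le_nm (hg : 0 < g) (z : ℂ) : ‖z‖ ≤ (1 + tt g) * nm g z := by
  obtain ⟨k, a, b, h, rfl⟩ := exists_pt hg z
  have ha := (abs_nonneg b).trans h
  have ht := tt_pos hg
  rw [nm_pt hg h, pt, norm_mul, norm_ze, one_mul]
  refine (norm_add_le _ _).trans ?_
  rw [norm_mul, norm_I, mul_one, norm_real, norm_real, Real.norm_eq_abs, Real.norm_eq_abs, abs_mul,
    abs_of_nonneg ha, abs_of_pos ht]
  nlinarith

theorem isCompact_Pol (hg : 0 < g) : IsCompact (Pol g) := by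
  have e : Pol g = nm g ⁻¹' Set.Iic 1 := Set.ext fun _ => mem_Pol hg
  refine Metric.isCompact_of_isClosed_isBounded ?_ ?_
  · rw [e]; exact isClosed_Iic.preimage (continuous_nm g)
  · refine (Metric.isBounded_closedBall (x := (0 : ℂ)) (r := 1 + tt g)).subset fun z hz => ?_
    have h1 := norm_le_nm hg z
    have h2 := (mem_Pol hg).1 hz
    have := tt_pos hg
    rw [mem_closedBall_zero_iff]
    nlinarith

theorem nm_comb (hg : 0 < g) {s t : ℝ} (hs : 0 ≤ s) (ht : 0 ≤ t) (z w : ℂ) :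
    nm g (s * z + t * w) ≤ s * nm g z + t * nm g w := by
  rw [← nm_smul hg hs, ← nm_smul hg ht]; exact nm_add_le g _ _

theorem convex_Pol (hg : 0 < g) : Convex ℝ (Pol g) := by
  intro z hz w hw s t hs ht hst
  rw [mem_Pol hg] at *
  have := nm_comb hg hs ht z w
  simp only [real_smul]
  nlinarith

theorem zero_mem_Pol (g : ℕ) : (0 : ℂ) ∈ Pol g := fun k => by simp

/-- If the first coordinate equals the gauge, the point is in the sector. -/
theorem abs_le_of_nm (hg : 0 < g) {k : ℤ} {a b : ℝ} (h : nm g (pt g k a b) ≤ a) : |b| ≤ a := by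
  obtain ⟨j, a', b', h', e⟩ := exists_pt hg (pt g k a b)
  have ha : a' = a := by
    have h1 := le_nm_pt g k a b
    have h2 : nm g (pt g k a b) = a' := by rw [e, nm_pt hg h']
    linarith
  subst ha
  rcases ((abs_nonneg b').trans h').eq_or_lt with h0 | h0
  · subst h0
    rw [abs_nonpos_iff.1 h', pt_zero, ← pt_zero g k] at e
    rw [(pt_inj hg e).2, abs_zero]
  have hre : (pt g j a' b' / ze g k).re = a' := by
    rw [← e, pt_div, add_re, ofReal_re, re_ofReal_mul, I_re, mul_zero, add_zero]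
  rcases (re_pt_le hg h' k).2 h0 hre with h1 | ⟨h1, rfl⟩ | ⟨h1, rfl⟩
  · rw [pt_congr hg h1] at e
    rwa [(pt_inj hg e).2]
  · rw [pt_congr hg h1, ← pt_diag hg] at e
    rw [(pt_inj hg e).2, abs_neg, abs_of_pos h0]
  · rw [pt_congr hg h1, ← sub_add_cancel j 1, pt_diag hg, sub_add_cancel] at e
    rw [(pt_inj hg e).2, abs_of_pos h0]

/-- Two sector descriptions of the same nonzero point. -/
theorem pt_eq_pt (hg : 0 < g) {k j : ℤ} {a b a' b' : ℝ} (h : |b| ≤ a) (h' : |b'| ≤ a')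
    (h0 : 0 < a) (e : pt g k a b = pt g j a' b') :
    a' = a ∧ ((j ≡ k [ZMOD (4 * g : ℕ)] ∧ b' = b) ∨
      (j ≡ k + 1 [ZMOD (4 * g : ℕ)] ∧ b = a ∧ b' = -a) ∨
      (j ≡ k - 1 [ZMOD (4 * g : ℕ)] ∧ b = -a ∧ b' = a)) := by
  have ha : a' = a := by rw [← nm_pt hg h (k := k), e, nm_pt hg h']
  subst ha
  refine ⟨rfl, ?_⟩
  have hre : (pt g k a' b / ze g j).re = a' := by
    rw [e, pt_div, add_re, ofReal_re, re_ofReal_mul, I_re, mul_zero, add_zero]
  rcases (re_pt_le hg h j).2 h0 hre with h1 | ⟨h1, rfl⟩ | ⟨h1, rfl⟩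
  · rw [pt_congr hg h1] at e
    exact Or.inl ⟨h1, (pt_inj hg e).2.symm⟩
  · rw [pt_congr hg h1, ← pt_diag hg] at e
    exact Or.inr (Or.inl ⟨h1, rfl, (pt_inj hg e).2.symm⟩)
  · rw [pt_congr hg h1, ← sub_add_cancel k 1, pt_diag hg, sub_add_cancel] at e
    exact Or.inr (Or.inr ⟨h1, rfl, (pt_inj hg e).2.symm⟩)

/-- Glued points lie on opposite sides. -/
theorem glue_iff (hg : 0 < g) {z : ℂ} {k : ℤ} :
    (z ∈ Pol g ∧ z - 2 * ze g k ∈ Pol g) ↔ ∃ b : ℝ, |b| ≤ 1 ∧ z = pt g k 1 b := by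
  constructor
  · rintro ⟨h1, h2⟩
    rw [mem_Pol hg] at h1 h2
    set a := (z / ze g k).re with ha
    set b := (z / ze g k).im / tt g with hb
    have e : z = pt g k a b := by
      rw [pt, hb, div_mul_cancel₀ _ (tt_pos hg).ne', ha, re_add_im,
        mul_div_cancel₀ _ (ze_ne g k)]
    have e2 : z - 2 * ze g k = pt g (k + 2 * g) (2 - a) (-b) := by
      rw [pt_add_two hg]; conv_lhs => rw [e]
      simp only [pt]; push_cast; ring
    have i1 := le_nm_pt g k a b
    have i2 := le_nm_pt g (k + 2 * g) (2 - a) (-b)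
    rw [← e] at i1
    rw [← e2] at i2
    have ha1 : a = 1 := by linarith
    rw [ha1] at e
    exact ⟨b, abs_le_of_nm hg (k := k) (by rwa [← e]), e⟩
  · rintro ⟨b, hb, rfl⟩
    exact ⟨pt_mem hg k hb le_rfl, by
      rw [pt_sub hg]; exact pt_mem hg _ (by rwa [abs_neg]) le_rfl⟩

theorem vtx_iff (hg : 0 < g) {k : ℤ} {a b : ℝ} (h : |b| ≤ a) :
    Vtx g (pt g k a b) ↔ a = 1 ∧ |b| = 1 := by
  constructor
  · rintro ⟨j, e⟩
    obtain ⟨rfl, h1⟩ := pt_eq_pt hg (by simp) h one_pos e.symm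
    refine ⟨rfl, ?_⟩
    rcases h1 with ⟨-, rfl⟩ | ⟨-, -, rfl⟩ | ⟨-, -, rfl⟩ <;> simp
  · rintro ⟨rfl, h1⟩
    rcases (abs_eq zero_le_one).1 h1 with rfl | rfl
    · exact ⟨k, rfl⟩
    · exact ⟨k - 1, by rw [← pt_diag hg, sub_add_cancel]⟩

theorem nm_vtx (hg : 0 < g) {z : ℂ} (h : Vtx g z) : nm g z = 1 := by
  obtain ⟨k, rfl⟩ := h
  exact nm_pt hg (by simp)

/-- The rectangle between the sides `k` and `k + 2g` lies in the polygon. -/
theorem nm_rect (hg : 0 < g) (k : ℤ) {a b c : ℝ} (ha : |a| ≤ c) (hb : |b| ≤ c) :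
    nm g (pt g k a b) ≤ c := by
  have hc := (abs_nonneg a).trans ha
  rcases hc.eq_or_lt with rfl | hc
  · rw [abs_nonpos_iff.1 ha, abs_nonpos_iff.1 hb, pt_zero, nm_zero hg]
  obtain ⟨a1, a2⟩ := abs_le.1 ha
  have e : pt g k a b = ((c + a) / (2 * c) : ℝ) * pt g k c b +
      ((c - a) / (2 * c) : ℝ) * pt g (k + 2 * g) c (-b) := by
    rw [pt_add_two hg, ← pt_smul, ← pt_smul, ← pt_add]
    congr 1 <;> field_simp <;> ring
  rw [e]
  refine (nm_comb hg (div_nonneg (by linarith) (by linarith))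
    (div_nonneg (by linarith) (by linarith)) _ _).trans ?_
  rw [nm_pt hg hb, nm_pt hg (by rwa [abs_neg])]
  apply le_of_eq
  field_simp
  ring

end

end Pool.Agent.MCG
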