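import Pool.Agent.Lib.MP_c86c76_al.Top.Bas

/-!
The sides that are not vertical lie outside the horizontal strip.
-/

set_option autoImplicit false

namespace Pool.Agent.MCG

variable {g : ℕ}

theorem im_re_pt (g : ℕ) (a b : ℝ) : (pt g 0 a b).re = a := by simp [pt, ze_zero]

theorem im_im_pt (g : ℕ) (a b : ℝ) : (pt g 0 a b).im = b * tt g := by simp [pt, ze_zero]

theorem im_eq_pt (hg : 0 < g) (z : ℂ) : pt g 0 z.re (z.im / tt g) = z :=
  Complex.ext (im_re_pt ..) (by rw [im_im_pt, div_mul_cancel₀ _ (tt_pos hg).ne'])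

theorem im_abs_re (hg : 0 < g) (z : ℂ) : |z.re| ≤ nm g z := by
  have h1 := re_le_nm g z 0
  have h2 := re_le_nm g (-z) 0
  rw [ze_zero, div_one] at h1 h2
  rw [nm_neg hg, Complex.neg_re] at h2
  exact abs_le.2 ⟨by linarith, h1⟩

theorem tt_le_im (hg : 0 < g) {k : ℤ} (h : ¬ (2 * g : ℤ) ∣ k) {b : ℝ} (hb : |b| ≤ 1) :
    tt g ≤ |(pt g k 1 b).im| := by
  by_contra h1
  have h2 : |(pt g k 1 b).im / tt g| < 1 := by
    rw [abs_div, abs_of_pos (tt_pos hg), div_lt_one (tt_pos hg)]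
    exact not_le.1 h1
  have h3 := im_abs_re hg (pt g k 1 b)
  have e := im_eq_pt hg (pt g k 1 b)
  have h4 := nm_pt hg (k := k) hb
  rw [h4] at h3
  generalize (pt g k 1 b).im / tt g = c at h2 e
  generalize (pt g k 1 b).re = a at h3 e
  have key : ∀ (j : ℤ) (c : ℝ), |c| < 1 → pt g j 1 c = pt g k 1 b → (2 * g : ℤ) ∣ j → False := by
    intro j c hc e hj
    rcases (pt_eq_pt hg hc.le hb one_pos e).2 with ⟨h5, -⟩ | ⟨-, rfl, -⟩ | ⟨-, rfl, -⟩
    · refine h ((dvd_sub_left hj).1 (dvd_sub_comm.1 (Dvd.dvd.trans ⟨2, ?_⟩ h5.dvd)))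
      push_cast
      ring
    · simp at hc
    · simp at hc
  rcases h3.eq_or_lt with h5 | h5
  · rcases (abs_eq zero_le_one).1 h5 with rfl | rfl
    · exact key 0 c h2 e (dvd_zero _)
    · exact key (0 + 2 * g) (-c) (by rwa [abs_neg]) (by rwa [pt_add_two hg, neg_neg]) (by simp)
  · have := nm_rect hg 0 (le_max_left |a| |c|) (le_max_right |a| |c|)
    rw [e, h4] at this
    exact (max_lt h5 h2).not_ge this

end Pool.Agent.MCG
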