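import Pool.Agent.Lib.MP_c86c76_al.Top.Defs

/-!
Orientation-preserving homeomorphisms of the closed surface and the mapping class group.
-/

set_option autoImplicit false

namespace Pool.Agent.MCG

open Metric

/-- `f` preserves the orientation: on a closed disc around a point `p` inside the polygon it is
given by a continuous map `F` into the interior of the polygon, and the image of the boundary
circle winds once in the positive sense around `F p`. -/
def OrPres {g : ℕ} (f : Surf g ≃ₜ Surf g) : Prop :=
  ∃ (p : ℂ) (r : ℝ) (F : ℂ → ℂ) (θ : ℝ → ℝ), 0 < r ∧ closedBall p r ⊆ interior (Pol g) ∧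
    ContinuousOn F (closedBall p r) ∧ Set.MapsTo F (closedBall p r) (interior (Pol g)) ∧
    (∀ z w : Pol g, (z : ℂ) ∈ closedBall p r → (w : ℂ) = F z → f (Quot.mk _ z) = Quot.mk _ w) ∧
    Continuous θ ∧ θ (2 * Real.pi) = θ 0 + 2 * Real.pi ∧
    ∀ t, ∃ ρ > 0, F (circleMap p r t) = circleMap (F p) ρ (θ t)

/-- The mapping class group: isotopy classes of orientation-preserving homeomorphisms. -/
noncomputable def ModOr (g : ℕ) : Subgroup (ModPM (Surf g)) :=
  Subgroup.closure {c | ∃ f : Surf g ≃ₜ Surf g, OrPres f ∧ c = QuotientGroup.mk f}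

end Pool.Agent.MCG
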