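import Pool.Agent.Lib.MP_c86c76_al.Top.Ori
import Pool.Agent.Lib.MP_c86c76_al.Top.Geo

/-!
A homeomorphism that is the identity near a point preserves the orientation.
-/

set_option autoImplicit false

namespace Pool.Agent.MCG

open Metric Filter

variable {g : ℕ}

theorem ori_int (g : ℕ) : (interior (Pol g)).Nonempty := by
  refine ⟨0, mem_interior.2 ⟨ball 0 1, fun z hz k => ?_, isOpen_ball, mem_ball_self one_pos⟩⟩
  have h : ‖zeta g‖ = 1 := by
    rw [zeta, show Real.pi * Complex.I / (2 * g) = (Real.pi / (2 * g) : ℝ) * Complex.I by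
      push_cast; ring, Complex.norm_exp_ofReal_mul_I]
  refine (Complex.re_le_norm _).trans ?_
  rw [norm_div, norm_pow, h, one_pow, div_one]
  exact (mem_ball_zero_iff.1 hz).le

theorem ori_of (hg : 0 < g) (f : Surf g ≃ₜ Surf g) (x : Surf g) (h : ∀ᶠ y in nhds x, f y = y) :
    OrPres f := by
  obtain ⟨z, rfl⟩ := Quot.exists_rep x
  obtain ⟨ε, e0, e1⟩ := Metric.eventually_nhds_iff.1 (continuous_quot_mk.continuousAt.eventually h)
  have m : (z : ℂ) ∈ closure (interior (Pol g)) := by
    rw [(convex_Pol hg).closure_interior_eq_closure_of_nonempty_interior (ori_int g)]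
    exact subset_closure z.2
  obtain ⟨p, p1, p2⟩ := Metric.mem_closure_iff.1 m ε e0
  obtain ⟨δ, d0, d1⟩ := Metric.isOpen_iff.1 (isOpen_interior.inter isOpen_ball) p
    ⟨p1, mem_ball'.2 p2⟩
  have d2 := (closedBall_subset_ball (half_lt_self d0)).trans d1
  refine ⟨p, δ / 2, id, id, half_pos d0, fun w m => (d2 m).1, continuousOn_id,
    fun w m => (d2 m).1, fun u w m e => ?_, continuous_id, (zero_add _).symm,
    fun t => ⟨δ / 2, half_pos d0, rfl⟩⟩
  rw [show w = u from Subtype.ext e]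
  exact e1 (d2 m).2

theorem modP_le (hg : 0 < g) : ModP (Surf g) ≤ ModOr g := by
  refine Subgroup.closure_mono fun c m => ?_
  obtain ⟨_, ⟨f, x, rfl, h⟩, e⟩ := Group.mem_conjugatesOfSet_iff.1 m
  obtain ⟨b, rfl⟩ := isConj_iff.1 e
  obtain ⟨k, rfl⟩ := QuotientGroup.mk_surjective b
  refine ⟨k * f * k⁻¹, ori_of hg _ (k x) ?_, rfl⟩
  have t : Tendsto k.symm (nhds (k x)) (nhds x) := by
    simpa using k.symm.continuous.tendsto (k x)
  filter_upwards [t.eventually h] with y e
  change k (f (k.symm y)) = y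
  rw [e, k.apply_symm_apply]

theorem ori_rel (hg : 0 < g) {Γ : Subgroup (ModPM (Surf g))} (h : Γ.relIndex (ModOr g) ≠ 0) :
    Γ.relIndex (ModP (Surf g)) ≠ 0 :=
  fun e => h (Subgroup.relIndex_eq_zero_of_le_right (modP_le hg) e)

end Pool.Agent.MCG
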