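import Pool.Agent.Lib.MP_c86c76_al.Top.Bas
import Pool.Agent.Lib.MP_c86c76_al.Top.Lift

/-!
The automorphism of the free group induced by the cylinder twist.
-/

set_option autoImplicit false

namespace Pool.Agent.MCG

open Set Topology

variable {g : ℕ}

theorem phiT_sin {α x : ℝ} (h0 : 0 ≤ α) (h1 : α ≤ x) (h2 : x ≤ Real.pi - α) :
    Real.sin α ≤ Real.sin x := by
  have hp := Real.pi_pos
  rcases le_total x (Real.pi / 2) with h | h
  · exact Real.sin_le_sin_of_le_of_le_pi_div_two (by linarith) h h1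
  · rw [← Real.sin_pi_sub x]
    exact Real.sin_le_sin_of_le_of_le_pi_div_two (by linarith) (by linarith) (by linarith)

/-- The sides `1, ..., 2g - 1` lie above the cylinder. -/
theorem phiT_im (hg : 0 < g) {k : ℤ} (h1 : 1 ≤ k) (h2 : k + 1 ≤ 2 * g) {b : ℝ} (hb : |b| ≤ 1) :
    tt g ≤ (pt g k 1 b).im := by
  have h0 : (0 : ℝ) < g := by positivity
  have hc := cos_ang_pos hg
  have hap := ang_pos hg
  have ht : tt g * Real.cos (Real.pi / (4 * g)) = Real.sin (Real.pi / (4 * g)) :=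
    Real.tan_mul_cos hc.ne'
  set α := Real.pi / (4 * g) with hα
  have hk1 : (1 : ℝ) ≤ k := by exact_mod_cast h1
  have hk2 : (k : ℝ) + 1 ≤ 2 * g := by exact_mod_cast h2
  have e : k * Real.pi / (2 * g) = 2 * k * α := by rw [hα]; field_simp; ring
  have hπ : 4 * g * α = Real.pi := by rw [hα]; field_simp
  have him : (pt g k 1 b).im = Real.sin (2 * k * α) + b * tt g * Real.cos (2 * k * α) := by
    rw [pt, ze_eq, Complex.mul_im, Complex.exp_ofReal_mul_I_re, Complex.exp_ofReal_mul_I_im, e]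
    simp
    ring
  have s1 := phiT_sin (x := 2 * k * α + α) hap.le (by nlinarith) (by nlinarith)
  have s2 := phiT_sin (x := 2 * k * α - α) hap.le (by nlinarith) (by nlinarith)
  rw [Real.sin_add] at s1
  rw [Real.sin_sub] at s2
  obtain ⟨b1, b2⟩ := abs_le.1 hb
  refine le_of_mul_le_mul_right ?_ hc
  rw [him, ht, add_mul, mul_right_comm (b * tt g), mul_assoc b, ht]
  nlinarith [mul_nonneg (sub_nonneg.2 b1) (sub_nonneg.2 s1),
    mul_nonneg (sub_nonneg.2 b2) (sub_nonneg.2 s2)]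

/-- The part of the polygon above the image of the upper half of side `0`. -/
def phiTK (g : ℕ) : Set ℂ := {z | z ∈ Pol g ∧ tt g ≤ 2 * z.im + tt g * z.re}

theorem phiT_convex (hg : 0 < g) : Convex ℝ (phiTK g) := by
  intro z hz w hw s t hs ht hst
  refine ⟨convex_Pol hg hz.1 hw.1 hs ht hst, ?_⟩
  simp only [Complex.add_im, Complex.add_re, Complex.smul_im, Complex.smul_re, smul_eq_mul]
  have h1 := mul_le_mul_of_nonneg_left hz.2 hs
  have h2 := mul_le_mul_of_nonneg_left hw.2 ht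
  have h3 : tt g = s * tt g + t * tt g := by rw [← add_mul, hst, one_mul]
  linarith

theorem phiT_mem0 (hg : 0 < g) {a b : ℝ} (ha : |a| ≤ 1) (hb : |b| ≤ 1) (h : 1 ≤ 2 * b + a) :
    pt g 0 a b ∈ phiTK g := by
  refine ⟨(mem_Pol hg).2 (nm_rect hg 0 ha hb), ?_⟩
  have := mul_le_mul_of_nonneg_left h (tt_pos hg).le
  simp only [pt, ze_zero, one_mul, Complex.add_im, Complex.add_re, Complex.ofReal_im,
    Complex.ofReal_re, Complex.mul_im, Complex.mul_re, Complex.I_re, Complex.I_im]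
  linarith

theorem phiT_mem (hg : 0 < g) {k : ℤ} (h1 : 1 ≤ k) (h2 : k + 1 ≤ 2 * g) {b : ℝ} (hb : |b| ≤ 1) :
    pt g k 1 b ∈ phiTK g := by
  refine ⟨pt_mem hg k hb le_rfl, ?_⟩
  have h3 := phiT_im hg h1 h2 hb
  have h4 := re_le_nm g (pt g k 1 b) (2 * g)
  rw [nm_pt hg hb, ze_two hg, div_neg, div_one, Complex.neg_re] at h4
  have := mul_le_mul_of_nonneg_left h4 (tt_pos hg).le
  linarith

theorem phiT_lift (hg : 0 < g) (hF : FibSt g) {q : EE g → Surf g} (hq : Cov (FG g) q (cc g))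
    {a : ℂ} (ha : a ∈ phiTK g) (e : EE g) (he : q e = pr g a) :
    ∃ L : ℂ → EE g, ContinuousOn L (phiTK g) ∧ L a = e ∧ ∀ z ∈ phiTK g, q (L z) = pr g z := by
  classical
  have := (phiT_convex hg).contractibleSpace ⟨a, ha⟩
  have := (phiT_convex hg).locallyPathConnectedSpace
  obtain ⟨L, h1, h2, h3⟩ := hq.exists_lift (A := phiTK g) (f := fun z => pr g z)
    ((continuous_pr hg).comp continuous_subtype_val)
    (fun z hz => by
      have h4 := z.2.2
      rw [(hF.centre hg z.2.1).1 hz] at h4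
      have := tt_pos hg
      simp at h4
      linarith) ⟨a, ha⟩ e he
  refine ⟨fun z => if h : z ∈ phiTK g then L ⟨z, h⟩ else e, ?_, ?_, fun z hz => ?_⟩
  · rw [continuousOn_iff_continuous_domRestrict]
    exact h1.congr fun z => by simp only [Set.domRestrict_apply, dif_pos z.2]
  · simp only [dif_pos ha, h2]
  · simp only [dif_pos hz, h3]

theorem phiTSt (hg : 0 < g) (hF : FibSt g) (hC : ECovSt g) (hL : ELiftSt g) (hS : SideSt g) :
    PhiTSt g := by
  intro D T hD hT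
  obtain ⟨hl, hp⟩ := hL hg
  have hq : Cov (FG g) (D ∘ pe g) (cc g) := hD.vv ▸ Cov.comp hC D
  have T0 : ∀ s : ℝ, |s| ≤ 1 → s ≤ 0 → T (pr g (pt g 0 1 s)) = pr g (pt g 0 1 s) :=
    fun s hs h0 => hT.1 1 s 1 1 (by simp) hs (by simp) (by
      beta_reduce
      rw [min_eq_left (by linarith)]
      norm_num)
  have T1 : ∀ s ∈ Icc (0 : ℝ) 1, T (pr g (pt g 0 1 s)) = pr g (pt g 0 (1 - 2 * s) s) :=
    fun s hs => hT.1 1 s _ 1 (by simp) (abs_le.2 ⟨by linarith [hs.1], hs.2⟩)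
      (abs_le.2 ⟨by linarith [hs.2], by linarith [hs.1]⟩) (by
        beta_reduce
        rw [min_eq_right (by linarith [hs.1])]
        push_cast
        ring)
  have Tc : T (cc g) = cc g := by
    have := hT.1 0 0 0 1 (by simp) (by simp) (by simp) (by norm_num)
    rwa [pt_zero] at this
  have Tv : T (vv g) = vv g := hT.1 1 1 1 0 (by simp) (by simp) (by simp) (by norm_num)
  have q0 : (D ∘ pe g) (e0 hg) = vv g := hD.cc
  obtain ⟨F, φ, F0, F1, F2⟩ := hq.exists_ind hl T Tc (e0 hg) (by rw [q0, Tv])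
  choose Λ c1 c2 c3 c4 using hS hg D hD
  have c5 : ∀ k, ∀ s ∈ Icc (-1 : ℝ) 1, (D ∘ pe g) (Λ k s) = pr g (pt g k 1 s) := c4
  have m1 : (-1 : ℝ) ∈ Icc (-1 : ℝ) 1 := ⟨le_rfl, by norm_num⟩
  have m2 : (1 : ℝ) ∈ Icc (-1 : ℝ) 1 := ⟨by norm_num, le_rfl⟩
  have i1 : Icc (-1 : ℝ) 0 ⊆ Icc (-1 : ℝ) 1 := Icc_subset_Icc_right zero_le_one
  have i2 : Icc (0 : ℝ) 1 ⊆ Icc (-1 : ℝ) 1 := Icc_subset_Icc_left (by norm_num)
  have fin : ∀ k γ, F (Λ k 1) = γ • e0 hg → φ (xx g k) = γ := fun k γ h =>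
    hq.cancel (e := e0 hg) (by rw [← h, c3, F2, F0])
  have hk : ∀ k : ℤ, 1 ≤ k → k + 1 ≤ 2 * g → φ (xx g k) = xx g k := by
    intro k h1 h2
    refine fin k _ ((hq.eqOn_of_eq isPreconnected_Icc (a := fun s => F (Λ k s))
      (F.continuous.comp_continuousOn (c1 k)) (c1 k) (fun s hs => ?_) m1
      (by simp only [c2, F0]) m2).trans (c3 k))
    rw [F1, c5 k s hs]
    exact hT.2 _ (pt_mem hg k (abs_le.2 hs) le_rfl)
      ((phiT_im hg h1 h2 (abs_le.2 hs)).trans (le_abs_self _))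
  have h0 : φ (xx g 0) = xw g 0 (2 * g) := by
    have n0 : (0 : ℝ) ∈ Icc (0 : ℝ) 1 := ⟨le_rfl, zero_le_one⟩
    have n1 : (1 : ℝ) ∈ Icc (0 : ℝ) 1 := ⟨zero_le_one, le_rfl⟩
    have a0 : F (Λ 0 0) = Λ 0 0 :=
      hq.eqOn_of_eq isPreconnected_Icc (a := fun s => F (Λ 0 s))
        (F.continuous.comp_continuousOn ((c1 0).mono i1)) ((c1 0).mono i1)
        (fun s hs => by rw [F1, c5 0 s (i1 hs), T0 s (abs_le.2 (i1 hs)) hs.2])
        ⟨le_rfl, by norm_num⟩ (by simp only [c2, F0]) ⟨by norm_num, le_rfl⟩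
    have k1 : ∀ s ∈ Icc (0 : ℝ) 1, pt g 0 1 s ∈ phiTK g := fun s hs =>
      phiT_mem0 hg (by simp) (abs_le.2 (i2 hs)) (by linarith [hs.1])
    have k2 : ∀ s ∈ Icc (0 : ℝ) 1, pt g 0 (1 - 2 * s) s ∈ phiTK g := fun s hs =>
      phiT_mem0 hg (abs_le.2 ⟨by linarith [hs.2], by linarith [hs.1]⟩) (abs_le.2 (i2 hs))
        (by linarith)
    obtain ⟨L, l1, l2, l3⟩ := phiT_lift hg hF hq (k1 0 n0) (Λ 0 0) (c5 0 0 (i2 n0))
    have cp : ∀ k : ℤ, Continuous fun s : ℝ => pt g k 1 s := fun k =>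
      (continuous_pt g k).comp (continuous_const.prodMk continuous_id)
    have cp' : Continuous fun s : ℝ => pt g 0 (1 - 2 * s) s :=
      (continuous_pt g 0).comp (Continuous.prodMk (by fun_prop) continuous_id)
    have a1 : F (Λ 0 1) = L (pt g 0 (1 - 2 * 1) 1) :=
      hq.eqOn_of_eq isPreconnected_Icc (a := fun s => F (Λ 0 s))
        (b := fun s => L (pt g 0 (1 - 2 * s) s))
        (F.continuous.comp_continuousOn ((c1 0).mono i2)) (l1.comp cp'.continuousOn k2)
        (fun s hs => by rw [F1, c5 0 s (i2 hs), T1 s hs, l3 _ (k2 s hs)]) n0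
        (by simp only [a0, mul_zero, sub_zero, l2]) n1
    have a2 : ∀ n : ℕ, n + 1 ≤ 2 * g → L (pt g n 1 1) = xw g 0 (n + 1) • e0 hg := by
      intro n
      induction n with
      | zero =>
        intro _
        have := hq.eqOn_of_eq isPreconnected_Icc (a := fun s => L (pt g 0 1 s)) (b := Λ 0)
          (l1.comp (cp 0).continuousOn k1) ((c1 0).mono i2)
          (fun s hs => by rw [c5 0 s (i2 hs), l3 _ (k1 s hs)]) n0 l2 n1
        rw [c3] at this
        simpa [xw] using this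
      | succ n ih =>
        intro hn
        have k3 : ∀ s ∈ Icc (-1 : ℝ) 1, pt g (n + 1 : ℕ) 1 s ∈ phiTK g := fun s hs =>
          phiT_mem hg (by omega) (by omega) (abs_le.2 hs)
        have := hq.eqOn_of_eq isPreconnected_Icc (a := fun s => L (pt g (n + 1 : ℕ) 1 s))
          (b := fun s => xw g 0 (n + 1) • Λ (n + 1 : ℕ) s)
          (l1.comp (cp _).continuousOn k3) ((hq.continuous_smul _).comp_continuousOn (c1 _))
          (fun s hs => by rw [hq.smul, c5 _ s hs, l3 _ (k3 s hs)]) m1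
          (by
            simp only [c2]
            rw [← ih (by omega), ← pt_diag hg n 1]
            rfl) m2
        simp only [c3] at this
        rw [this, smul_smul, xw_succ g 0 (n + 1), zero_add]
    refine fin 0 _ (a1.trans ?_)
    have a3 := a2 (2 * g - 1) (by omega)
    rw [← pt_diag hg, show (((2 * g - 1 : ℕ) : ℤ) + 1) = 0 + 2 * g by omega, pt_add_two hg,
      show 2 * g - 1 + 1 = 2 * g by omega] at a3
    rw [← a3]
    norm_num
  have e : φ = tau g := by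
    refine MulEquiv.toMonoidHom_injective (FreeGroup.ext_hom _ _ fun i => ?_)
    change φ (FreeGroup.of i) = tau g (FreeGroup.of i)
    rw [tau_of, ← xx_of]
    split_ifs with h
    · rw [h, Nat.cast_zero, h0]
      conv_lhs => rw [show 2 * g = 2 * g - 1 + 1 by omega, xw_succ', zero_add]
    · exact hk _ (by omega) (by have := i.2; omega)
  exact ⟨F, F1, e ▸ F2⟩

end Pool.Agent.MCG
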