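import Pool.Agent.Lib.MP_c86c76_al.Top.Geo
import Pool.Agent.Lib.MP_c86c76_al.Top.Alg

/-!
Internal definitions and the statements of the steps of the topological part.
-/

set_option autoImplicit false

namespace Pool.Agent.MCG

open Set Topology
open scoped unitInterval

noncomputable section

/-! ### The surface -/

open Classical in
/-- The projection to the surface, extended to the plane by the radial retraction. -/
def pr (g : ℕ) (z : ℂ) : Surf g :=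
  Quot.mk _ (if h : z / (max 1 (nm g z) : ℝ) ∈ Pol g then ⟨_, h⟩ else ⟨0, zero_mem_Pol g⟩)

/-- The centre. -/
def cc (g : ℕ) : Surf g := pr g 0

/-- The vertex. -/
def vv (g : ℕ) : Surf g := pr g (pt g 0 1 1)

theorem ze_eq_pow (g : ℕ) (k : ℤ) : ∃ n : ℕ, ze g k = zeta g ^ n := by
  rcases Nat.eq_zero_or_pos g with rfl | hg
  · exact ⟨0, by simp [ze, zeta]⟩
  · obtain ⟨n, -, h⟩ := exists_nat_ze hg k
    exact ⟨n, by rw [h, ze_nat]⟩

theorem pr_of_mem {g : ℕ} {z : ℂ} (h : z ∈ Pol g) : pr g z = Quot.mk _ ⟨z, h⟩ := by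
  have h1 : nm g z ≤ 1 := nm_le_iff.2 fun k => by
    obtain ⟨n, hn⟩ := ze_eq_pow g k
    rw [hn]; exact h n
  have h2 : z / (max 1 (nm g z) : ℝ) = z := by rw [max_eq_left h1]; simp
  unfold pr
  rw [dif_pos (h2.symm ▸ h)]
  congr 1
  exact Subtype.ext h2

theorem pr_glue {g : ℕ} {z : ℂ} {k : ℤ} (h : z ∈ Pol g) (h' : z - 2 * ze g k ∈ Pol g) :
    pr g z = pr g (z - 2 * ze g k) := by
  rw [pr_of_mem h, pr_of_mem h']
  obtain ⟨n, hn⟩ := ze_eq_pow g k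
  exact Quot.sound ⟨n, by rw [← hn]⟩

/-- The fibres of the projection; the surface is Hausdorff. -/
def FibSt (g : ℕ) : Prop :=
  (∀ z ∈ Pol g, ∀ w ∈ Pol g,
    pr g z = pr g w ↔ z = w ∨ (∃ k : ℤ, w = z - 2 * ze g k) ∨ (Vtx g z ∧ Vtx g w)) ∧
  T2Space (Surf g)

/-! ### Families of homeomorphisms -/

section Gen

variable {S : Type} [TopologicalSpace S]

/-- A family of homeomorphisms, jointly continuous over `U`. -/
def Fam {T : Type} [TopologicalSpace T] (s : T → S ≃ₜ S) (U : Set T) : Prop :=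
  ContinuousOn (fun p : T × S => s p.1 p.2) (U ×ˢ univ)

/-- An isotopy. -/
def IFam (H : I → S ≃ₜ S) : Prop := Continuous fun p : I × S => H p.1 p.2

/-- Isotopies that fix `c` do not change the coset modulo `K`. -/
def Stable (c : S) (K : Subgroup (S ≃ₜ S)) : Prop :=
  ∀ H : I → S ≃ₜ S, IFam H → (∀ t, H t c = c) → (H 0)⁻¹ * H 1 ∈ K

/-- Near `x₀` the cosets `sg x K` come from a continuous family that moves `c` to `x`. -/
def LocSec (c : S) (K : Subgroup (S ≃ₜ S)) (sg : S → S ≃ₜ S) (x₀ : S) : Prop :=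
  ∃ U ∈ 𝓝 x₀, ∃ s : S → S ≃ₜ S, Fam s U ∧ ∀ x ∈ U, s x c = x ∧ (sg x)⁻¹ * s x ∈ K

end Gen

def FamSt : Prop := ∀ (S : Type) [TopologicalSpace S] [CompactSpace S] [T2Space S],
  (∀ H : I → S ≃ₜ S, IFam H → IFam fun t => (H t)⁻¹) ∧
  (∀ f : S ≃ₜ S, IsoId f ↔ ∃ H : I → S ≃ₜ S, IFam H ∧ H 0 = 1 ∧ H 1 = f) ∧
  (∀ f ∈ Subgroup.normalClosure {f : S ≃ₜ S | IsoId f}, IsoId f) ∧
  ∀ (c : S) (K : Subgroup (S ≃ₜ S)), Stable c K → ∀ H H' : I → S ≃ₜ S, IFam H → IFam H' →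
    (∀ t, H t c = H' t c) → ((H 0)⁻¹ * H' 0)⁻¹ * ((H 1)⁻¹ * H' 1) ∈ K

def BirSt : Prop := ∀ (S : Type) [TopologicalSpace S] [CompactSpace S] [T2Space S]
  [LocallyPathConnectedSpace S] [PathConnectedSpace S] (c : S) (K : Subgroup (S ≃ₜ S))
  (sg : S → S ≃ₜ S), Stable c K → (∀ x, LocSec c K sg x) → sg c ∈ K →
  (∀ f : S ≃ₜ S, IsoId f → f c = c → f ∈ K) ∧ ∀ x, ∃ f : S ≃ₜ S, IsoId f ∧ f c = x

/-! ### Explicit homeomorphisms -/

def IsRot {g : ℕ} (R : Surf g ≃ₜ Surf g) : Prop := ∀ z ∈ Pol g, R (pr g z) = pr g (ze g 1 * z)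

def IsRad {g : ℕ} (h : ℂ → Surf g ≃ₜ Surf g) : Prop :=
  (∀ x, nm g x < 1 → ∀ z ∈ Pol g, h x (pr g z) = pr g (z + (1 - nm g z : ℝ) * x)) ∧
  Fam h {x | nm g x < 1}

/-- The shear by `β` in the cylinder between the sides `0` and `2g`. -/
def IsSh {g : ℕ} (β : ℝ → ℝ) (f : Surf g ≃ₜ Surf g) : Prop :=
  (∀ (a b a' : ℝ) (n : ℤ), |a| ≤ 1 → |b| ≤ 1 → |a'| ≤ 1 → a + β b = a' + 2 * n →
    f (pr g (pt g 0 a b)) = pr g (pt g 0 a' b)) ∧
  ∀ z ∈ Pol g, tt g ≤ |z.im| → f (pr g z) = pr g z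

/-- The twist in the upper half of the cylinder. -/
def IsTw {g : ℕ} (T : Surf g ≃ₜ Surf g) : Prop := IsSh (fun b => 2 * min 1 (1 - b)) T

/-- The isotopy that pushes the centre around the core of the cylinder. -/
def IsPush {g : ℕ} (P : ℝ → Surf g ≃ₜ Surf g) : Prop :=
  (∀ τ, IsSh (fun b => τ * (2 * (1 - |b|))) (P τ)) ∧ Fam P univ

/-- The self-duality, which exchanges the centre and the vertex. -/
def IsDual {g : ℕ} (D : Surf g ≃ₜ Surf g) : Prop :=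
  (∀ x, D (D x) = x) ∧ ∀ (k : ℤ) (a b : ℝ), 0 ≤ b → b ≤ a → a ≤ 1 →
    D (pr g (pt g k a b)) = pr g (pt g ((2 * g + 1) * k) (1 - b) (1 - a)) ∧
    D (pr g (pt g k a (-b))) = pr g (pt g ((2 * g + 1) * k + 2 * g) (1 - b) (-(1 - a)))

def RadSt (g : ℕ) : Prop := ∃ h : ℂ → Surf g ≃ₜ Surf g, IsRad h

def ShSt (g : ℕ) : Prop :=
  (∃ T : Surf g ≃ₜ Surf g, IsTw T) ∧ ∃ P : ℝ → Surf g ≃ₜ Surf g, IsPush P

def DualSt (g : ℕ) : Prop := ∃ D : Surf g ≃ₜ Surf g, IsDual D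

def PushSt (g : ℕ) : Prop := ∀ (R T : Surf g ≃ₜ Surf g) (P : ℝ → Surf g ≃ₜ Surf g),
  IsRot R → IsTw T → IsPush P →
  T (cc g) = cc g ∧ P 1 * (R ^ (2 * g) * T * (R ^ (2 * g))⁻¹) = T

def Sig1St (g : ℕ) : Prop := ∀ (K : Subgroup (Surf g ≃ₜ Surf g)) (R : Surf g ≃ₜ Surf g)
  (h : ℂ → Surf g ≃ₜ Surf g) (P : ℝ → Surf g ≃ₜ Surf g), Stable (cc g) K → IsRot R → IsRad h →
  IsPush P → (∀ k : ℕ, R ^ k * P 1 * (R ^ k)⁻¹ ∈ K) →
  ∃ sg : Surf g → Surf g ≃ₜ Surf g, (∀ x, x ≠ vv g → LocSec (cc g) K sg x) ∧ sg (cc g) ∈ K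

def Sig2St (g : ℕ) : Prop := ∀ (K : Subgroup (Surf g ≃ₜ Surf g)) (h : ℂ → Surf g ≃ₜ Surf g)
  (D : Surf g ≃ₜ Surf g) (sg : Surf g → Surf g ≃ₜ Surf g), Stable (cc g) K → IsRad h → IsDual D →
  (∀ x, x ≠ vv g → LocSec (cc g) K sg x) →
  ∃ sg' : Surf g → Surf g ≃ₜ Surf g, (∀ x, LocSec (cc g) K sg' x) ∧ sg' (cc g) = sg (cc g)

/-! ### Coverings of a punctured space -/

/-- `q` is a regular covering of the complement of `c` with group `G`. -/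
structure Cov (G : Type) {E S : Type} [Group G] [MulAction G E] [TopologicalSpace E]
    [TopologicalSpace S] (q : E → S) (c : S) : Prop where
  ne : ∀ e, q e ≠ c
  cov : IsQuotientCoveringMap (fun e => (⟨q e, ne e⟩ : {x // x ≠ c})) G

/-- `f` has a lift that induces `φ` on the covering group. -/
def Ind {G E S : Type} [Group G] [MulAction G E] [TopologicalSpace E] [TopologicalSpace S]
    (q : E → S) (f : S ≃ₜ S) (φ : MulAut G) : Prop :=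
  ∃ F : C(E, E), (∀ e, q (F e) = f (q e)) ∧ ∀ (γ : G) (e : E), F (γ • e) = φ γ • F e

/-- Maps from `E` lift through coverings, with a given value at `e₀`. -/
def HasLifts {E : Type} [TopologicalSpace E] (e₀ : E) : Prop :=
  ∀ (Y X : Type) [TopologicalSpace Y] [TopologicalSpace X] (p : Y → X), IsCoveringMap p →
    ∀ (f : C(E, X)) (y : Y), p y = f e₀ → ∃ F : C(E, Y), F e₀ = y ∧ p ∘ F = f

/-! ### The universal covering of the surface punctured at the vertex -/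

/-- The polygon without its vertices. -/
def TS (g : ℕ) : Set ℂ := {z | z ∈ Pol g ∧ ¬ Vtx g z}

instance fgTop (g : ℕ) : TopologicalSpace (FG g) := ⊥

instance fgDisc (g : ℕ) : DiscreteTopology (FG g) := ⟨rfl⟩

/-- The letter of the wall `j`. -/
def ss (g : ℕ) (j : ℤ) : FG g := xx g ((2 * g + 1) * j + 2 * g)

/-- The tree of polygons. -/
def EE (g : ℕ) : Type := Quot fun a b : FG g × TS g =>
  ∃ k : ℤ, (b.2 : ℂ) = a.2 - 2 * ze g k ∧ b.1 = a.1 * ss g k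

instance eeTop (g : ℕ) : TopologicalSpace (EE g) := instTopologicalSpaceQuot

/-- A point of a tile. -/
def em {g : ℕ} (γ : FG g) (z : TS g) : EE g := Quot.mk _ (γ, z)

instance eeAct (g : ℕ) : MulAction (FG g) (EE g) where
  smul δ := Quot.map (fun a => (δ * a.1, a.2)) (by
    rintro a b ⟨k, h1, h2⟩
    exact ⟨k, h1, by simp only [h2, mul_assoc]⟩)
  one_smul e := by
    obtain ⟨a⟩ := e
    change Quot.mk _ (1 * a.1, a.2) = Quot.mk _ a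
    rw [one_mul]
  mul_smul δ δ' e := by
    obtain ⟨a⟩ := e
    change Quot.mk _ (δ * δ' * a.1, a.2) = Quot.mk _ (δ * (δ' * a.1), a.2)
    rw [mul_assoc]

theorem smul_em {g : ℕ} (δ γ : FG g) (z : TS g) : δ • em γ z = em (δ * γ) z := rfl

/-- The projection of the tree of polygons to the surface. -/
def pe (g : ℕ) : EE g → Surf g := Quot.lift (fun a => pr g a.2) (by
  rintro a b ⟨k, h1, -⟩
  rw [h1]
  exact pr_glue a.2.2.1 (h1 ▸ b.2.2.1))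

theorem pe_em {g : ℕ} (γ : FG g) (z : TS g) : pe g (em γ z) = pr g z := rfl

theorem mem_TS_of_lt {g : ℕ} (hg : 0 < g) {z : ℂ} (h : nm g z < 1) : z ∈ TS g :=
  ⟨(mem_Pol hg).2 h.le, fun hv => h.ne (nm_vtx hg hv)⟩

theorem zero_mem_TS {g : ℕ} (hg : 0 < g) : (0 : ℂ) ∈ TS g :=
  mem_TS_of_lt hg (by rw [nm_zero hg]; exact one_pos)

/-- The base point of the tree of polygons. -/
def e0 {g : ℕ} (hg : 0 < g) : EE g := em 1 ⟨0, zero_mem_TS hg⟩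

def EFibSt (g : ℕ) : Prop := ∀ (γ γ' : FG g) (z z' : TS g),
  em γ z = em γ' z' ↔ (γ = γ' ∧ z = z') ∨ ∃ k : ℤ, (z' : ℂ) = z - 2 * ze g k ∧ γ' = γ * ss g k

def ECovSt (g : ℕ) : Prop := Cov (FG g) (pe g) (vv g)

def ELiftSt (g : ℕ) : Prop := ∀ hg : 0 < g, HasLifts (e0 hg) ∧ PreconnectedSpace (EE g)

def PerSt (g : ℕ) : Prop := ∀ (f : Surf g ≃ₜ Surf g) (φ : MulAut (FG g)), f (vv g) = vv g →
  Ind (pe g) f φ → ∃ n : ℤ, IsConj (φ (rr g)) (rr g ^ n)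

def HeisSt (g : ℕ) : Prop := ∀ (φ : MulAut (FG g)) (n m : ℤ), IsConj (φ (rr g)) (rr g ^ n) →
  IsConj (φ⁻¹ (rr g)) (rr g ^ m) → n = 1 ∨ n = -1

/-- The lifts of the sides through the covering of the surface punctured at the centre. -/
def SideSt (g : ℕ) : Prop := ∀ (hg : 0 < g) (D : Surf g ≃ₜ Surf g), IsDual D → ∀ k : ℤ,
  ∃ Λ : ℝ → EE g, ContinuousOn Λ (Icc (-1) 1) ∧ Λ (-1) = e0 hg ∧ Λ 1 = xx g k • e0 hg ∧
    ∀ s ∈ Icc (-1 : ℝ) 1, D (pe g (Λ s)) = pr g (pt g k 1 s)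

def PhiRSt (g : ℕ) : Prop := ∀ D R : Surf g ≃ₜ Surf g, IsDual D → IsRot R →
  Ind (D ∘ pe g) R (rho g)

def PhiTSt (g : ℕ) : Prop := ∀ D T : Surf g ≃ₜ Surf g, IsDual D → IsTw T →
  Ind (D ∘ pe g) T (tau g)

end

end Pool.Agent.MCG
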